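import Pool.Agent.Helper97.LD.Meas

/-!
# Almost sure properties of a window
-/

set_option autoImplicit false

namespace Pool.Agent.Helper97.LD

open MeasureTheory ProbabilityTheory Filter
open scoped ENNReal NNReal Topology

/-- The jump measure. -/
noncomputable def nu (c : ℕ → ℝ≥0) (κ : ℕ → Measure ℝ) : Measure ℝ :=
  Measure.sum fun k => (c k : ℝ≥0∞) • κ k

/-- The standing assumptions on the jump measure. -/
structure Hyp (c : ℕ → ℝ≥0) (κ : ℕ → Measure ℝ) : Prop where
  prob : ∀ k, IsProbabilityMeasure (κ k)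
  supp : ∀ k, κ k (Set.Ioc 0 1)ᶜ = 0
  fin : ∫⁻ u, ENNReal.ofReal u ^ 2 ∂(nu c κ) ≠ ∞

variable {c : ℕ → ℝ≥0} {κ : ℕ → Measure ℝ}

theorem unif_Iio_le (u : ℝ) : unif (Set.Iio u) ≤ ENNReal.ofReal u := by
  rcases le_or_gt u 1 with h | h
  · exact (unif_Iio h).le
  · calc unif (Set.Iio u) ≤ 1 := prob_le_one
      _ ≤ ENNReal.ofReal u := by
          rw [← ENNReal.ofReal_one]; exact ENNReal.ofReal_le_ofReal h.le

/-- The sum of a function of the sizes of the present atoms. -/
noncomputable def asum (h : ℝ → ℝ≥0∞) (e : Env) : ℝ≥0∞ :=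
  ∑' a : Name, {e : Env | present e a}.indicator (fun e => h (e.2.2 a)) e

theorem measurable_asum {h : ℝ → ℝ≥0∞} (hh : Measurable h) : Measurable (asum h) :=
  Measurable.ennreal_tsum fun a => (hh.comp (measurable_size a)).indicator (meas_present a)

theorem le_asum (h : ℝ → ℝ≥0∞) {e : Env} {a : Name} (ha : present e a) :
    h (e.2.2 a) ≤ asum h e := by
  unfold asum
  refine le_trans (le_of_eq ?_) (ENNReal.le_tsum a)
  rw [Set.indicator_of_mem (show e ∈ {e : Env | present e a} from ha)]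

theorem ae_size (hκ : ∀ k, IsProbabilityMeasure (κ k)) {B : Set ℝ} (hB : MeasurableSet B)
    (h : nu c κ B = 0) : ∀ᵐ e ∂(envLaw c κ), ∀ a, present e a → e.2.2 a ∉ B := by
  have h1 := campbell (c := c) hκ (h := B.indicator fun _ => (1 : ℝ≥0∞))
    (measurable_const.indicator hB)
  have h2 : ∫⁻ u, B.indicator (fun _ => (1 : ℝ≥0∞)) u
      ∂(Measure.sum fun k => (c k : ℝ≥0∞) • κ k) = 0 := by
    rw [lintegral_indicator_const hB, one_mul]; exact h
  rw [h2] at h1
  have h3 := (lintegral_eq_zero_iff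
    (measurable_asum (h := B.indicator fun _ => (1 : ℝ≥0∞)) (measurable_const.indicator hB))).1 h1
  filter_upwards [h3] with e he a ha hmem
  have h4 := le_asum (B.indicator fun _ => (1 : ℝ≥0∞)) ha
  have h5 : asum (B.indicator fun _ => (1 : ℝ≥0∞)) e = 0 := he
  rw [h5, Set.indicator_of_mem hmem] at h4
  simp at h4

theorem nu_supp (hs : ∀ k, κ k (Set.Ioc 0 1)ᶜ = 0) : nu c κ (Set.Ioc 0 1)ᶜ = 0 := by
  unfold nu
  rw [Measure.sum_apply _ measurableSet_Ioc.compl]
  simp [hs]

theorem ae_size_mem (h : Hyp c κ) :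
    ∀ᵐ e ∂(envLaw c κ), ∀ a, present e a → 0 < e.2.2 a ∧ e.2.2 a ≤ 1 := by
  filter_upwards [ae_size h.prob measurableSet_Ioc.compl (nu_supp h.supp)] with e he a ha
  have := he a ha
  rw [Set.notMem_compl_iff] at this
  exact this

theorem ae_asum_lt (hκ : ∀ k, IsProbabilityMeasure (κ k)) {f : ℝ → ℝ≥0∞} (hf : Measurable f)
    (hfin : ∫⁻ u, f u ∂(nu c κ) ≠ ∞) : ∀ᵐ e ∂(envLaw c κ), asum f e ≠ ∞ := by
  have h1 := campbell (c := c) hκ hf
  have h2 : ∫⁻ e, asum f e ∂(envLaw c κ) ≠ ∞ := by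
    unfold nu at hfin
    rw [← h1] at hfin
    exact hfin
  filter_upwards [ae_lt_top (measurable_asum hf) h2] with e he using he.ne

theorem ae_sum_lt (h : Hyp c κ) (hfin : ∫⁻ u, ENNReal.ofReal u ∂(nu c κ) ≠ ∞) :
    ∀ᵐ e ∂(envLaw c κ), asum (fun u => ENNReal.ofReal u) e ≠ ∞ :=
  ae_asum_lt h.prob ENNReal.measurable_ofReal hfin

theorem ae_pos (hκ : ∀ k, IsProbabilityMeasure (κ k)) :
    ∀ᵐ e ∂(envLaw c κ), ∀ a : Name, e.2.1 a ≤ 1 := by
  have := hκ
  rw [ae_all_iff]
  intro a
  have h1 : (envLaw c κ).map (fun e : Env => e.2.1 a) = unif := by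
    unfold envLaw
    have e1 : (fun e : Env => e.2.1 a) =
        (fun x : Name → ℝ => x a) ∘ Prod.fst ∘ Prod.snd := rfl
    rw [e1, ← Measure.map_map (measurable_pi_apply a) (measurable_fst.comp measurable_snd),
      ← Measure.map_map measurable_fst measurable_snd, Measure.map_snd_prod, measure_univ,
      one_smul, Measure.map_fst_prod, measure_univ, one_smul, Measure.infinitePi_map_eval]
  have h2 : ∀ᵐ u ∂unif, u ≤ 1 := by
    unfold unif
    filter_upwards [ae_restrict_mem measurableSet_Icc] with u hu using hu.2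
  rw [← h1] at h2
  exact ae_of_ae_map (measurable_pos a).aemeasurable h2

theorem ae_fst (hκ : ∀ k, IsProbabilityMeasure (κ k)) {p : Env → Prop}
    (h : ∀ᵐ e ∂(envLaw c κ), p e) : ∀ᵐ z ∂(windowLaw c κ), p z.1 := by
  have := prob_envLaw (c := c) hκ
  exact Measure.quasiMeasurePreserving_fst.ae h

/-- The probability that an atom of size `u` is relevant for the levels `0, …, x`. -/
theorem rel_le (u : ℝ) (x : ℕ) :
    marks {ξ | Rel (parts u ξ) x} ≤ ((x + 1 : ℕ) : ℝ≥0∞) ^ 2 * ENNReal.ofReal u ^ 2 := by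
  classical
  have hsub : {ξ | Rel (parts u ξ) x} ⊆
      ⋃ p ∈ (Finset.range (x + 1)).offDiag, {ξ : ℕ → ℝ | ξ p.1 < u ∧ ξ p.2 < u} := by
    intro ξ hξ
    have h1 : 1 < (parts u ξ ∩ Set.Iio (x + 1)).ncard := hξ
    rw [Set.one_lt_ncard (below_finite _ _)] at h1
    obtain ⟨i, hi, j, hj, hij⟩ := h1
    simp only [Set.mem_iUnion, Finset.mem_offDiag, Finset.mem_range]
    exact ⟨(i, j), ⟨hi.2, hj.2, hij⟩, hi.1, hj.1⟩
  have hpair : ∀ p ∈ (Finset.range (x + 1)).offDiag,
      marks {ξ : ℕ → ℝ | ξ p.1 < u ∧ ξ p.2 < u} ≤ ENNReal.ofReal u ^ 2 := by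
    intro p hp
    rw [Finset.mem_offDiag] at hp
    have e1 : {ξ : ℕ → ℝ | ξ p.1 < u ∧ ξ p.2 < u} =
        Set.pi (({p.1, p.2} : Finset ℕ) : Set ℕ) (fun _ => Set.Iio u) := by
      ext ξ
      simp
    rw [e1]
    unfold marks
    rw [Measure.infinitePi_pi _ fun _ _ => measurableSet_Iio, Finset.prod_pair hp.2.2, ← sq]
    gcongr
    exact unif_Iio_le u
  calc marks {ξ | Rel (parts u ξ) x}
      ≤ ∑ p ∈ (Finset.range (x + 1)).offDiag, marks {ξ : ℕ → ℝ | ξ p.1 < u ∧ ξ p.2 < u} :=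
        (measure_mono hsub).trans (measure_biUnion_finset_le _ _)
    _ ≤ ∑ _p ∈ (Finset.range (x + 1)).offDiag, ENNReal.ofReal u ^ 2 := Finset.sum_le_sum hpair
    _ = ((Finset.range (x + 1)).offDiag.card : ℝ≥0∞) * ENNReal.ofReal u ^ 2 := by
        rw [Finset.sum_const, nsmul_eq_mul]
    _ ≤ _ := by
        gcongr
        rw [Finset.offDiag_card, Finset.card_range, sq]
        exact_mod_cast Nat.sub_le _ _

theorem ae_finite (h : Hyp c κ) : ∀ᵐ z ∂(windowLaw c κ), ∀ x,
    {a | present z.1 a ∧ Rel (part z a) x}.Finite := by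
  have := prob_envLaw (c := c) h.prob
  rw [ae_all_iff]
  intro x
  have h1 : ∀ a : Name, windowLaw c κ {z | present z.1 a ∧ Rel (part z a) x} ≤
      ∫⁻ e, {e : Env | present e a}.indicator
        (fun e => ((x + 1 : ℕ) : ℝ≥0∞) ^ 2 * ENNReal.ofReal (e.2.2 a) ^ 2) e ∂(envLaw c κ) := by
    intro a
    have hm : MeasurableSet {z : Win | present z.1 a ∧ Rel (part z a) x} :=
      (measurable_fst (meas_present a)).inter (meas_rel a x)
    unfold windowLaw
    rw [Measure.prod_apply hm]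
    refine lintegral_mono fun e => ?_
    by_cases hp : present e a
    · rw [Set.indicator_of_mem (show e ∈ {e : Env | present e a} from hp)]
      refine le_trans ?_ (rel_le (e.2.2 a) x)
      have hr : MeasurableSet {ξ : ℕ → ℝ | Rel (parts (e.2.2 a) ξ) x} := by
        have : Measurable fun ξ : ℕ → ℝ => Rel (parts (e.2.2 a) ξ) x := by
          refine measurable_of_setDep (x + 1) (fun J => Rel J x) ?_
            (fun y => measurableSet_lt (measurable_pi_apply y) measurable_const)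
          intro J J' h
          unfold Rel
          rw [below_congr h]
        exact measurableSet_setOfPred.2 this
      have e2 : (Measure.infinitePi fun _ : Name => marks).map (fun mk => mk a) = marks :=
        Measure.infinitePi_map_eval _ a
      rw [← e2, Measure.map_apply (measurable_pi_apply a) hr, e2]
      refine measure_mono fun mk hmk => hmk.2
    · rw [Set.indicator_of_notMem (show e ∉ {e : Env | present e a} from hp)]
      have : (Prod.mk e ⁻¹' {z : Win | present z.1 a ∧ Rel (part z a) x}) = ∅ := by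
        rw [Set.eq_empty_iff_forall_notMem]
        intro mk hmk
        exact hp hmk.1
      rw [this, measure_empty]
  have h2 : ∑' a : Name, windowLaw c κ {z | present z.1 a ∧ Rel (part z a) x} ≠ ∞ := by
    refine ne_top_of_le_ne_top ?_ (ENNReal.tsum_le_tsum h1)
    have hmeas : Measurable fun u : ℝ => ((x + 1 : ℕ) : ℝ≥0∞) ^ 2 * ENNReal.ofReal u ^ 2 :=
      (ENNReal.measurable_ofReal.pow_const 2).const_mul _
    have h3 := campbell (c := c) h.prob hmeas
    have hm0 : ∀ a : Name, Measurable ({e : Env | present e a}.indicator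
        fun e => ((x + 1 : ℕ) : ℝ≥0∞) ^ 2 * ENNReal.ofReal (e.2.2 a) ^ 2) :=
      fun a => (hmeas.comp (measurable_size a)).indicator (meas_present a)
    rw [lintegral_tsum fun a => (hm0 a).aemeasurable] at h3
    refine ne_of_eq_of_ne h3 ?_
    rw [lintegral_const_mul _ (ENNReal.measurable_ofReal.pow_const 2)]
    exact ENNReal.mul_ne_top (by simp) h.fin
  exact ae_finite_setOfPred_mem h2

/-- For large `K` the atoms of the kinds smaller than `K` determine the map of the window. -/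
theorem ae_look (h : Hyp c κ) : ∀ᵐ z ∂(windowLaw c κ), ∀ x,
    ∃ K₀, ∀ K ≥ K₀, ∀ y ≤ x, look z 1 y = back z (lst z.1 K) y := by
  filter_upwards [ae_finite h, ae_fst h.prob (ae_pos h.prob)] with z h1 h2 x
  exact look_eq_back (fun a _ => h2 a) (h1 x)

/-- The law of the map of a window. -/
noncomputable def BB (c : ℕ → ℝ≥0) (κ : ℕ → Measure ℝ) : Measure (ℕ → ℕ) :=
  (windowLaw c κ).map fun z => look z 1

theorem prob_BB (hκ : ∀ k, IsProbabilityMeasure (κ k)) : IsProbabilityMeasure (BB c κ) := by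
  have := prob_windowLaw (c := c) hκ
  exact Measure.isProbabilityMeasure_map (measurable_look 1).aemeasurable

theorem tendsto_BB (h : Hyp c κ) {f : (ℕ → ℕ) → ℝ≥0∞} (r : ℕ)
    (hf : ∀ g g', (∀ x < r, g x = g' x) → f g = f g') (hf1 : ∀ g, f g ≤ 1) :
    Tendsto (fun K => ∫⁻ e, ∫⁻ b, f b ∂(comps (szs e K)) ∂(envLaw c κ)) atTop
      (𝓝 (∫⁻ b, f b ∂(BB c κ))) := by
  have := prob_windowLaw (c := c) h.prob
  have hm : Measurable f := measurable_of_dep r f hf
  have e1 : ∫⁻ b, f b ∂(BB c κ) = ∫⁻ z, f (look z 1) ∂(windowLaw c κ) :=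
    lintegral_map hm (measurable_look 1)
  rw [e1]
  have e2 : ∀ K, ∫⁻ e, ∫⁻ b, f b ∂(comps (szs e K)) ∂(envLaw c κ) =
      ∫⁻ z, f (back z (lst z.1 K)) ∂(windowLaw c κ) := fun K => (lintegral_blist h.prob K hm).symm
  simp_rw [e2]
  refine tendsto_lintegral_of_dominated_convergence (fun _ => 1)
    (fun K => hm.comp (measurable_blist K)) (fun K => ae_of_all _ fun z => hf1 _) (by simp) ?_
  filter_upwards [ae_look h] with z hz
  obtain ⟨K₀, hK₀⟩ := hz r
  refine tendsto_const_nhds.congr' ?_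
  filter_upwards [eventually_ge_atTop K₀] with K hK
  exact hf _ _ fun x hx => hK₀ K hK x hx.le

end Pool.Agent.Helper97.LD
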