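import Pool.Agent.Helper97.LD.Ineq

/-!
# The random lookdown map of one atom
-/

set_option autoImplicit false

namespace Pool.Agent.Helper97.LD

open MeasureTheory ProbabilityTheory
open scoped ENNReal

/-- In a product space, a coordinate and a function of finitely many other coordinates. -/
theorem map_pair {ι : Type*} {X : ι → Type*} [∀ i, MeasurableSpace (X i)]
    (μ : ∀ i, Measure (X i)) [∀ i, IsProbabilityMeasure (μ i)] (i : ι) (S : Finset ι) (hi : i ∉ S)
    {β γ : Type*} [MeasurableSpace β] [MeasurableSpace γ] {f : X i → β} (hf : Measurable f)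
    {g : (∀ j, X j) → γ} (hg : Measurable g) (hgS : ∀ x y, (∀ j ∈ S, x j = y j) → g x = g y) :
    (Measure.infinitePi μ).map (fun x => (f (x i), g x)) =
      ((μ i).map f).prod ((Measure.infinitePi μ).map g) := by
  classical
  have hne : ∀ j, Nonempty (X j) := fun j => nonempty_of_isProbabilityMeasure (μ j)
  let d : ∀ j, X j := fun j => Classical.choice (hne j)
  let e : (∀ j : S, X j) → ∀ j, X j := fun y j => if h : j ∈ S then y ⟨j, h⟩ else d j
  have he : Measurable e := by
    refine measurable_pi_iff.2 fun j => ?_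
    by_cases h : j ∈ S
    · simp only [e, h, dite_true]; exact measurable_pi_apply _
    · simp only [e, h, dite_false]; exact measurable_const
  have hind : iIndepFun (fun j (x : ∀ j, X j) => x j) (Measure.infinitePi μ) :=
    iIndepFun_infinitePi (X := fun j (x : X j) => x) (fun j => measurable_id)
  have h1 := hind.indepFun_finset {i} S (by simpa using hi) (fun j => measurable_pi_apply j)
  have h2 : IndepFun (fun x : ∀ j, X j => f (x i)) g (Measure.infinitePi μ) := by
    have hf' : Measurable fun y : (∀ j : ({i} : Finset ι), X j) =>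
        f (y ⟨i, Finset.mem_singleton_self i⟩) := hf.comp (measurable_pi_apply _)
    have h3 := h1.comp hf' (hg.comp he)
    have e1 : ((g ∘ e) ∘ fun (a : ∀ j, X j) (j : S) => a j) = g := by
      funext x
      apply hgS
      intro j hj
      simp [e, hj]
    rw [e1] at h3
    exact h3
  have h4 := (indepFun_iff_map_prod_eq_prod_map_map (f := fun x : ∀ j, X j => f (x i))
    (hf.comp (measurable_pi_apply i)).aemeasurable hg.aemeasurable).1 h2
  rw [h4]
  congr 1
  rw [← Measure.infinitePi_map_eval μ i, Measure.map_map hf (measurable_pi_apply i)]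
  rfl

/-- The uniform law on `[0, 1]`. -/
noncomputable def unif : Measure ℝ := volume.restrict (Set.Icc 0 1)

instance : IsProbabilityMeasure unif := ⟨by simp [unif]⟩

theorem unif_Iio {u : ℝ} (h1 : u ≤ 1) : unif (Set.Iio u) = ENNReal.ofReal u := by
  unfold unif
  rw [Measure.restrict_apply measurableSet_Iio]
  have : Set.Iio u ∩ Set.Icc 0 1 = Set.Ico 0 u := by
    ext x
    simp only [Set.mem_inter_iff, Set.mem_Iio, Set.mem_Icc, Set.mem_Ico]
    constructor
    · rintro ⟨h2, h3, h4⟩; exact ⟨h3, h2⟩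
    · rintro ⟨h2, h3⟩; exact ⟨h3, h2, by linarith⟩
  rw [this, Real.volume_Ico, sub_zero]

theorem unif_Ici {u : ℝ} (h0 : 0 ≤ u) : unif (Set.Ici u) = ENNReal.ofReal (1 - u) := by
  unfold unif
  rw [Measure.restrict_apply measurableSet_Ici]
  have : Set.Ici u ∩ Set.Icc 0 1 = Set.Icc u 1 := by
    ext x
    simp only [Set.mem_inter_iff, Set.mem_Ici, Set.mem_Icc]
    constructor
    · rintro ⟨h2, h3, h4⟩; exact ⟨h2, h4⟩
    · rintro ⟨h2, h3⟩; exact ⟨h2, by linarith, h3⟩
  rw [this, Real.volume_Icc]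

theorem shiftDown_congr {J J' : Set ℕ} {x : ℕ} (h : ∀ y ≤ x, y ∈ J ↔ y ∈ J') :
    shiftDown J x = shiftDown J' x := by
  classical
  have hb : below J x = below J' x := by
    unfold below
    congr 1
    ext y
    simp only [Set.mem_inter_iff, Set.mem_Iio]
    exact and_congr_left fun hy => h y hy.le
  unfold shiftDown
  by_cases hx : x ∈ J
  · have hx' : x ∈ J' := (h x le_rfl).1 hx
    rw [if_pos hx, if_pos hx']
    apply le_antisymm
    · apply Nat.sInf_le
      have h1 := Nat.sInf_mem ⟨x, hx'⟩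
      exact (h _ (Nat.sInf_le hx')).2 h1
    · apply Nat.sInf_le
      have h1 := Nat.sInf_mem ⟨x, hx⟩
      exact (h _ (Nat.sInf_le hx)).1 h1
  · have hx' : x ∉ J' := fun h' => hx ((h x le_rfl).2 h')
    rw [if_neg hx, if_neg hx', hb]

theorem measurable_shiftDown {α : Type*} [MeasurableSpace α] {J : α → Set ℕ}
    (h : ∀ y, MeasurableSet {a | y ∈ J a}) : Measurable fun a => shiftDown (J a) := by
  refine measurable_pi_iff.2 fun x => ?_
  let c : α → (Fin (x + 1) → Prop) := fun a y => (y : ℕ) ∈ J a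
  let G : (Fin (x + 1) → Prop) → ℕ := fun c => shiftDown {y | ∃ h : y < x + 1, c ⟨y, h⟩} x
  have hc : Measurable c := measurable_pi_iff.2 fun y => measurableSet_setOfPred.1 (h y)
  have e : (fun a => shiftDown (J a) x) = G ∘ c := by
    funext a
    refine shiftDown_congr fun y hy => ?_
    simp only [c, Set.mem_ofPred_eq]
    exact ⟨fun h => ⟨by omega, h⟩, fun ⟨_, h⟩ => h⟩
  rw [e]
  exact (measurable_of_countable G).comp hc

/-- The levels that participate in an atom of size `u`, for the marks `ξ`. -/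
def parts (u : ℝ) (ξ : ℕ → ℝ) : Set ℕ := {x | ξ x < u}

theorem measurable_parts (u : ℝ) : Measurable fun ξ : ℕ → ℝ => shiftDown (parts u ξ) :=
  measurable_shiftDown fun y => measurableSet_lt (measurable_pi_apply y) measurable_const

/-- Independent uniform marks of all levels. -/
noncomputable def marks : Measure (ℕ → ℝ) := Measure.infinitePi fun _ => unif

instance : IsProbabilityMeasure marks := by unfold marks; infer_instance

/-- The law of the random lookdown map of one atom of size `u`. -/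
noncomputable def atom (u : ℝ) : Measure (ℕ → ℕ) := marks.map fun ξ => shiftDown (parts u ξ)

instance (u : ℝ) : IsProbabilityMeasure (atom u) :=
  Measure.isProbabilityMeasure_map (measurable_parts u).aemeasurable

theorem nice_atom (u : ℝ) : Nice (atom u) where
  seg := by
    unfold atom
    rw [ae_map_iff (measurable_parts u).aemeasurable measurableSet_seg]
    exact ae_of_all _ fun ξ => shiftDown_seg _
  ex := by
    intro r i h0 hi P hP
    have h1 : MeasurableSet {g | P g} :=
      measurableSet_of_dep r P fun g g' hg => hP g g' (kEq_of_eq hg)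
    have h2 : MeasurableSet {g | P (g ∘ i)} := (measurable_comp_right i) h1
    -- an injection which agrees with `i` on the first `r` levels
    obtain ⟨M, hM⟩ : ∃ M, ∀ x < r, i x < M := by
      refine ⟨(Finset.range r).sup i + 1, fun x hx => ?_⟩
      have := Finset.le_sup (f := i) (Finset.mem_range.2 hx)
      omega
    let i' : ℕ → ℕ := fun x => if x < r then i x else x + M
    have hinj : Function.Injective i' := by
      intro x y e
      simp only [i'] at e
      split_ifs at e with hx hy hy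
      · exact hi hx hy e
      · have := hM x hx; omega
      · have := hM y hy; omega
      · omega
    have hmap : marks.map (fun ξ x => ξ (i' x)) = marks :=
      Measure.map_infinitePi_infinitePi_of_inj hinj
    have hT : Measurable fun (ξ : ℕ → ℝ) (x : ℕ) => ξ (i' x) :=
      measurable_pi_iff.2 fun x => measurable_pi_apply _
    unfold atom
    rw [Measure.map_apply (measurable_parts u) h1, Measure.map_apply (measurable_parts u) h2]
    conv_rhs => rw [← hmap]
    rw [Measure.map_apply hT ((measurable_parts u) h1)]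
    congr 1
    ext ξ
    simp only [Set.mem_preimage, Set.mem_ofPred_eq]
    have hk : KEq r (shiftDown (parts u ξ) ∘ i) (shiftDown (parts u fun x => ξ (i' x))) := by
      intro x hx y hy
      simp only [Function.comp_apply, shiftDown_eq_iff, parts, Set.mem_ofPred_eq, i', if_pos hx,
        if_pos hy]
      constructor
      · rintro (e | e)
        · exact Or.inl (hi hx hy e)
        · exact Or.inr e
      · rintro (e | e)
        · exact Or.inl (by rw [e])
        · exact Or.inr e
    exact ⟨hP _ _ hk, hP _ _ hk.symm⟩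

open Classical in
theorem marks_cyl {u : ℝ} (h0 : 0 ≤ u) (h1 : u ≤ 1) (r : ℕ) (A : Set ℕ) :
    marks {ξ | ∀ j < r, (j ∈ parts u ξ ↔ j ∈ A)} =
      ∏ j ∈ Finset.range r, (if j ∈ A then ENNReal.ofReal u else ENNReal.ofReal (1 - u)) := by
  have e : {ξ : ℕ → ℝ | ∀ j < r, (j ∈ parts u ξ ↔ j ∈ A)} =
      Set.pi (Finset.range r : Set ℕ) (fun j => if j ∈ A then Set.Iio u else Set.Ici u) := by
    ext ξ
    simp only [Set.mem_ofPred_eq, Set.mem_pi, Finset.coe_range, Set.mem_Iio, parts]
    refine forall₂_congr fun j hj => ?_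
    split_ifs with hA
    · simp [hA]
    · simp [hA]
  rw [e]
  unfold marks
  rw [Measure.infinitePi_pi]
  · refine Finset.prod_congr rfl fun j _ => ?_
    split_ifs
    · exact unif_Iio h1
    · exact unif_Ici h0
  · intro j _
    split_ifs
    · exact measurableSet_Iio
    · exact measurableSet_Ici

/-! ### Inverse moment -/

theorem nb_congr {g g' : ℕ → ℕ} {m : ℕ} (h : ∀ x < m, g x = g' x) : nb g m = nb g' m := by
  unfold nb
  refine Finset.sup_congr rfl fun y hy => ?_
  rw [h y (Finset.mem_range.1 hy)]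

theorem measurable_nb (m : ℕ) : Measurable fun g : ℕ → ℕ => nb g m :=
  measurable_of_dep m _ fun _ _ h => nb_congr h

theorem measurable_inv_nb (m : ℕ) : Measurable fun g : ℕ → ℕ => ((nb g m : ℕ) : ℝ≥0∞)⁻¹ :=
  (measurable_of_dep m _ fun g g' h => by rw [nb_congr h])

theorem atom_inv {u : ℝ} (h0 : 0 ≤ u) (m : ℕ) :
    m * (ENNReal.ofReal (1 - u) * ∫⁻ b, ((nb b m : ℕ) : ℝ≥0∞)⁻¹ ∂(atom u)) ≤ 1 := by
  classical
  refine le_trans ?_ (new_ineq (nice_atom u).ex m)
  gcongr
  have hm1 : Measurable fun ξ : ℕ → ℝ => ((nb (shiftDown (parts u ξ)) m : ℕ) : ℝ≥0∞)⁻¹ :=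
    (measurable_inv_nb m).comp (measurable_parts u)
  have hpair := map_pair (fun _ : ℕ => unif) m (Finset.range m) (by simp)
    (f := (Set.Ici u).indicator fun _ => (1 : ℝ≥0∞))
    (measurable_const.indicator measurableSet_Ici) hm1 (by
      intro x y h
      congr 2
      refine nb_congr fun z hz => shiftDown_congr fun w hw => ?_
      simp only [parts, Set.mem_ofPred_eq]
      rw [h w (Finset.mem_range.2 (by omega))])
  have e1 : ENNReal.ofReal (1 - u) * ∫⁻ b, ((nb b m : ℕ) : ℝ≥0∞)⁻¹ ∂(atom u) =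
      ∫⁻ ξ, (Set.Ici u).indicator (fun _ => (1 : ℝ≥0∞)) (ξ m) *
        ((nb (shiftDown (parts u ξ)) m : ℕ) : ℝ≥0∞)⁻¹ ∂marks := by
    have hmul : Measurable fun p : ℝ≥0∞ × ℝ≥0∞ => p.1 * p.2 := measurable_fst.mul measurable_snd
    have hi : Measurable ((Set.Ici u).indicator fun _ => (1 : ℝ≥0∞)) :=
      measurable_const.indicator measurableSet_Ici
    have hp : Measurable fun ξ : ℕ → ℝ => ((Set.Ici u).indicator (fun _ => (1 : ℝ≥0∞)) (ξ m),
        ((nb (shiftDown (parts u ξ)) m : ℕ) : ℝ≥0∞)⁻¹) :=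
      (hi.comp (measurable_pi_apply m)).prodMk hm1
    have h2 : ∫⁻ ξ, (Set.Ici u).indicator (fun _ => (1 : ℝ≥0∞)) (ξ m) *
        ((nb (shiftDown (parts u ξ)) m : ℕ) : ℝ≥0∞)⁻¹ ∂marks =
        ∫⁻ p, p.1 * p.2 ∂(marks.map fun ξ : ℕ → ℝ =>
          ((Set.Ici u).indicator (fun _ => (1 : ℝ≥0∞)) (ξ m),
            ((nb (shiftDown (parts u ξ)) m : ℕ) : ℝ≥0∞)⁻¹)) := by
      rw [lintegral_map hmul hp]
    rw [h2]
    have h3 := hpair
    unfold marks
    rw [h3]
    have : IsProbabilityMeasure (Measure.map (fun ξ : ℕ → ℝ =>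
      ((nb (shiftDown (parts u ξ)) m : ℕ) : ℝ≥0∞)⁻¹) (Measure.infinitePi fun _ : ℕ => unif)) :=
      Measure.isProbabilityMeasure_map hm1.aemeasurable
    have : IsProbabilityMeasure (Measure.map ((Set.Ici u).indicator fun _ => (1 : ℝ≥0∞)) unif) :=
      Measure.isProbabilityMeasure_map hi.aemeasurable
    rw [lintegral_prod_mul (f := fun a : ℝ≥0∞ => a) (g := fun a : ℝ≥0∞ => a)
      measurable_id.aemeasurable measurable_id.aemeasurable,
      lintegral_map (f := fun a : ℝ≥0∞ => a) measurable_id hi,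
      lintegral_map (f := fun a : ℝ≥0∞ => a) measurable_id hm1]
    congr 1
    · rw [lintegral_indicator_const measurableSet_Ici, one_mul, unif_Ici h0]
    · unfold atom
      rw [lintegral_map (measurable_inv_nb m) (measurable_parts u)]
      rfl
  rw [e1]
  unfold atom
  rw [lintegral_map (measurable_ff m) (measurable_parts u)]
  refine lintegral_mono fun ξ => ?_
  rw [ff_seg (shiftDown_seg _)]
  by_cases h : u ≤ ξ m
  · rw [Set.indicator_of_mem (show ξ m ∈ Set.Ici u from h), one_mul, if_pos]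
    rw [new_shiftDown]
    left
    simp only [parts, Set.mem_ofPred_eq, not_lt]
    exact h
  · rw [Set.indicator_of_notMem (show ξ m ∉ Set.Ici u from h), zero_mul]
    exact zero_le

/-! ### Failures at one atom -/

theorem meas_fst2 (x y : ℕ) : MeasurableSet {g : ℕ → ℕ | Fst2 g x y} := by
  refine measurableSet_of_dep (x + y + 1) _ ?_
  rintro g g' hg ⟨h1, h2, h3, h4⟩
  refine ⟨h1, ?_, ?_, fun j hj hjx => ?_⟩
  · rw [← hg x (by omega), ← hg 0 (by omega)]; exact h2
  · rw [← hg y (by omega), ← hg 0 (by omega)]; exact h3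
  · rw [← hg j (by omega), ← hg 0 (by omega)]; exact h4 j hj hjx

theorem meas_fail : MeasurableSet {p : (ℕ → ℕ) × (ℕ → ℕ) | Fail p.1 p.2} := by
  have : {p : (ℕ → ℕ) × (ℕ → ℕ) | Fail p.1 p.2} =
      ⋃ x, ⋃ y, ({p : (ℕ → ℕ) × (ℕ → ℕ) | Fst2 (p.1 ∘ p.2) x y} ∩ {p | p.2 x = p.2 y}) := by
    ext p; simp [Fail]
  rw [this]
  refine MeasurableSet.iUnion fun x => MeasurableSet.iUnion fun y => ?_
  refine (measurable_comp (meas_fst2 x y)).inter ?_
  exact measurableSet_eq_fun ((measurable_pi_apply x).comp measurable_snd)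
    ((measurable_pi_apply y).comp measurable_snd)

/-- The mass of the failures. -/
noncomputable def failMass (S C : Measure (ℕ → ℕ)) : ℝ≥0∞ := ∫⁻ g, C {b | Fail g b} ∂S

theorem failMass_comp {S C D : Measure (ℕ → ℕ)} [SFinite S] [SFinite C] [SFinite D]
    (hC : ∀ᵐ b ∂D, Seg b) (hD1 : IsProbabilityMeasure D) :
    failMass S (cmp C D) ≤ failMass S C + failMass (cmp S C) D := by
  unfold failMass
  have hm : Measurable fun g : ℕ → ℕ => D {b | Fail g b} := measurable_measure_prodMk_left meas_fail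
  have hm' : Measurable fun g : ℕ → ℕ => C {b | Fail g b} := measurable_measure_prodMk_left meas_fail
  rw [lintegral_cmp _ _ hm, ← lintegral_add_left hm']
  refine lintegral_mono fun g => ?_
  have hg : MeasurableSet {b : ℕ → ℕ | Fail g b} := measurable_prodMk_left meas_fail
  rw [cmp_apply' _ _ hg]
  have h1 : ∀ b₁, D {b₂ | b₁ ∘ b₂ ∈ {b | Fail g b}} ≤
      {b | Fail g b}.indicator (fun _ => (1 : ℝ≥0∞)) b₁ + D {b₂ | Fail (g ∘ b₁) b₂} := by
    intro b₁
    by_cases h : Fail g b₁
    · rw [Set.indicator_of_mem (show b₁ ∈ {b | Fail g b} from h)]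
      exact prob_le_one.trans le_self_add
    · rw [Set.indicator_of_notMem (show b₁ ∉ {b | Fail g b} from h), zero_add]
      apply measure_mono_ae
      filter_upwards [hC] with b₂ hb₂ hf
      rcases fail_comp hb₂ hf with h2 | h2
      · exact absurd h2 h
      · exact h2
  refine (lintegral_mono h1).trans ?_
  rw [lintegral_add_left (measurable_const.indicator hg), lintegral_indicator_const hg, one_mul]

theorem atom_fail {u : ℝ} (h0 : 0 ≤ u) (h1 : u ≤ 1) (g : ℕ → ℕ) :
    atom u {b | Fail g b} ≤ ∑' m : ℕ, ∑ i ∈ Finset.Icc 1 m,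
      {g : ℕ → ℕ | ∀ j ≤ m, (g j ≠ g 0 ↔ j = i)}.indicator
        (fun _ => ENNReal.ofReal u ^ 2 * ENNReal.ofReal (1 - u) ^ m) g := by
  classical
  have hg : MeasurableSet {b : ℕ → ℕ | Fail g b} := measurable_prodMk_left meas_fail
  unfold atom
  rw [Measure.map_apply (measurable_parts u) hg]
  have hsub : (fun ξ => shiftDown (parts u ξ)) ⁻¹' {b | Fail g b} ⊆
      ⋃ m : ℕ, ⋃ i ∈ Finset.Icc 1 m, {ξ | (∀ j ≤ m, (g j ≠ g 0 ↔ j = i)) ∧
        ∀ j < m + 2, (j ∈ parts u ξ ↔ j ∈ ({i, m + 1} : Set ℕ))} := by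
    intro ξ hξ
    obtain ⟨m, i, h2, h3, h4, h5⟩ := fail_shiftDown hξ
    simp only [Set.mem_iUnion]
    refine ⟨m, i, Finset.mem_Icc.2 ⟨h2, h3⟩, h5, fun j hj => ?_⟩
    rw [h4 j (by omega)]
    simp
  refine (measure_mono hsub).trans ((measure_iUnion_le _).trans ?_)
  refine ENNReal.tsum_le_tsum fun m => (measure_biUnion_finset_le _ _).trans ?_
  refine Finset.sum_le_sum fun i hi => ?_
  rw [Finset.mem_Icc] at hi
  by_cases h : ∀ j ≤ m, (g j ≠ g 0 ↔ j = i)
  · rw [Set.indicator_of_mem (show g ∈ {g : ℕ → ℕ | ∀ j ≤ m, (g j ≠ g 0 ↔ j = i)} from h)]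
    refine (measure_mono (t := {ξ | ∀ j < m + 2, (j ∈ parts u ξ ↔ j ∈ ({i, m + 1} : Set ℕ))})
      (fun ξ hξ => hξ.2)).trans ?_
    rw [marks_cyl h0 h1]
    apply le_of_eq
    refine (Finset.prod_congr rfl fun j _ => ?_).trans
      ((Finset.prod_ite (s := Finset.range (m + 2)) (p := fun j => j ∈ ({i, m + 1} : Set ℕ))
      (fun _ => ENNReal.ofReal u) (fun _ => ENNReal.ofReal (1 - u))).trans ?_)
    · by_cases hj : j ∈ ({i, m + 1} : Set ℕ)
      · rw [if_pos hj, if_pos hj]
      · rw [if_neg hj, if_neg hj]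
    rw [Finset.prod_const, Finset.prod_const]
    have e1 : (Finset.range (m + 2)).filter (fun j => j ∈ ({i, m + 1} : Set ℕ)) = {i, m + 1} := by
      ext j
      simp only [Finset.mem_filter, Finset.mem_range, Set.mem_insert_iff, Set.mem_singleton_iff,
        Finset.mem_insert, Finset.mem_singleton]
      omega
    have e2 : ((Finset.range (m + 2)).filter (fun j => j ∈ ({i, m + 1} : Set ℕ))).card = 2 := by
      rw [e1, Finset.card_pair (by omega)]
    have e3 := Finset.card_filter_add_card_filter_not (s := Finset.range (m + 2))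
      (fun j => j ∈ ({i, m + 1} : Set ℕ))
    rw [e2, Finset.card_range] at e3
    have e4 : ((Finset.range (m + 2)).filter (fun j => ¬ j ∈ ({i, m + 1} : Set ℕ))).card = m := by
      omega
    rw [e2, e4]
  · have : {ξ : ℕ → ℝ | (∀ j ≤ m, (g j ≠ g 0 ↔ j = i)) ∧
        ∀ j < m + 2, (j ∈ parts u ξ ↔ j ∈ ({i, m + 1} : Set ℕ))} = ∅ := by
      rw [Set.eq_empty_iff_forall_notMem]
      intro ξ hξ
      exact h hξ.1
    rw [this, measure_empty]
    exact zero_le

theorem atom_failMass {S : Measure (ℕ → ℕ)} {q : ℝ≥0∞} (hS : ExK S) (hT : TB S q)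
    {u : ℝ} (h0 : 0 ≤ u) (h1 : u ≤ 1) :
    q * failMass S (atom u) ≤ ENNReal.ofReal u := by
  classical
  set v := ENNReal.ofReal u with hv
  set w := ENNReal.ofReal (1 - u) with hw
  have hmeas : ∀ m i : ℕ, MeasurableSet {g : ℕ → ℕ | ∀ j ≤ m, (g j ≠ g 0 ↔ j = i)} := by
    intro m i
    refine measurableSet_of_dep (m + 1) _ ?_
    intro g g' hg h j hj
    rw [← hg j (by omega), ← hg 0 (by omega)]
    exact h j hj
  have h2 : failMass S (atom u) ≤ ∑' m : ℕ, (m * dd S m) * (v ^ 2 * w ^ m) := by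
    unfold failMass
    refine (lintegral_mono fun g => atom_fail h0 h1 g).trans ?_
    have hm1 : ∀ m : ℕ, ∀ i ∈ Finset.Icc 1 m, Measurable
        ({g : ℕ → ℕ | ∀ j ≤ m, (g j ≠ g 0 ↔ j = i)}.indicator
          (fun _ => v ^ 2 * w ^ m)) := fun m i _ => measurable_const.indicator (hmeas m i)
    rw [lintegral_tsum fun m => (Finset.measurable_fun_sum _ (hm1 m)).aemeasurable]
    refine ENNReal.tsum_le_tsum fun m => ?_
    rw [lintegral_finsetSum _ (hm1 m)]
    have : ∀ i ∈ Finset.Icc 1 m, ∫⁻ g, {g : ℕ → ℕ | ∀ j ≤ m, (g j ≠ g 0 ↔ j = i)}.indicator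
          (fun _ => v ^ 2 * w ^ m) g ∂S = dd S m * (v ^ 2 * w ^ m) := by
      intro i hi
      rw [Finset.mem_Icc] at hi
      rw [lintegral_indicator_const (hmeas m i), single_rest hS hi.1 hi.2, mul_comm]
    rw [Finset.sum_congr rfl this]
    simp [mul_assoc]
  rcases h0.eq_or_lt with hu | hu
  · have hv0 : v = 0 := by rw [hv, ← hu]; simp
    have : failMass S (atom u) ≤ 0 := by
      refine h2.trans (le_of_eq ?_)
      simp [hv0]
    rw [le_antisymm this zero_le]; simp
  calc q * failMass S (atom u) ≤ q * ∑' m : ℕ, (m * dd S m) * (v ^ 2 * w ^ m) := by gcongr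
    _ = ∑' m : ℕ, (m * q * dd S m) * (v ^ 2 * w ^ m) := by
        rw [← ENNReal.tsum_mul_left]
        refine tsum_congr fun m => by ring
    _ ≤ ∑' m : ℕ, 1 * (v ^ 2 * w ^ m) := by
        refine ENNReal.tsum_le_tsum fun m => ?_
        gcongr
        rcases Nat.eq_zero_or_pos m with hm | hm
        · subst hm; simp
        · exact hT m hm
    _ = v ^ 2 * (1 - w)⁻¹ := by
        simp only [one_mul]
        rw [ENNReal.tsum_mul_left, ENNReal.tsum_geometric]
    _ = v := by
        have hw' : 1 - w = v := by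
          rw [hw, hv, ← ENNReal.ofReal_one, ← ENNReal.ofReal_sub _ (by linarith)]
          congr 1; ring
        rw [hw', sq, mul_assoc, ENNReal.mul_inv_cancel (by simp [hv, hu]) (by simp [hv]), mul_one]

/-! ### Patterns -/

/-- `x < y` are the first two levels outside the block of `0`, and their ancestors differ. -/
def Pat (x y : ℕ) (b : ℕ → ℕ) : Prop := Fst2 b x y ∧ b x ≠ b y

theorem meas_pat (x y : ℕ) : MeasurableSet {b : ℕ → ℕ | Pat x y b} := by
  refine (meas_fst2 x y).inter ?_
  exact (measurableSet_eq_fun (measurable_pi_apply x) (measurable_pi_apply y)).compl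

theorem meas_idOn (y : ℕ) : MeasurableSet {b : ℕ → ℕ | ∀ j ≤ y, b j = j} := by
  refine measurableSet_of_dep (y + 1) _ ?_
  intro g g' hg h j hj
  rw [← hg j (by omega)]; exact h j hj

theorem atom_id {u : ℝ} (h0 : 0 ≤ u) (h1 : u ≤ 1) (y : ℕ) :
    ENNReal.ofReal (1 - u) ^ (y + 1) ≤ atom u {b | ∀ j ≤ y, b j = j} := by
  classical
  unfold atom
  rw [Measure.map_apply (measurable_parts u) (meas_idOn y)]
  have h2 := marks_cyl h0 h1 (y + 1) ∅
  simp only [Set.mem_empty_iff_false, if_false, Finset.prod_const, Finset.card_range] at h2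
  rw [← h2]
  refine measure_mono ?_
  intro ξ hξ j hj
  have hb : below (parts u ξ) (j + 1) = 0 := by
    rw [below_eq_zero]
    intro p hp hpJ
    exact (hξ p (by omega)).1 hpJ
  exact shiftDown_of_not_rel (x := j) (by omega) le_rfl

theorem atom_pat {u : ℝ} (h0 : 0 ≤ u) (h1 : u ≤ 1) {x y : ℕ} (hx : 1 ≤ x) (hxy : x < y) :
    (ENNReal.ofReal u * ENNReal.ofReal (1 - u)) ^ (y + 1) ≤ atom u {b | Pat x y b} := by
  classical
  unfold atom
  rw [Measure.map_apply (measurable_parts u) (meas_pat x y)]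
  have h2 := marks_cyl h0 h1 (y + 1) {j | j ≠ x ∧ j ≠ y}
  have hu1 : ENNReal.ofReal u ≤ 1 := by simpa using h1
  have hw1 : ENNReal.ofReal (1 - u) ≤ 1 := by simpa using h0
  have h3 : (ENNReal.ofReal u * ENNReal.ofReal (1 - u)) ^ (y + 1) ≤
      marks {ξ | ∀ j < y + 1, (j ∈ parts u ξ ↔ j ∈ {j | j ≠ x ∧ j ≠ y})} := by
    rw [h2]
    have : (ENNReal.ofReal u * ENNReal.ofReal (1 - u)) ^ (y + 1) =
        ∏ _j ∈ Finset.range (y + 1), (ENNReal.ofReal u * ENNReal.ofReal (1 - u)) := by
      rw [Finset.prod_const, Finset.card_range]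
    rw [this]
    refine Finset.prod_le_prod' fun j _ => ?_
    split_ifs
    · calc ENNReal.ofReal u * ENNReal.ofReal (1 - u) ≤ ENNReal.ofReal u * 1 := by gcongr
        _ = _ := mul_one _
    · calc ENNReal.ofReal u * ENNReal.ofReal (1 - u) ≤ 1 * ENNReal.ofReal (1 - u) := by gcongr
        _ = _ := one_mul _
  refine h3.trans (measure_mono ?_)
  intro ξ hξ
  simp only [Set.mem_ofPred_eq] at hξ
  have e0 : (0 : ℕ) ∈ parts u ξ := (hξ 0 (by omega)).2 ⟨by omega, by omega⟩
  have ex : x ∉ parts u ξ := fun h => ((hξ x (by omega)).1 h).1 rfl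
  have ey : y ∉ parts u ξ := fun h => ((hξ y (by omega)).1 h).2 rfl
  show Pat x y (shiftDown (parts u ξ))
  refine ⟨⟨hxy, ?_, ?_, ?_⟩, ?_⟩
  · rw [Ne, shiftDown_eq_iff]; push Not; exact ⟨by omega, fun h => absurd h ex⟩
  · rw [Ne, shiftDown_eq_iff]; push Not; exact ⟨by omega, fun h => absurd h ey⟩
  · intro j hj hjx
    rw [shiftDown_eq_iff]
    exact Or.inr ⟨(hξ j (by omega)).2 ⟨hjx, by omega⟩, e0⟩
  · rw [Ne, shiftDown_eq_iff]; push Not; exact ⟨by omega, fun h => absurd h ex⟩

end Pool.Agent.Helper97.LD
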