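import Pool.Agent.Helper97.LD.Atom
import Pool.Agent.R946.LF.Lam

/-!
# The lookdown representation of the Lambda Fleming-Viot process

The jump measure `ν(du) = u⁻² Λ(du)` is a finite or infinite measure on `(0, 1]`, written in the
form `ν = ∑ₖ c k • κ k` with numbers `c k ≥ 0` and probability measures `κ k` on `(0, 1]`
(any sigma-finite measure can be written in this way).  The Poisson point process with
intensity `dt ⊗ ν` is built in the usual way: for every kind `k` and every unit time window
`(i, i + 1]` there is a Poisson number of atoms with mean `c k`, placed at independent uniform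
positions, with independent sizes of law `κ k`; each atom carries independent uniform marks of
the levels `0, 1, 2, …`, and a level participates in the atom if its mark is smaller than the
size.  Levels are numbered `0, 1, 2, …` (level `i` of the problem is level `i - 1` here).
-/

set_option autoImplicit false

namespace Pool.Agent.Helper97.LD

open MeasureTheory ProbabilityTheory Filter
open scoped ENNReal NNReal Topology

/-- Names of the possible atoms of a unit time window: (kind, number). -/
abbrev Name : Type := ℕ × ℕ

/-- The atoms of a unit time window: the number of the atoms of every kind, the positions of the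
atoms in the window, the sizes of the atoms. -/
abbrev Env : Type := (ℕ → ℕ) × (Name → ℝ) × (Name → ℝ)

/-- One unit time window: the atoms and the marks of the levels at the atoms. -/
abbrev Win : Type := Env × (Name → ℕ → ℝ)

/-- The atom is present. -/
def present (e : Env) (a : Name) : Prop := a.2 < e.1 a.1

/-- The atom `a` happens before the atom `b` (simultaneous atoms, which almost surely do not
exist, are ordered by their names). -/
def before (e : Env) (a b : Name) : Prop :=
  e.2.1 a < e.2.1 b ∨ (e.2.1 a = e.2.1 b ∧ Encodable.encode a < Encodable.encode b)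

/-- The levels that participate in the atom `a`: those whose mark is smaller than the size. -/
def part (z : Win) (a : Name) : Set ℕ := {x | z.2 a x < z.1.2.2 a}

/-- At least two of the levels `0, …, x` participate; the other atoms do not change the types
of the levels `0, …, x`. -/
def Rel (J : Set ℕ) (x : ℕ) : Prop := 2 ≤ below J (x + 1)

/-- `l` lists, in the order of time, all the atoms of the window up to the position `s` which
are relevant for the levels `0, …, x`. -/
def IsHist (z : Win) (s : ℝ) (x : ℕ) (l : List Name) : Prop :=
  l.Pairwise (before z.1) ∧ ∀ a, a ∈ l ↔ (present z.1 a ∧ z.1.2.1 a ≤ s ∧ Rel (part z a) x)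

/-- Looking down from level `x` through all the atoms of the list, the last one first. -/
noncomputable def back (z : Win) (l : List Name) (x : ℕ) : ℕ :=
  l.foldr (fun a y => shiftDown (part z a) y) x

open Classical in
/-- The level at the beginning of the window from which level `x` at position `s` of the window
descends (the alternative `x` has probability zero). -/
noncomputable def look (z : Win) (s : ℝ) (x : ℕ) : ℕ :=
  if h : ∃ l, IsHist z s x l then back z h.choose x else x

/-- The level at time `0` from which level `x` at time `n` descends. -/
noncomputable def ancN (w : ℕ → Win) : ℕ → ℕ → ℕ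
  | 0, x => x
  | n + 1, x => ancN w n (look (w n) 1 x)

/-- The number of the window `(i, i + 1]` which contains the time `t > 0`. -/
noncomputable def win (t : ℝ) : ℕ := ⌈t⌉₊ - 1

/-- The level at time `0` from which level `x` at time `t` descends. -/
noncomputable def anc (w : ℕ → Win) (t : ℝ) (x : ℕ) : ℕ :=
  ancN w (win t) (look (w (win t)) (t - win t) x)

open Classical in
/-- The number of the levels `x < n` whose type at time `t` is `e`, where level `y` has the
type `U y` at time `0`. -/
noncomputable def cnt (w : ℕ → Win) (U : ℕ → ℝ) (t : ℝ) (e : ℝ) (n : ℕ) : ℕ :=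
  ((Finset.range n).filter fun x => U (anc w t x) = e).card

/-- The mass `ρ_t({e})` of the type `e` at time `t`: the upper limit of the frequencies of the
type `e` among the first `n` levels. -/
noncomputable def mass (w : ℕ → Win) (U : ℕ → ℝ) (t : ℝ) (e : ℝ) : ℝ :=
  limsup (fun n : ℕ => (cnt w U t e n : ℝ) / n) atTop

/-- There is an infinite sequence of Eves: distinct types `e 0, e 1, …` in `[0, 1]` such that, for
every `i`, `ρ_t({e i}) / ρ_t([0, 1] ∖ {e 0, …, e (i - 1)}) → 1` as `t → ∞`. -/
def HasEves (w : ℕ → Win) (U : ℕ → ℝ) : Prop :=
  ∃ e : ℕ → ℝ, Function.Injective e ∧ (∀ i, e i ∈ Set.Icc (0 : ℝ) 1) ∧ ∀ i,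
    Tendsto (fun t : ℝ => mass w U t (e i) / (1 - ∑ j ∈ Finset.range i, mass w U t (e j))) atTop
      (𝓝 1)

/-- The law of the atoms of a unit time window. -/
noncomputable def envLaw (c : ℕ → ℝ≥0) (κ : ℕ → Measure ℝ) : Measure Env :=
  (Measure.infinitePi fun k => poissonMeasure (c k)).prod
    ((Measure.infinitePi fun _ : Name => unif).prod (Measure.infinitePi fun a : Name => κ a.1))

/-- The law of a unit time window. -/
noncomputable def windowLaw (c : ℕ → ℝ≥0) (κ : ℕ → Measure ℝ) : Measure Win :=
  (envLaw c κ).prod (Measure.infinitePi fun _ : Name => marks)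

/-- The law of the driving noise (the windows) and of the initial types, which are independent
and uniform on `[0, 1]`. -/
noncomputable def fvLaw (c : ℕ → ℝ≥0) (κ : ℕ → Measure ℝ) : Measure ((ℕ → Win) × (ℕ → ℝ)) :=
  (Measure.infinitePi fun _ : ℕ => windowLaw c κ).prod (Measure.infinitePi fun _ : ℕ => unif)

/-- The jump measure `ν(du) = u⁻² Λ(du)` is `∑ₖ c k • κ k`, with probability measures `κ k` on
`(0, 1]`. -/
structure Splits (L : Measure ℝ) (c : ℕ → ℝ≥0) (κ : ℕ → Measure ℝ) : Prop where
  prob : ∀ k, IsProbabilityMeasure (κ k)
  supp : ∀ k, κ k (Set.Ioc 0 1)ᶜ = 0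
  eq : Pool.Agent.R946.LF.nuOf L = Measure.sum fun k => (c k : ℝ≥0∞) • κ k

end Pool.Agent.Helper97.LD
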