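import Pool.Agent.Helper97.LD.Process

/-!
# The remaining cases, and the existence of the decomposition of the jump measure
-/

set_option autoImplicit false

namespace Pool.Agent.Helper97.LD

open MeasureTheory ProbabilityTheory Filter
open scoped ENNReal NNReal Topology

variable {c : ℕ → ℝ≥0} {κ : ℕ → Measure ℝ}

/-! ### Atoms of size `1` -/

theorem back_full {z : Win} {a : Name} (ha : part z a = Set.univ) {l : List Name} (hl : a ∈ l)
    (x : ℕ) : back z l x = 0 := by
  induction l with
  | nil => simp at hl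
  | cons b l ih =>
    rw [back_cons]
    rcases List.mem_cons.1 hl with h | h
    · subst h
      rw [ha]
      unfold shiftDown
      rw [if_pos (Set.mem_univ _)]
      exact Nat.sInf_eq_zero.2 (Or.inl (Set.mem_univ _))
    · rw [ih h]
      exact (shiftDown_seg _).zero

theorem below_univ (x : ℕ) : below Set.univ x = x := by
  unfold below
  rw [Set.univ_inter, ← Finset.coe_Iio, Set.ncard_coe_finset, Nat.card_Iio]

theorem look_full {z : Win} {a : Name} (hp : present z.1 a) (hpos : z.1.2.1 a ≤ 1)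
    (ha : part z a = Set.univ) {x : ℕ} (hx : ∃ l, IsHist z 1 x l) : look z 1 x = 0 := by
  obtain ⟨l, hl⟩ := hx
  rw [look_eq hl]
  rcases Nat.eq_zero_or_pos x with h0 | h0
  · subst h0
    exact (back_seg z l).zero
  · refine back_full ha ((hl.2 a).2 ⟨hp, hpos, ?_⟩) x
    unfold Rel
    rw [ha, below_univ]
    omega

theorem ancN_full {w : ℕ → Win} (h : ∀ x, look (w 0) 1 x = 0) {n : ℕ} (hn : 1 ≤ n) :
    ∀ x, ancN w n x = 0 := by
  induction n, hn using Nat.le_induction with
  | base => intro x; exact h x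
  | succ n hn ih => intro x; exact ih _

theorem not_eves_full {w : ℕ → Win} {U : ℕ → ℝ} (h : ∀ n, 1 ≤ n → ∀ x, ancN w n x = 0) :
    ¬ HasEves w U := by
  classical
  rintro ⟨e, he, _, hlim⟩
  have hcast : Tendsto (fun n : ℕ => (n : ℝ)) atTop atTop := tendsto_natCast_atTop_atTop
  have h0 : Tendsto (fun n : ℕ => mass w U n (e 0)) atTop (𝓝 1) := by
    have := (hlim 0).comp hcast
    simpa [Function.comp_def] using this
  have h1 : Tendsto (fun n : ℕ => mass w U n (e 1) / (1 - mass w U n (e 0))) atTop (𝓝 1) := by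
    have := (hlim 1).comp hcast
    simpa [Function.comp_def] using this
  have hz : ∀ n : ℕ, 1 ≤ n → ∀ e' : ℝ, e' ≠ U 0 → mass w U n e' = 0 := by
    intro n hn e' hne
    refine mass_eq hn ?_
    have : ∀ N : ℕ, (tc (ancN w n) U e' N : ℝ) / N = 0 := by
      intro N
      have : tc (ancN w n) U e' N = 0 := by
        unfold tc
        rw [Finset.card_eq_zero, Finset.filter_eq_empty_iff]
        intro x _
        rw [h n hn x]
        exact hne.symm
      rw [this]; simp
    simp only [this]
    exact tendsto_const_nhds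
  have he0 : e 0 = U 0 := by
    by_contra hne
    have h2 : Tendsto (fun n : ℕ => mass w U n (e 0)) atTop (𝓝 0) := by
      refine tendsto_const_nhds.congr' ?_
      filter_upwards [eventually_ge_atTop 1] with n hn
      rw [hz n hn _ hne]
    have := tendsto_nhds_unique h0 h2
    norm_num at this
  have he1 : e 1 ≠ U 0 := by
    rw [← he0]
    exact fun h => absurd (he h) (by omega)
  have h2 : Tendsto (fun n : ℕ => mass w U n (e 1) / (1 - mass w U n (e 0))) atTop (𝓝 0) := by
    refine tendsto_const_nhds.congr' ?_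
    filter_upwards [eventually_ge_atTop 1] with n hn
    rw [hz n hn _ he1, zero_div]
  have := tendsto_nhds_unique h1 h2
  norm_num at this

theorem ae_marks (hκ : ∀ k, IsProbabilityMeasure (κ k)) :
    ∀ᵐ z ∂(windowLaw c κ), ∀ (a : Name) (x : ℕ), z.2 a x < 1 := by
  have := prob_envLaw (c := c) hκ
  have h1 : ∀ᵐ mk ∂(Measure.infinitePi fun _ : Name => marks), ∀ (a : Name) (x : ℕ), mk a x < 1 := by
    rw [ae_all_iff]; intro a
    rw [ae_all_iff]; intro x
    have h2 : ∀ᵐ u ∂unif, u < 1 := by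
      rw [ae_iff]
      have : {u : ℝ | ¬ u < 1} = Set.Ici 1 := by ext u; simp
      rw [this, unif_Ici (by norm_num)]
      simp
    have h3 : ∀ᵐ ξ ∂marks, ξ x < 1 := by
      have e1 : marks.map (fun ξ => ξ x) = unif := Measure.infinitePi_map_eval _ x
      rw [← e1] at h2
      exact ae_of_ae_map (measurable_pi_apply x).aemeasurable h2
    have e2 : (Measure.infinitePi fun _ : Name => marks).map (fun mk => mk a) = marks :=
      Measure.infinitePi_map_eval _ a
    rw [← e2] at h3
    exact ae_of_ae_map (measurable_pi_apply a).aemeasurable h3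
  exact Measure.quasiMeasurePreserving_snd.ae h1

/-- All histories exist. -/
theorem ae_hist (h : Hyp c κ) : ∀ᵐ z ∂(windowLaw c κ), ∀ (s : ℝ) (x : ℕ), ∃ l, IsHist z s x l := by
  filter_upwards [ae_finite h] with z hz s x
  exact exists_hist (hz x)

theorem ae_path (hκ : ∀ k, IsProbabilityMeasure (κ k)) {p : Win → Prop} (n : ℕ)
    (h : ∀ᵐ z ∂(windowLaw c κ), p z) : ∀ᵐ w ∂(pathLaw c κ), p (w n) := by
  have := prob_windowLaw (c := c) hκ
  have e1 : (pathLaw c κ).map (fun w => w n) = windowLaw c κ := Measure.infinitePi_map_eval _ n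
  rw [← e1] at h
  exact ae_of_ae_map (measurable_pi_apply n).aemeasurable h

/-- The event that there is an atom of size `1`. -/
def FullAt (e : Env) : Prop := ∃ a, present e a ∧ e.2.2 a = 1

theorem meas_fullAt : MeasurableSet {e : Env | FullAt e} := by
  have : {e : Env | FullAt e} = ⋃ a, ({e : Env | present e a} ∩ {e : Env | e.2.2 a = 1}) := by
    ext e; simp [FullAt]
  rw [this]
  exact MeasurableSet.iUnion fun a =>
    (meas_present a).inter ((measurable_size a) (measurableSet_singleton 1))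

theorem no_eves_full (h : Hyp c κ) (h1 : nu c κ {1} ≠ 0) :
    ¬ ∀ᵐ ω ∂(fvLaw c κ), HasEves ω.1 ω.2 := by
  intro hE
  have := prob_windowLaw (c := c) h.prob
  have := prob_pathLaw (c := c) h.prob
  have := prob_envLaw (c := c) h.prob
  apply h1
  -- almost surely there is no full atom in the first window
  have h2 : ∀ᵐ w ∂(pathLaw c κ), (∀ x, ∃ l, IsHist (w 0) 1 x l) ∧
      (∀ (a : Name) (x : ℕ), (w 0).2 a x < 1) ∧ ∀ a : Name, (w 0).1.2.1 a ≤ 1 := by
    filter_upwards [ae_path h.prob 0 (ae_hist h), ae_path h.prob 0 (ae_marks h.prob),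
      ae_path h.prob 0 (ae_fst h.prob (ae_pos h.prob))] with w b1 b2 b3
    exact ⟨fun x => b1 1 x, b2, b3⟩
  have h3 : ∀ᵐ ω ∂(fvLaw c κ), ¬ FullAt (ω.1 0).1 := by
    filter_upwards [hE, ae_prod h.prob h2 ae_types_inj] with ω c1 c2
    rintro ⟨a, ha, ha'⟩
    refine not_eves_full (fun n hn => ancN_full (fun x => ?_) hn) c1
    refine look_full ha (c2.1.2.2 a) ?_ (c2.1.1 x)
    ext x
    simp only [part, Set.mem_ofPred_eq, Set.mem_univ, iff_true, ha']
    exact c2.1.2.1 a x
  have h4 : ∀ᵐ w ∂(pathLaw c κ), ¬ FullAt (w 0).1 := by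
    have e1 : (fvLaw c κ).map Prod.fst = pathLaw c κ := by
      have : fvLaw c κ = (pathLaw c κ).prod typeLaw := rfl
      rw [this, Measure.map_fst_prod, measure_univ, one_smul]
    have hm : MeasurableSet {w : ℕ → Win | ¬ FullAt (w 0).1} :=
      ((measurable_fst.comp (measurable_pi_apply 0)) meas_fullAt).compl
    rw [← e1, ae_map_iff measurable_fst.aemeasurable hm]
    exact h3
  have h5 : ∀ᵐ e ∂(envLaw c κ), ¬ FullAt e := by
    have e1 : (pathLaw c κ).map (fun w => (w 0).1) = envLaw c κ := by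
      have e2 : (fun w : ℕ → Win => (w 0).1) = Prod.fst ∘ fun w : ℕ → Win => w 0 := rfl
      rw [e2, ← Measure.map_map measurable_fst (measurable_pi_apply 0)]
      have e3 : (pathLaw c κ).map (fun w => w 0) = windowLaw c κ := Measure.infinitePi_map_eval _ 0
      rw [e3]
      unfold windowLaw
      rw [Measure.map_fst_prod, measure_univ, one_smul]
    have hm1 : Measurable fun w : ℕ → Win => (w 0).1 := measurable_fst.comp (measurable_pi_apply 0)
    have hmc : MeasurableSet {e : Env | ¬ FullAt e} := meas_fullAt.compl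
    rw [← e1, ae_map_iff hm1.aemeasurable hmc]
    exact h4
  have h6 := campbell (c := c) h.prob (h := ({1} : Set ℝ).indicator fun _ => (1 : ℝ≥0∞))
    (measurable_const.indicator (measurableSet_singleton 1))
  rw [lintegral_indicator_const (measurableSet_singleton 1), one_mul] at h6
  have e0 : nu c κ {1} = (Measure.sum fun k => (c k : ℝ≥0∞) • κ k) {1} := rfl
  rw [e0, ← h6]
  refine (lintegral_congr_ae ?_).trans lintegral_zero
  filter_upwards [h5] with e he
  rw [ENNReal.tsum_eq_zero]
  intro a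
  by_cases hp : present e a
  · rw [Set.indicator_of_mem (show e ∈ {e : Env | present e a} from hp), Set.indicator_of_notMem]
    intro hmem
    exact he ⟨a, hp, hmem⟩
  · rw [Set.indicator_of_notMem (show e ∉ {e : Env | present e a} from hp)]

/-! ### The hypotheses from the regime -/

open Pool.Agent.R946.LF in
theorem lintegral_nuOf (L : Measure ℝ) {f : ℝ → ℝ≥0∞} (hf : Measurable f) :
    ∫⁻ u, f u ∂(nuOf L) = ∫⁻ u, ENNReal.ofReal ((u ^ 2)⁻¹) * f u ∂L := by
  unfold nuOf
  rw [lintegral_withDensity_eq_lintegral_mul _ (by fun_prop) hf]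
  rfl

open Pool.Agent.R946.LF in
theorem hyp_of_splits {L : Measure ℝ} (hL : DustRegime L) (h : Splits L c κ) :
    Hyp c κ ∧ ∫⁻ u, ENNReal.ofReal u ∂(nu c κ) ≠ ∞ ∧ nu c κ ≠ 0 := by
  obtain ⟨_, h2, h3, h4, h5⟩ := hL
  have e1 : nu c κ = nuOf L := h.eq.symm
  have hfin : ∫⁻ u, ENNReal.ofReal u ∂(nu c κ) ≠ ∞ := by
    rw [e1, lintegral_nuOf L ENNReal.measurable_ofReal]
    refine ne_of_lt (lt_of_le_of_lt (lintegral_mono fun u => ?_) h4)
    rw [← ENNReal.ofReal_mul (by positivity)]
    refine ENNReal.ofReal_le_ofReal (le_of_eq ?_)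
    by_cases hu : u = 0
    · simp [hu]
    · field_simp
  refine ⟨⟨h.prob, h.supp, ?_⟩, hfin, ?_⟩
  · refine ne_top_of_le_ne_top hfin ?_
    refine lintegral_mono_ae ?_
    have h4 : ∀ᵐ u ∂(nu c κ), u ∈ Set.Ioc (0 : ℝ) 1 := by
      rw [ae_iff]; exact nu_supp h.supp
    filter_upwards [h4] with u hu
    have h5 : ENNReal.ofReal u ≤ 1 := by simpa using hu.2
    calc ENNReal.ofReal u ^ 2 = ENNReal.ofReal u * ENNReal.ofReal u := sq _
      _ ≤ ENNReal.ofReal u * 1 := by gcongr
      _ = ENNReal.ofReal u := mul_one _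
  · rw [e1]
    intro h0
    have h6 : ∫⁻ _, 1 ∂(nuOf L) = ∞ := by
      rw [lintegral_nuOf L measurable_const]
      simpa using h5
    rw [h0] at h6
    simp at h6

open Pool.Agent.R946.LF in
open Classical in
theorem exists_splits {L : Measure ℝ} (hL : DustRegime L) :
    ∃ (c : ℕ → ℝ≥0) (κ : ℕ → Measure ℝ), Splits L c κ := by
  obtain ⟨h1, h2, h3, h4, h5⟩ := hL
  let I : ℕ → Set ℝ := fun k => Set.Ioc (1 / ((k : ℝ) + 2)) (1 / ((k : ℝ) + 1))
  have hIm : ∀ k, MeasurableSet (I k) := fun k => measurableSet_Ioc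
  have hI01 : ∀ k, I k ⊆ Set.Ioc 0 1 := by
    intro k u hu
    refine ⟨lt_trans (by positivity) hu.1, hu.2.trans ?_⟩
    rw [div_le_one (by positivity)]
    have : (0 : ℝ) ≤ k := Nat.cast_nonneg k
    linarith
  have hU : ⋃ k, I k = Set.Ioc 0 1 := by
    apply Set.Subset.antisymm (Set.iUnion_subset hI01)
    intro u hu
    -- choose `k` with `1 / (k + 2) < u ≤ 1 / (k + 1)`
    have hu0 : 0 < u := hu.1
    have hinv : 1 ≤ u⁻¹ := (one_le_inv₀ hu0).2 hu.2
    set m := ⌊u⁻¹⌋₊ with hm
    have hm1 : 1 ≤ m := Nat.le_floor (by simpa using hinv)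
    obtain ⟨k, hk⟩ : ∃ k, m = k + 1 := ⟨m - 1, by omega⟩
    rw [Set.mem_iUnion]
    refine ⟨k, ?_, ?_⟩
    · have h6 := Nat.lt_floor_add_one u⁻¹
      rw [← hm, hk] at h6
      push_cast at h6
      rw [one_div]
      have h7 : u⁻¹ < (k : ℝ) + 2 := by linarith
      exact inv_lt_of_inv_lt₀ hu0 h7
    · have h6 := Nat.floor_le (show 0 ≤ u⁻¹ by positivity)
      rw [← hm, hk] at h6
      push_cast at h6
      rw [one_div]
      exact (le_inv_comm₀ hu0 (by positivity)).2 h6
  have hdisj : Pairwise (Function.onFun Disjoint I) := by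
    have key : ∀ i j : ℕ, i < j → Disjoint (I i) (I j) := by
      intro i j hij
      rw [Set.disjoint_left]
      rintro u ⟨h6, _⟩ ⟨_, h7⟩
      have h8 : 1 / ((j : ℝ) + 1) ≤ 1 / ((i : ℝ) + 2) := by
        apply one_div_le_one_div_of_le (by positivity)
        have : (i : ℝ) + 1 ≤ j := by exact_mod_cast hij
        linarith
      linarith
    intro i j hij
    rcases lt_or_gt_of_ne hij with h | h
    · exact key i j h
    · exact (key j i h).symm
  have hfin : ∀ k, nuOf L (I k) ≠ ∞ := by
    intro k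
    unfold nuOf
    rw [withDensity_apply _ (hIm k)]
    have h6 : ∫⁻ u in I k, ENNReal.ofReal ((u ^ 2)⁻¹) ∂L ≤
        ∫⁻ _ in I k, ENNReal.ofReal (((k : ℝ) + 2) ^ 2) ∂L := by
      refine setLIntegral_mono measurable_const fun u hu => ENNReal.ofReal_le_ofReal ?_
      have hu0 : 0 < u := (hI01 k hu).1
      have h7 : u⁻¹ ≤ (k : ℝ) + 2 := by
        have := hu.1
        rw [one_div] at this
        exact (inv_lt_of_inv_lt₀ (by positivity) this).le
      rw [← inv_pow]
      exact pow_le_pow_left₀ (by positivity) h7 2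
    refine ne_top_of_le_ne_top ?_ h6
    rw [lintegral_const]
    exact ENNReal.mul_ne_top ENNReal.ofReal_ne_top (measure_ne_top _ _)
  have hsupp : nuOf L (Set.Ioc 0 1)ᶜ = 0 := by
    have h6 : (Set.Ioc (0 : ℝ) 1)ᶜ ⊆ (Set.Icc 0 1)ᶜ ∪ {0} := by
      intro u hu
      by_cases h0 : u = 0
      · exact Or.inr h0
      · left
        intro h'
        exact hu ⟨lt_of_le_of_ne h'.1 (Ne.symm h0), h'.2⟩
    have h7 : L (Set.Ioc (0 : ℝ) 1)ᶜ = 0 :=
      measure_mono_null h6 (measure_union_null h2 h3)
    unfold nuOf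
    exact withDensity_absolutelyContinuous _ _ h7
  refine ⟨fun k => (nuOf L (I k)).toNNReal,
    fun k => if nuOf L (I k) = 0 then Measure.dirac 1 else
      (nuOf L (I k))⁻¹ • (nuOf L).restrict (I k), ?_, ?_, ?_⟩
  · intro k
    split_ifs with h0
    · infer_instance
    · refine ⟨?_⟩
      rw [Measure.smul_apply, Measure.restrict_apply_univ, smul_eq_mul,
        ENNReal.inv_mul_cancel h0 (hfin k)]
  · intro k
    split_ifs with h0
    · rw [Measure.dirac_apply' _ measurableSet_Ioc.compl, Set.indicator_of_notMem]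
      simp
    · rw [Measure.smul_apply, Measure.restrict_apply measurableSet_Ioc.compl]
      have : (Set.Ioc (0 : ℝ) 1)ᶜ ∩ I k = ∅ := by
        rw [Set.eq_empty_iff_forall_notMem]
        rintro u ⟨h6, h7⟩
        exact h6 (hI01 k h7)
      rw [this, measure_empty, smul_zero]
  · have e1 : ∀ k, (((nuOf L (I k)).toNNReal : ℝ≥0) : ℝ≥0∞) •
        (if nuOf L (I k) = 0 then Measure.dirac 1 else
          (nuOf L (I k))⁻¹ • (nuOf L).restrict (I k)) = (nuOf L).restrict (I k) := by
      intro k
      rw [ENNReal.coe_toNNReal (hfin k)]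
      split_ifs with h0
      · rw [h0, zero_smul]
        exact (Measure.restrict_eq_zero.2 h0).symm
      · rw [smul_smul, ENNReal.mul_inv_cancel h0 (hfin k), one_smul]
    rw [funext e1, ← Measure.restrict_iUnion hdisj hIm, hU]
    exact (Measure.restrict_eq_self_of_ae_mem (by rw [ae_iff]; exact hsupp)).symm

end Pool.Agent.Helper97.LD
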