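import Pool.Agent.Helper97.LD.Pairs

/-!
# Existence of the frequencies of the blocks
-/

set_option autoImplicit false

namespace Pool.Agent.Helper97.LD

open MeasureTheory ProbabilityTheory Filter
open scoped ENNReal Topology

section Abstract

variable {Ω : Type*} [MeasurableSpace Ω] {P : Measure Ω} [IsProbabilityMeasure P]

/-- The indicator function of an event, as a real number. -/
noncomputable def ind (B : Set Ω) (ω : Ω) : ℝ := B.indicator (fun _ => (1 : ℝ)) ω

omit [MeasurableSpace Ω] in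
theorem ind_nonneg (B : Set Ω) (ω : Ω) : 0 ≤ ind B ω := by
  unfold ind
  exact Set.indicator_nonneg (fun _ _ => zero_le_one) _

omit [MeasurableSpace Ω] in
theorem ind_mul (A B : Set Ω) (ω : Ω) : ind A ω * ind B ω = ind (A ∩ B) ω := by
  unfold ind
  by_cases h1 : ω ∈ A <;> by_cases h2 : ω ∈ B <;> simp [h1, h2]

theorem measurable_ind {B : Set Ω} (h : MeasurableSet B) : Measurable (ind B) :=
  measurable_const.indicator h

theorem integrable_ind {B : Set Ω} (h : MeasurableSet B) : Integrable (ind B) P :=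
  (integrable_const (1 : ℝ)).indicator h

omit [IsProbabilityMeasure P] in
theorem integral_ind {B : Set Ω} (h : MeasurableSet B) : ∫ ω, ind B ω ∂P = P.real B := by
  unfold ind
  rw [integral_indicator_const _ h]
  simp

theorem second_moment {B : ℕ → Set Ω} (hB : ∀ j, MeasurableSet (B j)) {p₁ p₂ : ℝ}
    (h1 : ∀ j, P.real (B j) = p₁) (h2 : ∀ j k, j ≠ k → P.real (B j ∩ B k) = p₂) (w : ℕ → ℝ)
    (s : Finset ℕ) :
    ∫ ω, (∑ j ∈ s, w j * ind (B j) ω) ^ 2 ∂P =
      (p₁ - p₂) * ∑ j ∈ s, w j ^ 2 + p₂ * (∑ j ∈ s, w j) ^ 2 := by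
  have e1 : ∀ ω, (∑ j ∈ s, w j * ind (B j) ω) ^ 2 =
      ∑ j ∈ s, ∑ k ∈ s, w j * w k * ind (B j ∩ B k) ω := by
    intro ω
    rw [sq, Finset.sum_mul_sum]
    refine Finset.sum_congr rfl fun j _ => Finset.sum_congr rfl fun k _ => ?_
    rw [← ind_mul]; ring
  simp_rw [e1]
  have hint : ∀ j k : ℕ, Integrable (fun ω => w j * w k * ind (B j ∩ B k) ω) P :=
    fun j k => (integrable_ind ((hB j).inter (hB k))).const_mul _
  rw [integral_finsetSum _ fun j _ => integrable_finsetSum _ fun k _ => hint j k]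
  have e2 : ∀ j ∈ s, ∫ ω, ∑ k ∈ s, w j * w k * ind (B j ∩ B k) ω ∂P =
      ∑ k ∈ s, w j * w k * (if j = k then p₁ else p₂) := by
    intro j _
    rw [integral_finsetSum _ fun k _ => hint j k]
    refine Finset.sum_congr rfl fun k _ => ?_
    rw [integral_const_mul, integral_ind ((hB j).inter (hB k))]
    split_ifs with h
    · subst h; rw [Set.inter_self, h1]
    · rw [h2 j k h]
  rw [Finset.sum_congr rfl e2]
  have e3 : ∀ j ∈ s, ∑ k ∈ s, w j * w k * (if j = k then p₁ else p₂) =
      (p₁ - p₂) * w j ^ 2 + p₂ * (w j * ∑ k ∈ s, w k) := by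
    intro j hj
    have : ∀ k ∈ s, w j * w k * (if j = k then p₁ else p₂) =
        (if j = k then w j * w k * (p₁ - p₂) else 0) + p₂ * (w j * w k) := by
      intro k _
      split_ifs <;> ring
    rw [Finset.sum_congr rfl this, Finset.sum_add_distrib, Finset.sum_ite_eq, if_pos hj,
      ← Finset.mul_sum, ← Finset.mul_sum]
    ring
  rw [Finset.sum_congr rfl e3, Finset.sum_add_distrib, ← Finset.mul_sum, ← Finset.mul_sum,
    ← Finset.sum_mul]
  ring

omit [MeasurableSpace Ω] in
theorem ind_le_one (B : Set Ω) (ω : Ω) : ind B ω ≤ 1 := by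
  unfold ind
  by_cases h : ω ∈ B <;> simp [h]

theorem avg_diff {B : ℕ → Set Ω} (hB : ∀ j, MeasurableSet (B j)) {p₁ p₂ : ℝ}
    (h1 : ∀ j, P.real (B j) = p₁) (h2 : ∀ j k, j ≠ k → P.real (B j ∩ B k) = p₂)
    {n m : ℕ} (hn : 1 ≤ n) (hnm : n ≤ m) :
    ∫ ω, ((∑ j ∈ Finset.range n, ind (B j) ω) / n - (∑ j ∈ Finset.range m, ind (B j) ω) / m) ^ 2 ∂P
      ≤ 1 / n - 1 / m := by
  have hn0 : (0 : ℝ) < n := by exact_mod_cast hn
  have hm0 : (0 : ℝ) < m := by exact_mod_cast (hn.trans hnm)
  have hnm' : (n : ℝ) ≤ m := by exact_mod_cast hnm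
  let w : ℕ → ℝ := fun j => (if j < n then 1 / (n : ℝ) else 0) - 1 / m
  have e1 : ∀ ω, (∑ j ∈ Finset.range n, ind (B j) ω) / n -
      (∑ j ∈ Finset.range m, ind (B j) ω) / m = ∑ j ∈ Finset.range m, w j * ind (B j) ω := by
    intro ω
    have : ∑ j ∈ Finset.range m, w j * ind (B j) ω =
        ∑ j ∈ Finset.range m, (if j < n then 1 / (n : ℝ) * ind (B j) ω else 0) -
          ∑ j ∈ Finset.range m, 1 / (m : ℝ) * ind (B j) ω := by
      rw [← Finset.sum_sub_distrib]
      refine Finset.sum_congr rfl fun j _ => ?_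
      simp only [w]
      split_ifs <;> ring
    rw [this, ← Finset.sum_filter, ← Finset.mul_sum, ← Finset.mul_sum]
    have : (Finset.range m).filter (fun j => j < n) = Finset.range n := by
      ext j; simp only [Finset.mem_filter, Finset.mem_range]; omega
    rw [this]; ring
  have e2 : ∑ j ∈ Finset.range m, w j = 0 := by
    simp only [w]
    rw [Finset.sum_sub_distrib, ← Finset.sum_filter]
    have : (Finset.range m).filter (fun j => j < n) = Finset.range n := by
      ext j; simp only [Finset.mem_filter, Finset.mem_range]; omega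
    rw [this]
    simp only [Finset.sum_const, Finset.card_range, nsmul_eq_mul]
    field_simp
    ring
  have e3 : ∑ j ∈ Finset.range m, w j ^ 2 = 1 / n - 1 / m := by
    have : ∀ j ∈ Finset.range m, w j ^ 2 =
        (if j < n then (1 / (n : ℝ)) ^ 2 - 2 * (1 / n) * (1 / m) else 0) + (1 / (m : ℝ)) ^ 2 := by
      intro j _
      simp only [w]
      split_ifs <;> ring
    rw [Finset.sum_congr rfl this, Finset.sum_add_distrib, ← Finset.sum_filter]
    have : (Finset.range m).filter (fun j => j < n) = Finset.range n := by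
      ext j; simp only [Finset.mem_filter, Finset.mem_range]; omega
    rw [this]
    simp only [Finset.sum_const, Finset.card_range, nsmul_eq_mul]
    field_simp
    ring
  simp_rw [e1]
  rw [second_moment hB h1 h2, e2, e3]
  have hp1 : p₁ ≤ 1 := by rw [← h1 0]; exact measureReal_le_one
  have hp2 : 0 ≤ p₂ := by rw [← h2 0 1 (by omega)]; exact measureReal_nonneg
  have h3 : (0 : ℝ) ≤ 1 / n - 1 / m := by
    rw [sub_nonneg]; exact one_div_le_one_div_of_le hn0 hnm'
  nlinarith

theorem avg_converges {B : ℕ → Set Ω} (hB : ∀ j, MeasurableSet (B j)) {p₁ p₂ : ℝ}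
    (h1 : ∀ j, P.real (B j) = p₁) (h2 : ∀ j k, j ≠ k → P.real (B j ∩ B k) = p₂) :
    ∀ᵐ ω ∂P, ∃ L : ℝ, Tendsto (fun n : ℕ => (∑ j ∈ Finset.range n, ind (B j) ω) / n) atTop
      (𝓝 L) := by
  let S : ℕ → Ω → ℝ := fun n ω => ∑ j ∈ Finset.range n, ind (B j) ω
  have hSm : ∀ n, Measurable (S n) := fun n =>
    Finset.measurable_fun_sum _ fun j _ => measurable_ind (hB j)
  have hS0 : ∀ n ω, 0 ≤ S n ω := fun n ω => Finset.sum_nonneg fun j _ => ind_nonneg _ _
  have hSn : ∀ n ω, S n ω ≤ n := by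
    intro n ω
    calc S n ω ≤ ∑ j ∈ Finset.range n, (1 : ℝ) := Finset.sum_le_sum fun j _ => ind_le_one _ _
      _ = n := by simp
  let a : ℕ → ℕ := fun k => (k + 1) ^ 4
  let X : ℕ → Ω → ℝ := fun k ω => S (a k) ω / (a k : ℝ)
  have hXm : ∀ k, Measurable (X k) := fun k => (hSm _).div_const _
  have ha1 : ∀ k, 1 ≤ a k := fun k => Nat.one_le_pow _ _ (by omega)
  have hX01 : ∀ k ω, 0 ≤ X k ω ∧ X k ω ≤ 1 := by
    intro k ω
    have h3 : (0 : ℝ) < a k := by exact_mod_cast ha1 k
    exact ⟨div_nonneg (hS0 _ _) h3.le, (div_le_one h3).2 (hSn _ _)⟩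
  have hXi : ∀ k, Integrable (fun ω => (X k ω - X (k + 1) ω) ^ 2) P := by
    intro k
    refine Integrable.of_bound (((hXm k).sub (hXm (k + 1))).pow_const 2).aestronglyMeasurable 1
      (ae_of_all _ fun ω => ?_)
    rw [Real.norm_eq_abs, abs_of_nonneg (sq_nonneg _)]
    have h3 := hX01 k ω
    have h4 := hX01 (k + 1) ω
    nlinarith
  have hXi' : ∀ k, Integrable (fun ω => |X k ω - X (k + 1) ω|) P := by
    intro k
    refine Integrable.of_bound ((hXm k).sub (hXm (k + 1))).abs.aestronglyMeasurable 1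
      (ae_of_all _ fun ω => ?_)
    rw [Real.norm_eq_abs, abs_abs]
    have h3 := hX01 k ω
    have h4 := hX01 (k + 1) ω
    rw [abs_le]; constructor <;> linarith
  have hbound : ∀ k, ∫ ω, |X k ω - X (k + 1) ω| ∂P ≤ 8 * (1 / ((k : ℝ) + 1) ^ 2) := by
    intro k
    have hk : (0 : ℝ) < (k : ℝ) + 1 := by positivity
    have h3 : ∫ ω, |X k ω - X (k + 1) ω| ∂P ≤
        ∫ ω, (1 / ((k : ℝ) + 1) ^ 2 + ((k : ℝ) + 1) ^ 2 * (X k ω - X (k + 1) ω) ^ 2) ∂P := by
      refine integral_mono (hXi' k) ((integrable_const _).add ((hXi k).const_mul _)) fun ω => ?_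
      simp only
      set x := X k ω - X (k + 1) ω
      have h4 : 0 ≤ (1 / ((k : ℝ) + 1) - ((k : ℝ) + 1) * |x|) ^ 2 := sq_nonneg _
      have h5 : (1 / ((k : ℝ) + 1) - ((k : ℝ) + 1) * |x|) ^ 2 =
          1 / ((k : ℝ) + 1) ^ 2 + ((k : ℝ) + 1) ^ 2 * x ^ 2 - 2 * |x| := by
        rw [sub_sq, mul_pow, sq_abs]
        field_simp
        ring
      have h6 : 0 ≤ |x| := abs_nonneg x
      linarith
    refine h3.trans ?_
    rw [integral_add (integrable_const _) ((hXi k).const_mul _), integral_const,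
      integral_const_mul]
    simp only [probReal_univ, smul_eq_mul, one_mul]
    have h4 := avg_diff (P := P) hB h1 h2 (ha1 k)
      (show a k ≤ a (k + 1) from Nat.pow_le_pow_left (by omega) 4)
    have h5 : (1 : ℝ) / (a k : ℕ) - 1 / (a (k + 1) : ℕ) ≤ 4 / ((k : ℝ) + 1) ^ 5 := by
      simp only [a]
      push_cast
      rw [div_sub_div _ _ (by positivity) (by positivity), div_le_div_iff₀ (by positivity)
        (by positivity)]
      have : 0 ≤ (k : ℝ) := Nat.cast_nonneg k
      nlinarith [pow_nonneg this 2, pow_nonneg this 3, pow_nonneg this 4, pow_nonneg this 5,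
        pow_nonneg this 6, pow_nonneg this 7, pow_nonneg this 8]
    have h6 : ((k : ℝ) + 1) ^ 2 * ∫ ω, (X k ω - X (k + 1) ω) ^ 2 ∂P ≤
        ((k : ℝ) + 1) ^ 2 * (4 / ((k : ℝ) + 1) ^ 5) :=
      mul_le_mul_of_nonneg_left (h4.trans h5) (by positivity)
    have h7 : ((k : ℝ) + 1) ^ 2 * (4 / ((k : ℝ) + 1) ^ 5) ≤ 4 * (1 / ((k : ℝ) + 1) ^ 2) := by
      have h8 : ((k : ℝ) + 1) ^ 2 * (4 / ((k : ℝ) + 1) ^ 5) = 4 / ((k : ℝ) + 1) ^ 3 := by
        field_simp
      rw [h8, mul_one_div]
      apply div_le_div_of_nonneg_left (by norm_num) (by positivity)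
      have : 0 ≤ (k : ℝ) := Nat.cast_nonneg k
      nlinarith [pow_nonneg this 2, pow_nonneg this 3]
    have h8 : (0 : ℝ) ≤ 1 / ((k : ℝ) + 1) ^ 2 := by positivity
    linarith
  have hsumm : Summable fun k : ℕ => 8 * (1 / ((k : ℝ) + 1) ^ 2) := by
    apply Summable.mul_left
    have := (summable_nat_add_iff 1).2 (Real.summable_one_div_nat_pow.2 (show 1 < 2 by norm_num))
    refine this.congr fun k => ?_
    push_cast; rfl
  have hae : ∀ᵐ ω ∂P, Summable fun k => |X k ω - X (k + 1) ω| := by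
    have hDm : ∀ k, Measurable fun ω => ENNReal.ofReal |X k ω - X (k + 1) ω| :=
      fun k => ((hXm k).sub (hXm (k + 1))).abs.ennreal_ofReal
    have h3 : ∫⁻ ω, ∑' k, ENNReal.ofReal |X k ω - X (k + 1) ω| ∂P ≠ ∞ := by
      rw [lintegral_tsum fun k => (hDm k).aemeasurable]
      have h4 : ∀ k, ∫⁻ ω, ENNReal.ofReal |X k ω - X (k + 1) ω| ∂P ≤
          ENNReal.ofReal (8 * (1 / ((k : ℝ) + 1) ^ 2)) := by
        intro k
        rw [← ofReal_integral_eq_lintegral_ofReal (hXi' k) (ae_of_all _ fun ω => abs_nonneg _)]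
        exact ENNReal.ofReal_le_ofReal (hbound k)
      refine ne_top_of_le_ne_top ?_ (ENNReal.tsum_le_tsum h4)
      exact hsumm.tsum_ofReal_ne_top
    have h5 := ae_lt_top (Measurable.ennreal_tsum hDm) h3
    filter_upwards [h5] with ω hω
    have h6 := ENNReal.summable_toReal hω.ne
    refine h6.congr fun k => ?_
    rw [ENNReal.toReal_ofReal (abs_nonneg _)]
  filter_upwards [hae] with ω hω
  have hc : CauchySeq fun k => X k ω := by
    refine cauchySeq_of_summable_dist ?_
    refine hω.congr fun k => ?_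
    rw [Real.dist_eq]
  obtain ⟨L, hL⟩ := cauchySeq_tendsto_of_complete hc
  refine ⟨L, ?_⟩
  refine tendsto_div_of_monotone_of_exists_subseq_tendsto_div (fun n => S n ω) L ?_ ?_
  · refine monotone_nat_of_le_succ fun n => ?_
    simp only [S, Finset.sum_range_succ]
    linarith [ind_nonneg (B n) ω]
  · intro c hc1
    refine ⟨a, ?_, ?_, hL⟩
    · -- the quotients tend to `1`
      have h3 : Tendsto (fun n : ℕ => (1 + 1 / ((n : ℝ) + 1)) ^ 4) atTop (𝓝 1) := by
        have h4 : Tendsto (fun n : ℕ => 1 / ((n : ℝ) + 1)) atTop (𝓝 0) :=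
          tendsto_one_div_add_atTop_nhds_zero_nat
        have h5 := (h4.const_add 1).pow 4
        simpa using h5
      filter_upwards [h3.eventually (gt_mem_nhds hc1)] with n hn
      have hk : (0 : ℝ) < (n : ℝ) + 1 := by positivity
      simp only [a]
      push_cast
      have e : ((n : ℝ) + 1 + 1) ^ 4 = (1 + 1 / ((n : ℝ) + 1)) ^ 4 * ((n : ℝ) + 1) ^ 4 := by
        rw [← mul_pow]; congr 1; field_simp
      rw [e]
      exact mul_le_mul_of_nonneg_right hn.le (by positivity)
    · refine tendsto_atTop_mono (fun n => ?_) tendsto_id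
      simp only [a, id]
      calc n ≤ n + 1 := by omega
        _ = (n + 1) ^ 1 := by rw [pow_one]
        _ ≤ (n + 1) ^ 4 := Nat.pow_le_pow_right (by omega) (by omega)

end Abstract

/-- The number of the levels below `N` in the block of `i`. -/
def bc (g : ℕ → ℕ) (i N : ℕ) : ℕ := ((Finset.range N).filter fun j => g j = g i).card

theorem freq_exists {μ : Measure (ℕ → ℕ)} [IsProbabilityMeasure μ] (hμ : ExK μ) :
    ∀ᵐ g ∂μ, ∀ i, ∃ L : ℝ, Tendsto (fun N : ℕ => (bc g i N : ℝ) / N) atTop (𝓝 L) := by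
  rw [ae_all_iff]
  intro i
  let B : ℕ → Set (ℕ → ℕ) := fun j => {g | g (i + 1 + j) = g i}
  have hB : ∀ j, MeasurableSet (B j) := fun j =>
    measurableSet_eq_fun (measurable_pi_apply _) (measurable_pi_apply _)
  -- exchangeability
  have h2 : ∀ j k, j ≠ k → μ (B j ∩ B k) = μ (B 0 ∩ B 1) := by
    intro j k hjk
    obtain ⟨π, h3, h4, h5, h6⟩ := exists_perm
      (X := {i + 1 + 0, i + 1 + 1, i + 1 + j, i + 1 + k}) (x := i + 1 + 0) (y := i + 1 + 1)
      (x' := i + 1 + j) (y' := i + 1 + k) (by simp) (by simp) (by omega) (by simp) (by simp)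
      (by omega)
    have h0 : π 0 = 0 := h6 0 (by simp; omega)
    have hi : π i = i := h6 i (by simp; omega)
    have h7 := hμ (i + 1 + 1 + 1) π h0 π.injective.injOn
      (fun g => g (i + 1 + 0) = g i ∧ g (i + 1 + 1) = g i) ?_
    · simp only [Function.comp_apply, h3, h4, hi] at h7
      exact h7
    · rintro g g' hg ⟨h8, h9⟩
      exact ⟨(hg _ (by omega) _ (by omega)).1 h8, (hg _ (by omega) _ (by omega)).1 h9⟩
  have h1 : ∀ j, μ (B j) = μ (B 0) := by
    intro j
    have h7 := hμ.swap (a := i + 1) (b := i + 1 + j) (by omega) (by omega) (i + 1 + 1)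
      (fun g => g (i + 1) = g i) ?_
    · have hi : Equiv.swap (i + 1) (i + 1 + j) i = i :=
        Equiv.swap_apply_of_ne_of_ne (by omega) (by omega)
      simp only [Function.comp_apply, Equiv.swap_apply_left, hi] at h7
      exact h7
    · intro g g' hg h8
      exact (hg _ (by omega) _ (by omega)).1 h8
  have h3 := avg_converges (P := μ) hB (p₁ := μ.real (B 0)) (p₂ := μ.real (B 0 ∩ B 1))
    (fun j => by simp only [Measure.real, h1 j]) (fun j k hjk => by simp only [Measure.real, h2 j k hjk])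
  filter_upwards [h3] with g hg
  obtain ⟨L, hL⟩ := hg
  refine ⟨L, ?_⟩
  rw [← tendsto_add_atTop_iff_nat (i + 1)]
  have e1 : ∀ n, (bc g i (n + (i + 1)) : ℝ) =
      bc g i (i + 1) + ∑ j ∈ Finset.range n, ind (B j) g := by
    intro n
    induction n with
    | zero => simp
    | succ n ih =>
      rw [Finset.sum_range_succ, ← add_assoc (bc g i (i + 1) : ℝ), ← ih]
      have e2 : n + 1 + (i + 1) = n + (i + 1) + 1 := by ring
      unfold bc
      rw [e2, Finset.range_add_one, Finset.filter_insert]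
      by_cases h : g (n + (i + 1)) = g i
      · rw [if_pos h, Finset.card_insert_of_notMem (by simp)]
        have : ind (B n) g = 1 := by
          unfold ind
          rw [Set.indicator_of_mem]
          show g (i + 1 + n) = g i
          rw [show i + 1 + n = n + (i + 1) by ring]; exact h
        rw [this]; push_cast; ring
      · rw [if_neg h]
        have : ind (B n) g = 0 := by
          unfold ind
          rw [Set.indicator_of_notMem]
          show ¬ g (i + 1 + n) = g i
          rw [show i + 1 + n = n + (i + 1) by ring]; exact h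
        rw [this]; ring
  have h4 : Tendsto (fun n : ℕ => (bc g i (i + 1) : ℝ) / ((n + (i + 1) : ℕ) : ℝ) +
      (∑ j ∈ Finset.range n, ind (B j) g) / n * ((n : ℝ) / ((n + (i + 1) : ℕ) : ℝ))) atTop
      (𝓝 (0 + L * 1)) := by
    refine Tendsto.add ?_ (hL.mul ?_)
    · exact tendsto_const_nhds.div_atTop
        (tendsto_natCast_atTop_atTop.comp (tendsto_add_atTop_nat (i + 1)))
    · have h5 : Tendsto (fun n : ℕ => 1 - ((i : ℝ) + 1) / ((n + (i + 1) : ℕ) : ℝ)) atTop
          (𝓝 (1 - 0)) := by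
        refine Tendsto.sub tendsto_const_nhds ?_
        exact tendsto_const_nhds.div_atTop
          (tendsto_natCast_atTop_atTop.comp (tendsto_add_atTop_nat (i + 1)))
      rw [sub_zero] at h5
      refine h5.congr fun n => ?_
      have : ((n + (i + 1) : ℕ) : ℝ) ≠ 0 := by positivity
      field_simp
      push_cast; ring
  rw [zero_add, mul_one] at h4
  refine h4.congr' ?_
  filter_upwards [eventually_ge_atTop 1] with n hn
  rw [e1 n]
  have h5 : (n : ℝ) ≠ 0 := by positivity
  have h6 : ((n + (i + 1) : ℕ) : ℝ) ≠ 0 := by positivity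
  field_simp

end Pool.Agent.Helper97.LD
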