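import Pool.Agent.Helper97.LD.Defs
import Pool.Agent.Helper97.LD.Freq

/-!
# Histories
-/

set_option autoImplicit false

namespace Pool.Agent.Helper97.LD

open MeasureTheory ProbabilityTheory Filter
open scoped ENNReal NNReal Topology

theorem before_irrefl (e : Env) (a : Name) : ¬ before e a a := by
  unfold before
  simp

theorem before_trans {e : Env} {a b c : Name} (h : before e a b) (h' : before e b c) :
    before e a c := by
  unfold before at *
  rcases h with h | ⟨h1, h2⟩ <;> rcases h' with h' | ⟨h3, h4⟩
  · exact Or.inl (h.trans h')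
  · exact Or.inl (h3 ▸ h)
  · exact Or.inl (h1 ▸ h')
  · exact Or.inr ⟨h1.trans h3, h2.trans h4⟩

theorem before_total {e : Env} {a b : Name} (h : a ≠ b) : before e a b ∨ before e b a := by
  unfold before
  rcases lt_trichotomy (e.2.1 a) (e.2.1 b) with h1 | h1 | h1
  · exact Or.inl (Or.inl h1)
  · have : Encodable.encode a ≠ Encodable.encode b := fun h2 => h (Encodable.encode_injective h2)
    rcases lt_or_gt_of_ne this with h2 | h2
    · exact Or.inl (Or.inr ⟨h1, h2⟩)
    · exact Or.inr (Or.inr ⟨h1.symm, h2⟩)
  · exact Or.inr (Or.inl h1)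

theorem exists_list (e : Env) {S : Set Name} (hS : S.Finite) :
    ∃ l : List Name, l.Pairwise (before e) ∧ ∀ a, a ∈ l ↔ a ∈ S := by
  classical
  refine Set.Finite.induction_on (motive := fun S _ => ∃ l : List Name,
    l.Pairwise (before e) ∧ ∀ a, a ∈ l ↔ a ∈ S) _ hS ?_ ?_
  · exact ⟨[], by simp, by simp⟩
  · rintro a S ha _ ⟨l, hl, hl'⟩
    refine ⟨l.filter (fun b => decide (before e b a)) ++
      a :: l.filter (fun b => decide (before e a b)), ?_, ?_⟩
    · rw [List.pairwise_append]
      refine ⟨hl.filter _, ?_, ?_⟩
      · rw [List.pairwise_cons]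
        refine ⟨fun b hb => ?_, hl.filter _⟩
        simpa using (List.mem_filter.1 hb).2
      · intro x hx y hy
        have h1 : before e x a := by simpa using (List.mem_filter.1 hx).2
        rcases List.mem_cons.1 hy with h | h
        · rw [h]; exact h1
        · have h2 : before e a y := by simpa using (List.mem_filter.1 h).2
          exact before_trans h1 h2
    · intro b
      simp only [List.mem_append, List.mem_filter, List.mem_cons, decide_eq_true_eq,
        Set.mem_insert_iff, hl']
      constructor
      · rintro (h | h | h)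
        · exact Or.inr h.1
        · exact Or.inl h
        · exact Or.inr h.1
      · rintro (h | h)
        · exact Or.inr (Or.inl h)
        · have hne : b ≠ a := by rintro rfl; exact ha h
          rcases before_total (e := e) hne with h1 | h1
          · exact Or.inl ⟨h, h1⟩
          · exact Or.inr (Or.inr ⟨h, h1⟩)

theorem nodup_of_before {e : Env} {l : List Name} (h : l.Pairwise (before e)) : l.Nodup :=
  h.imp fun {a b} hab e' => by rw [e'] at hab; exact before_irrefl _ _ hab

theorem list_unique {e : Env} {l l' : List Name} (h : l.Pairwise (before e))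
    (h' : l'.Pairwise (before e)) (hm : ∀ a, a ∈ l ↔ a ∈ l') : l = l' := by
  have hp : l.Perm l' := (List.perm_ext_iff_of_nodup (nodup_of_before h) (nodup_of_before h')).2 hm
  refine hp.eq_of_pairwise (le := before e) ?_ h h'
  intro a b _ _ hab hba
  exact absurd (before_trans hab hba) (before_irrefl _ _)

theorem back_cons (z : Win) (a : Name) (l : List Name) (x : ℕ) :
    back z (a :: l) x = shiftDown (part z a) (back z l x) := rfl

theorem back_nil (z : Win) (x : ℕ) : back z [] x = x := rfl

theorem back_seg (z : Win) (l : List Name) : Seg (back z l) := by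
  induction l with
  | nil => exact seg_id
  | cons a l ih => exact (shiftDown_seg (part z a)).comp ih

theorem back_le (z : Win) (l : List Name) (x : ℕ) : back z l x ≤ x :=
  ((back_seg z l).le_nb x).trans ((back_seg z l).nb_le x)

open Classical in
/-- Irrelevant atoms can be left out. -/
theorem back_filter (z : Win) (x : ℕ) (l : List Name) {y : ℕ} (hy : y ≤ x) :
    back z (l.filter fun a => decide (Rel (part z a) x)) y = back z l y := by
  induction l with
  | nil => rfl
  | cons a l ih =>
    by_cases h : Rel (part z a) x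
    · rw [List.filter_cons_of_pos (by simpa using h), back_cons, back_cons, ih]
    · rw [List.filter_cons_of_neg (by simpa using h), ih, back_cons]
      unfold Rel at h
      rw [shiftDown_of_not_rel (x := x) (by omega) ((back_le z l y).trans hy)]

theorem look_eq {z : Win} {s : ℝ} {x : ℕ} {l : List Name} (h : IsHist z s x l) :
    look z s x = back z l x := by
  classical
  unfold look
  have hex : ∃ l, IsHist z s x l := ⟨l, h⟩
  rw [dif_pos hex]
  have h1 := hex.choose_spec
  rw [list_unique h1.1 h.1 fun a => (h1.2 a).trans (h.2 a).symm]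

/-- The atoms of the kinds smaller than `K`. -/
def kinds (e : Env) (K : ℕ) : Set Name := {a | a.1 < K ∧ present e a}

theorem kinds_finite (e : Env) (K : ℕ) : (kinds e K).Finite := by
  have : kinds e K ⊆ ((Finset.range K).biUnion fun k =>
      (Finset.range (e.1 k)).image fun j => ((k, j) : Name) : Finset Name) := by
    rintro ⟨k, j⟩ ⟨h1, h2⟩
    simp only [Finset.coe_biUnion, Finset.coe_range, Set.mem_Iio, Finset.coe_image,
      Set.mem_iUnion, Set.mem_image]
    exact ⟨k, h1, j, h2, rfl⟩
  exact (Finset.finite_toSet _).subset this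

/-- The list of the atoms of the kinds smaller than `K`, in the order of time. -/
noncomputable def lst (e : Env) (K : ℕ) : List Name := (exists_list e (kinds_finite e K)).choose

theorem lst_pairwise (e : Env) (K : ℕ) : (lst e K).Pairwise (before e) :=
  (exists_list e (kinds_finite e K)).choose_spec.1

theorem mem_lst {e : Env} {K : ℕ} {a : Name} : a ∈ lst e K ↔ a.1 < K ∧ present e a :=
  (exists_list e (kinds_finite e K)).choose_spec.2 a

theorem lst_nodup (e : Env) (K : ℕ) : (lst e K).Nodup := nodup_of_before (lst_pairwise e K)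

/-- The history exists if there are finitely many relevant atoms. -/
theorem exists_hist {z : Win} {s : ℝ} {x : ℕ}
    (h : {a | present z.1 a ∧ Rel (part z a) x}.Finite) : ∃ l, IsHist z s x l := by
  have h1 : {a | present z.1 a ∧ z.1.2.1 a ≤ s ∧ Rel (part z a) x}.Finite :=
    h.subset fun a ha => ⟨ha.1, ha.2.2⟩
  exact exists_list z.1 h1

theorem Rel.mono {J : Set ℕ} {x y : ℕ} (h : Rel J x) (hxy : x ≤ y) : Rel J y := by
  unfold Rel at *
  exact h.trans (below_mono J (by omega))

/-- For large `K` the atoms of the kinds smaller than `K` suffice. -/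
theorem look_eq_back {z : Win} {x : ℕ} (hp : ∀ a, present z.1 a → z.1.2.1 a ≤ 1)
    (h : {a | present z.1 a ∧ Rel (part z a) x}.Finite) :
    ∃ K₀, ∀ K ≥ K₀, ∀ y ≤ x, look z 1 y = back z (lst z.1 K) y := by
  classical
  obtain ⟨K₀, hK₀⟩ : ∃ K₀, ∀ a, present z.1 a → Rel (part z a) x → a.1 < K₀ := by
    refine ⟨h.toFinset.sup (fun a => a.1) + 1, fun a ha ha' => ?_⟩
    have := Finset.le_sup (f := fun a : Name => a.1)
      (show a ∈ h.toFinset from h.mem_toFinset.2 ⟨ha, ha'⟩)
    exact Nat.lt_succ_of_le this
  refine ⟨K₀, fun K hK y hy => ?_⟩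
  rw [← back_filter z y (lst z.1 K) le_rfl]
  apply look_eq
  refine ⟨(lst_pairwise z.1 K).filter _, fun a => ?_⟩
  simp only [List.mem_filter, mem_lst, decide_eq_true_eq]
  constructor
  · rintro ⟨⟨_, h2⟩, h3⟩
    exact ⟨h2, hp a h2, h3⟩
  · rintro ⟨h1, _, h3⟩
    exact ⟨⟨(hK₀ a h1 (h3.mono hy)).trans_le hK, h1⟩, h3⟩

end Pool.Agent.Helper97.LD
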