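import Pool.Agent.Helper97.LD.Law

/-!
# Inequalities for random lookdown maps with exchangeable kernel
-/

set_option autoImplicit false

namespace Pool.Agent.Helper97.LD

open MeasureTheory ProbabilityTheory
open scoped ENNReal

theorem ExK.swap {μ : Measure (ℕ → ℕ)} (h : ExK μ) {a b : ℕ} (ha : a ≠ 0) (hb : b ≠ 0) (r : ℕ)
    (P : (ℕ → ℕ) → Prop) (hP : ∀ g g', KEq r g g' → P g → P g') :
    μ {g | P (g ∘ Equiv.swap a b)} = μ {g | P g} :=
  h r (Equiv.swap a b) (Equiv.swap_apply_of_ne_of_ne ha.symm hb.symm)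
    (Equiv.swap a b).injective.injOn P hP

/-- The mass of the maps for which the levels `0, …, m - 1` have the same ancestor. -/
noncomputable def aa (μ : Measure (ℕ → ℕ)) (m : ℕ) : ℝ≥0∞ := μ {g | ∀ j < m, g j = g 0}

/-- The mass of the maps for which the levels `0, …, m - 1` have the same ancestor and level `m`
has another one. -/
noncomputable def dd (μ : Measure (ℕ → ℕ)) (m : ℕ) : ℝ≥0∞ :=
  μ {g | (∀ j < m, g j = g 0) ∧ g m ≠ g 0}

theorem meas_aa (m : ℕ) : MeasurableSet {g : ℕ → ℕ | ∀ j < m, g j = g 0} := by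
  refine measurableSet_of_dep (m + 1) _ ?_
  intro g g' hg h j hj
  rw [← hg j (by omega), ← hg 0 (by omega)]
  exact h j hj

theorem meas_dd (m : ℕ) : MeasurableSet {g : ℕ → ℕ | (∀ j < m, g j = g 0) ∧ g m ≠ g 0} := by
  refine measurableSet_of_dep (m + 1) _ ?_
  rintro g g' hg ⟨h, h'⟩
  refine ⟨fun j hj => ?_, ?_⟩
  · rw [← hg j (by omega), ← hg 0 (by omega)]
    exact h j hj
  · rw [← hg m (by omega), ← hg 0 (by omega)]
    exact h'

theorem aa_eq (μ : Measure (ℕ → ℕ)) (m : ℕ) : aa μ m = aa μ (m + 1) + dd μ m := by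
  unfold aa dd
  rw [← measure_union _ (meas_dd m)]
  · congr 1
    ext g
    simp only [Set.mem_ofPred_eq, Set.mem_union]
    constructor
    · intro h
      by_cases hm : g m = g 0
      · left
        intro j hj
        rcases Nat.lt_succ_iff_lt_or_eq.1 hj with h1 | h1
        · exact h j h1
        · rw [h1]; exact hm
      · exact Or.inr ⟨h, hm⟩
    · rintro (h | h)
      · exact fun j hj => h j (by omega)
      · exact h.1
  · rw [Set.disjoint_left]
    rintro g h h'
    exact h'.2 (h m (by omega))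

theorem aa_anti (μ : Measure (ℕ → ℕ)) : Antitone (aa μ) := by
  refine antitone_nat_of_succ_le fun m => ?_
  rw [aa_eq μ m]
  exact le_self_add

theorem single_rest {μ : Measure (ℕ → ℕ)} (h : ExK μ) {i m : ℕ} (hi : 1 ≤ i) (him : i ≤ m) :
    μ {g | ∀ j ≤ m, (g j ≠ g 0 ↔ j = i)} = dd μ m := by
  have h1 := h.swap (a := i) (b := m) (by omega) (by omega) (m + 1)
    (fun g => (∀ j < m, g j = g 0) ∧ g m ≠ g 0) ?_
  · unfold dd
    rw [← h1]
    congr 1
    ext g
    have h0 : Equiv.swap i m 0 = 0 := Equiv.swap_apply_of_ne_of_ne (by omega) (by omega)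
    simp only [Set.mem_ofPred_eq, Function.comp_apply, h0, Equiv.swap_apply_right]
    constructor
    · intro h
      refine ⟨fun j hj => ?_, (h i him).2 rfl⟩
      by_contra hne
      by_cases hji : j = i
      · subst hji
        rw [Equiv.swap_apply_left] at hne
        have := (h m le_rfl).1 hne
        omega
      · rw [Equiv.swap_apply_of_ne_of_ne hji (by omega)] at hne
        exact hji ((h j hj.le).1 hne)
    · rintro ⟨h, h'⟩ j hj
      constructor
      · intro hne
        by_contra hji
        rcases hj.lt_or_eq with hlt | he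
        · have := h j hlt
          rw [Equiv.swap_apply_of_ne_of_ne hji (by omega)] at this
          exact hne this
        · subst he
          have := h i (by omega)
          rw [Equiv.swap_apply_left] at this
          exact hne this
      · rintro rfl; exact h'
  · rintro g g' hg ⟨h, h'⟩
    exact ⟨fun j hj => (hg j (by omega) 0 (by omega)).1 (h j hj),
      fun e => h' ((hg m (by omega) 0 (by omega)).2 e)⟩

theorem dd_succ_le {μ : Measure (ℕ → ℕ)} (h : ExK μ) {m : ℕ} (hm : 1 ≤ m) :
    dd μ (m + 1) ≤ dd μ m := by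
  rw [← single_rest h (i := m) (m := m + 1) hm (by omega)]
  refine measure_mono ?_
  intro g hg
  simp only [Set.mem_ofPred_eq] at hg ⊢
  refine ⟨fun j hj => ?_, (hg m (by omega)).2 rfl⟩
  by_contra hne
  have := (hg j (by omega)).1 hne
  omega

theorem dd_le {μ : Measure (ℕ → ℕ)} (h : ExK μ) {k m : ℕ} (hk : 1 ≤ k) (hkm : k ≤ m) :
    dd μ m ≤ dd μ k := by
  induction m, hkm using Nat.le_induction with
  | base => exact le_rfl
  | succ m hm ih => exact (dd_succ_le h (by omega)).trans ih

theorem aa_lower {μ : Measure (ℕ → ℕ)} (h : ExK μ) (m c : ℕ) :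
    ∀ k, 1 ≤ k → c + k ≤ m + 1 → aa μ (m + 1) + c * dd μ m ≤ aa μ k := by
  have key : c ≤ m → aa μ (m + 1) + c * dd μ m ≤ aa μ (m + 1 - c) := by
    induction c with
    | zero => intro _; simp
    | succ c ih =>
      intro hc
      have e : m + 1 - c = (m + 1 - (c + 1)) + 1 := by omega
      have h1 := ih (by omega)
      have h2 := aa_eq μ (m + 1 - (c + 1))
      rw [h2, ← e]
      have h3 : dd μ m ≤ dd μ (m + 1 - (c + 1)) := dd_le h (by omega) (by omega)
      calc aa μ (m + 1) + ((c + 1 : ℕ) : ℝ≥0∞) * dd μ m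
          = (aa μ (m + 1) + c * dd μ m) + dd μ m := by push_cast; ring
        _ ≤ _ := add_le_add h1 h3
  intro k hk hck
  exact (key (by omega)).trans (aa_anti μ (by omega))

/-! ### Segment maps -/

/-- Almost every map has the segment property and the law of the kernel is exchangeable. -/
structure Nice (μ : Measure (ℕ → ℕ)) : Prop where
  seg : ∀ᵐ g ∂μ, Seg g
  ex : ExK μ

theorem Nice.cmp {μ C : Measure (ℕ → ℕ)} [SFinite μ] [SFinite C] (hμ : Nice μ) (hC : Nice C) :
    Nice (cmp μ C) where
  seg := ae_cmp measurableSet_seg (fun _ _ h h' => h.comp h') hμ.seg hC.seg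
  ex := hμ.ex.cmp hC.ex (by filter_upwards [hC.seg] with b hb; exact hb.zero)

theorem Nice.sum {μ : ℕ → Measure (ℕ → ℕ)} (h : ∀ n, Nice (μ n)) : Nice (Measure.sum μ) where
  seg := (Measure.ae_sum_iff' measurableSet_seg).2 fun n => (h n).seg
  ex := ExK.sum fun n => (h n).ex

theorem nice_dirac : Nice (Measure.dirac id) where
  seg := (ae_dirac_iff measurableSet_seg).2 seg_id
  ex := by
    intro r i h0 hi P hP
    have h1 : MeasurableSet {g | P g} :=
      measurableSet_of_dep r P fun g g' hg => hP g g' (kEq_of_eq hg)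
    have h2 : MeasurableSet {g | P (g ∘ i)} := (measurable_comp_right i) h1
    rw [Measure.dirac_apply' _ h1, Measure.dirac_apply' _ h2]
    have h3 : KEq r (id ∘ i) id := by
      intro x hx y hy
      simp only [Function.comp_apply, id]
      exact ⟨fun e => hi hx hy e, fun e => by rw [e]⟩
    have h4 : P (id ∘ i) ↔ P id := ⟨hP _ _ h3, hP _ _ h3.symm⟩
    by_cases hp : P id
    · rw [Set.indicator_of_mem (show id ∈ {g : ℕ → ℕ | P (g ∘ i)} from h4.2 hp),
        Set.indicator_of_mem (show id ∈ {g : ℕ → ℕ | P g} from hp)]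
    · rw [Set.indicator_of_notMem (show id ∉ {g : ℕ → ℕ | P (g ∘ i)} from fun h => hp (h4.1 h)),
        Set.indicator_of_notMem (show id ∉ {g : ℕ → ℕ | P g} from hp)]

theorem aa_cmp (μ C : Measure (ℕ → ℕ)) [SFinite μ] [SFinite C] (hC : ∀ᵐ b ∂C, Seg b) (m : ℕ) :
    aa (cmp μ C) m = ∫⁻ b, aa μ (nb b m) ∂C := by
  unfold aa
  rw [cmp_apply _ _ (meas_aa m)]
  refine lintegral_congr_ae ?_
  filter_upwards [hC] with b hb
  congr 1
  ext g
  simp only [Set.mem_ofPred_eq, Function.comp_apply, hb.zero]
  constructor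
  · intro h v hv
    obtain ⟨y, hy, e⟩ := (hb.lt_nb_iff m v).1 hv
    rw [← e]; exact h y hy
  · intro h j hj
    exact h _ (lt_nb_of_lt b hj)

open Classical in
theorem dd_cmp (μ C : Measure (ℕ → ℕ)) [SFinite μ] [SFinite C] (hC : ∀ᵐ b ∂C, Seg b) (m : ℕ) :
    dd (cmp μ C) m = ∫⁻ b, (if New b m then dd μ (nb b m) else 0) ∂C := by
  unfold dd
  rw [cmp_apply _ _ (meas_dd m)]
  refine lintegral_congr_ae ?_
  filter_upwards [hC] with b hb
  split_ifs with hn
  · congr 1
    ext g
    simp only [Set.mem_ofPred_eq, Function.comp_apply, hb.zero]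
    rw [show b m = nb b m from hn]
    refine and_congr_left fun _ => ?_
    constructor
    · intro h v hv
      obtain ⟨y, hy, e⟩ := (hb.lt_nb_iff m v).1 hv
      rw [← e]; exact h y hy
    · intro h j hj
      exact h _ (lt_nb_of_lt b hj)
  · rw [hb.not_new_iff] at hn
    obtain ⟨y, hy, e⟩ := hn
    have : {g : ℕ → ℕ | (∀ j < m, (g ∘ b) j = (g ∘ b) 0) ∧ (g ∘ b) m ≠ (g ∘ b) 0} = ∅ := by
      rw [Set.eq_empty_iff_forall_notMem]
      rintro g ⟨h, h'⟩
      apply h'
      have := h y hy
      simp only [Function.comp_apply] at this ⊢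
      rw [← e]; exact this
    exact (congrArg μ this).trans measure_empty

open Classical in
theorem sum_add_nb_le {b : ℕ → ℕ} (hb : Seg b) (m : ℕ) :
    (∑ j ∈ Finset.range m, if b (j + 1) = b 0 then 1 else 0) + nb b (m + 1) ≤ m + 1 := by
  induction m with
  | zero => simpa using hb.nb_le 1
  | succ m ih =>
    rw [Finset.sum_range_succ]
    split_ifs with h
    · have h1 : nb b (m + 1 + 1) = nb b (m + 1) := by
        apply hb.nb_succ_of_not_new
        rw [hb.not_new_iff]
        exact ⟨0, by omega, h.symm⟩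
      omega
    · have h1 : nb b (m + 1 + 1) ≤ nb b (m + 1) + 1 := by
        rw [nb_succ]
        have := hb.le_nb (m + 1)
        omega
      omega

/-- The probability that level `1` has the ancestor of level `0`. -/
noncomputable def pc (C : Measure (ℕ → ℕ)) : ℝ≥0∞ := C {b | b 1 = b 0}

theorem prob_eq_zero_level {C : Measure (ℕ → ℕ)} (h : ExK C) (j : ℕ) :
    C {b | b (j + 1) = b 0} = pc C := by
  unfold pc
  have h1 := h.swap (a := 1) (b := j + 1) (by omega) (by omega) 2 (fun g => g 1 = g 0) ?_
  · rw [← h1]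
    have h0 : Equiv.swap 1 (j + 1) 0 = 0 := Equiv.swap_apply_of_ne_of_ne (by omega) (by omega)
    simp only [Function.comp_apply, h0, Equiv.swap_apply_left]
  · intro g g' hg e
    exact (hg 1 (by omega) 0 (by omega)).1 e

theorem meas_pc (j : ℕ) : MeasurableSet {b : ℕ → ℕ | b (j + 1) = b 0} := by
  refine measurableSet_of_dep (j + 2) _ ?_
  intro g g' hg e
  rw [← hg (j + 1) (by omega), ← hg 0 (by omega)]; exact e

/-- The basic inequality: coalescence with the block of level `0` is fast. -/
theorem basic {μ C : Measure (ℕ → ℕ)} [SFinite μ] [IsProbabilityMeasure C] (hμ : Nice μ)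
    (hC : Nice C) (m : ℕ) :
    aa μ (m + 1) + m * pc C * dd μ m ≤ aa (cmp μ C) (m + 1) := by
  classical
  rw [aa_cmp μ C hC.seg]
  have h1 : ∀ᵐ b ∂C, aa μ (m + 1) + (∑ j ∈ Finset.range m,
      {b : ℕ → ℕ | b (j + 1) = b 0}.indicator (fun _ => (1 : ℝ≥0∞)) b) * dd μ m ≤
        aa μ (nb b (m + 1)) := by
    filter_upwards [hC.seg] with b hb
    have h2 := aa_lower hμ.ex m (∑ j ∈ Finset.range m, if b (j + 1) = b 0 then 1 else 0)
      (nb b (m + 1)) (hb.nb_pos (by omega)) (sum_add_nb_le hb m)
    refine le_trans (le_of_eq ?_) h2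
    congr 2
    push_cast
    refine Finset.sum_congr rfl fun j _ => ?_
    simp only [Set.indicator, Set.mem_ofPred_eq]
  refine le_trans (le_of_eq ?_) (lintegral_mono_ae h1)
  have hm : ∀ j ∈ Finset.range m, Measurable
      ({b : ℕ → ℕ | b (j + 1) = b 0}.indicator (fun _ => (1 : ℝ≥0∞))) :=
    fun j _ => measurable_const.indicator (meas_pc j)
  rw [lintegral_add_left measurable_const, lintegral_const, measure_univ, mul_one,
    lintegral_mul_const _ (Finset.measurable_fun_sum _ hm), lintegral_finsetSum _ hm]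
  congr 2
  have : ∀ j ∈ Finset.range m, ∫⁻ b, ({b : ℕ → ℕ | b (j + 1) = b 0}.indicator
      (fun _ => (1 : ℝ≥0∞))) b ∂C = pc C := by
    intro j _
    rw [lintegral_indicator_const (meas_pc j), one_mul, prob_eq_zero_level hC.ex]
  rw [Finset.sum_congr rfl this]
  simp

/-- Iterated composition. -/
noncomputable def iter (C : Measure (ℕ → ℕ)) : ℕ → Measure (ℕ → ℕ)
  | 0 => Measure.dirac id
  | n + 1 => cmp (iter C n) C

instance iter_prob (C : Measure (ℕ → ℕ)) [IsProbabilityMeasure C] (n : ℕ) :
    IsProbabilityMeasure (iter C n) := by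
  induction n with
  | zero => unfold iter; infer_instance
  | succ n ih => unfold iter; infer_instance

theorem iter_nice {C : Measure (ℕ → ℕ)} [IsProbabilityMeasure C] (h : Nice C) (n : ℕ) :
    Nice (iter C n) := by
  induction n with
  | zero => exact nice_dirac
  | succ n ih => exact ih.cmp h

theorem iter_add (C : Measure (ℕ → ℕ)) [IsProbabilityMeasure C] (m n : ℕ) :
    iter C (m + n) = cmp (iter C m) (iter C n) := by
  induction n with
  | zero => simp only [add_zero, iter]; rw [cmp_dirac]
  | succ n ih =>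
    rw [← add_assoc]
    simp only [iter]
    rw [ih, cmp_assoc]

/-- The bound on the mass of the maps for which `m` is the first level of another block. -/
def TB (S : Measure (ℕ → ℕ)) (q : ℝ≥0∞) : Prop := ∀ m : ℕ, 1 ≤ m → m * q * dd S m ≤ 1

theorem tb_sum {C : Measure (ℕ → ℕ)} [IsProbabilityMeasure C] (h : Nice C) :
    TB (Measure.sum (iter C)) (pc C) := by
  intro m _
  have h1 : dd (Measure.sum (iter C)) m = ∑' n, dd (iter C n) m := by
    unfold dd
    rw [Measure.sum_apply _ (meas_dd m)]
  rw [h1, ← ENNReal.tsum_mul_left]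
  have h2 : ∀ M : ℕ, ∑ n ∈ Finset.range M, m * pc C * dd (iter C n) m ≤
      aa (iter C M) (m + 1) := by
    intro M
    induction M with
    | zero => simp
    | succ M ih =>
      rw [Finset.sum_range_succ]
      have := basic (iter_nice h M) h m
      exact (add_le_add_left ih _).trans this
  refine ENNReal.tsum_le_of_sum_range_le fun M => (h2 M).trans ?_
  unfold aa
  exact prob_le_one

/-! ### New levels -/

open Classical in
theorem card_image_range (g : ℕ → ℕ) (m : ℕ) :
    ((Finset.range m).image g).card = Nat.count (Ldr g) m := by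
  induction m with
  | zero => simp
  | succ m ih =>
    rw [Finset.range_add_one, Finset.image_insert, Nat.count_succ, ← ih]
    split_ifs with h
    · rw [Finset.card_insert_of_notMem]
      intro hm
      obtain ⟨z, hz, e⟩ := Finset.mem_image.1 hm
      exact h z (Finset.mem_range.1 hz) e
    · rw [Finset.insert_eq_of_mem, add_zero]
      unfold Ldr at h
      push Not at h
      obtain ⟨z, hz, e⟩ := h
      exact Finset.mem_image.2 ⟨z, Finset.mem_range.2 hz, e⟩

open Classical in
/-- `1 / nb` on the event that level `m` is new, for all maps. -/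
noncomputable def ff (m : ℕ) (g : ℕ → ℕ) : ℝ≥0∞ :=
  if Ldr g m then ((((Finset.range m).image g).card : ℕ) : ℝ≥0∞)⁻¹ else 0

theorem ff_kEq {m : ℕ} {g g' : ℕ → ℕ} (h : KEq (m + 1) g g') : ff m g = ff m g' := by
  classical
  unfold ff
  rw [card_image_range, card_image_range, h.count (by omega)]
  simp only [h.ldr (show m < m + 1 by omega)]

open Classical in
theorem ff_seg {m : ℕ} {g : ℕ → ℕ} (h : Seg g) :
    ff m g = if New g m then ((nb g m : ℕ) : ℝ≥0∞)⁻¹ else 0 := by
  have h1 : Ldr g m ↔ New g m := by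
    rw [← not_iff_not, h.not_new_iff]
    unfold Ldr
    push Not
    rfl
  have h2 : ((Finset.range m).image g).card = nb g m := by
    have : (Finset.range m).image g = Finset.range (nb g m) := by
      ext v
      rw [Finset.mem_image, Finset.mem_range, h.lt_nb_iff]
      simp
    rw [this, Finset.card_range]
  unfold ff
  rw [h2]
  simp only [h1]

theorem ff_sum {m : ℕ} (g : ℕ → ℕ) :
    ∑ j ∈ Finset.Icc 1 m, ff m (g ∘ Equiv.swap j m) ≤ 1 := by
  classical
  set K := ((Finset.range (m + 1)).image g).card with hK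
  set T := (Finset.Icc 1 m).filter (fun j => ∀ z ≤ m, z ≠ j → g z ≠ g j) with hT
  have hcard : T.card + 1 ≤ K := by
    have hinj : Set.InjOn g T := by
      intro a ha b hb e
      by_contra hne
      simp only [hT, Finset.coe_filter, Set.mem_ofPred_eq, Finset.mem_Icc] at ha hb
      exact hb.2 a ha.1.2 hne e
    have h0 : g 0 ∉ T.image g := by
      intro hm
      obtain ⟨j, hj, e⟩ := Finset.mem_image.1 hm
      simp only [hT, Finset.mem_filter, Finset.mem_Icc] at hj
      exact hj.2 0 (by omega) (by omega) e.symm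
    rw [← Finset.card_image_of_injOn hinj, ← Finset.card_insert_of_notMem h0, hK]
    refine Finset.card_le_card ?_
    intro v hv
    rw [Finset.mem_insert] at hv
    rcases hv with hv | hv
    · rw [hv]; exact Finset.mem_image_of_mem g (by simp)
    · obtain ⟨j, hj, e⟩ := Finset.mem_image.1 hv
      simp only [hT, Finset.mem_filter, Finset.mem_Icc] at hj
      rw [← e]; exact Finset.mem_image_of_mem g (by simp; omega)
  have hval : ∀ j ∈ Finset.Icc 1 m, ff m (g ∘ Equiv.swap j m) =
      if j ∈ T then ((K - 1 : ℕ) : ℝ≥0∞)⁻¹ else 0 := by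
    intro j hj
    rw [Finset.mem_Icc] at hj
    have hl : Ldr (g ∘ Equiv.swap j m) m ↔ j ∈ T := by
      simp only [hT, Finset.mem_filter, Finset.mem_Icc, Ldr, Function.comp_apply,
        Equiv.swap_apply_right]
      constructor
      · intro h
        refine ⟨hj, fun z hz hzj => ?_⟩
        rcases hz.lt_or_eq with h1 | h1
        · have := h z h1
          rwa [Equiv.swap_apply_of_ne_of_ne hzj (by omega)] at this
        · subst h1
          have := h j (by omega)
          rwa [Equiv.swap_apply_left] at this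
      · rintro ⟨_, h⟩ z hz
        apply h
        · by_cases h1 : z = j
          · rw [h1, Equiv.swap_apply_left]
          · rw [Equiv.swap_apply_of_ne_of_ne h1 (by omega)]; omega
        · by_cases h1 : z = j
          · rw [h1, Equiv.swap_apply_left]; omega
          · rw [Equiv.swap_apply_of_ne_of_ne h1 (by omega)]; exact h1
    unfold ff
    by_cases hjT : j ∈ T
    · rw [if_pos (hl.2 hjT), if_pos hjT]
      congr 2
      have hr : (Finset.range (m + 1)).image (g ∘ Equiv.swap j m) =
          (Finset.range (m + 1)).image g := by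
        ext v
        simp only [Finset.mem_image, Finset.mem_range, Function.comp_apply]
        have hs : ∀ z, z < m + 1 → Equiv.swap j m z < m + 1 := by
          intro z hz
          by_cases h1 : z = j
          · rw [h1, Equiv.swap_apply_left]; omega
          · by_cases h2 : z = m
            · rw [h2, Equiv.swap_apply_right]; omega
            · rw [Equiv.swap_apply_of_ne_of_ne h1 h2]; omega
        constructor
        · rintro ⟨z, hz, e⟩
          exact ⟨_, hs z hz, e⟩
        · rintro ⟨z, hz, e⟩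
          exact ⟨_, hs z hz, by rw [Equiv.swap_apply_self]; exact e⟩
      have h3 : K = ((Finset.range m).image (g ∘ Equiv.swap j m)).card + 1 := by
        rw [hK, ← hr, Finset.range_add_one, Finset.image_insert, Finset.card_insert_of_notMem]
        intro hm
        obtain ⟨z, hz, e⟩ := Finset.mem_image.1 hm
        exact (hl.2 hjT) z (Finset.mem_range.1 hz) e
      omega
    · rw [if_neg (fun h => hjT (hl.1 h)), if_neg hjT]
  rw [Finset.sum_congr rfl hval, Finset.sum_ite_mem]
  have hTs : Finset.Icc 1 m ∩ T = T := Finset.inter_eq_right.2 (Finset.filter_subset _ _)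
  rw [hTs, Finset.sum_const, nsmul_eq_mul]
  have h4 : T.card ≤ K - 1 := by omega
  calc (T.card : ℝ≥0∞) * ((K - 1 : ℕ) : ℝ≥0∞)⁻¹
      ≤ ((K - 1 : ℕ) : ℝ≥0∞) * ((K - 1 : ℕ) : ℝ≥0∞)⁻¹ := by gcongr
    _ ≤ 1 := ENNReal.mul_inv_le_one _

theorem measurable_ff (m : ℕ) : Measurable (ff m) :=
  measurable_of_dep (m + 1) _ fun _ _ h => ff_kEq (kEq_of_eq h)

theorem new_ineq {C : Measure (ℕ → ℕ)} [IsProbabilityMeasure C] (h : ExK C) (m : ℕ) :
    m * ∫⁻ b, ff m b ∂C ≤ 1 := by
  have h1 : ∀ j ∈ Finset.Icc 1 m, ∫⁻ b, ff m (b ∘ Equiv.swap j m) ∂C = ∫⁻ b, ff m b ∂C := by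
    intro j hj
    rw [Finset.mem_Icc] at hj
    exact h.lintegral (m + 1) (Equiv.swap j m)
      (Equiv.swap_apply_of_ne_of_ne (by omega) (by omega))
      (Equiv.swap j m).injective.injOn (ff m) (fun g g' => ff_kEq)
  have h2 : ∑ j ∈ Finset.Icc 1 m, ∫⁻ b, ff m (b ∘ Equiv.swap j m) ∂C =
      m * ∫⁻ b, ff m b ∂C := by
    rw [Finset.sum_congr rfl h1]
    simp
  rw [← h2, ← lintegral_finsetSum (f := fun (j : ℕ) (b : ℕ → ℕ) => ff m (b ∘ Equiv.swap j m)) _
    (fun j _ => (measurable_ff m).comp (measurable_comp_right _))]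
  calc ∫⁻ b, ∑ j ∈ Finset.Icc 1 m, ff m (b ∘ Equiv.swap j m) ∂C ≤ ∫⁻ _, 1 ∂C :=
        lintegral_mono fun b => ff_sum b
    _ = 1 := by simp

theorem TB.cmp {S C : Measure (ℕ → ℕ)} {q : ℝ≥0∞} [SFinite S] [IsProbabilityMeasure C]
    (hS : TB S q) (hC : Nice C) : TB (cmp S C) q := by
  classical
  intro m hm
  rw [dd_cmp S C hC.seg, mul_assoc, ]
  refine le_trans ?_ (new_ineq hC.ex m)
  gcongr
  by_cases hq : q = ∞
  · -- then the masses vanish
    subst hq
    have h0 : ∀ k, 1 ≤ k → dd S k = 0 := by
      intro k hk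
      by_contra hne
      have h1 := hS k hk
      rw [ENNReal.mul_top (by simp; omega), ENNReal.top_mul hne] at h1
      simp at h1
    have : ∫⁻ b, (if New b m then dd S (nb b m) else 0) ∂C = 0 := by
      refine (lintegral_congr_ae ?_).trans lintegral_zero
      filter_upwards [hC.seg] with b hb
      split_ifs
      · exact h0 _ (hb.nb_pos hm)
      · rfl
    rw [this]; simp
  rw [← lintegral_const_mul' _ _ hq]
  refine lintegral_mono_ae ?_
  filter_upwards [hC.seg] with b hb
  rw [ff_seg hb]
  split_ifs with h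
  · have h1 := hS _ (hb.nb_pos hm)
    have h2 : ((nb b m : ℕ) : ℝ≥0∞) ≠ 0 := by
      have := hb.nb_pos hm
      simp; omega
    rw [ENNReal.le_inv_iff_mul_le]
    calc q * dd S (nb b m) * (nb b m : ℕ) = (nb b m : ℕ) * q * dd S (nb b m) := by ring
      _ ≤ 1 := h1
  · simp

end Pool.Agent.Helper97.LD
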