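import Pool.Agent.Helper97.LD.Maps

/-!
# Laws of random lookdown maps with exchangeable kernel
-/

set_option autoImplicit false

namespace Pool.Agent.Helper97.LD

open MeasureTheory ProbabilityTheory
open scoped ENNReal

/-! ### Measurability -/

/-- Keep the first `r` values. -/
def cut (r : ℕ) (g : ℕ → ℕ) : Fin r → ℕ := fun x => g x

/-- Extend by zero. -/
def ext0 (r : ℕ) (g : Fin r → ℕ) : ℕ → ℕ := fun x => if h : x < r then g ⟨x, h⟩ else 0

theorem measurable_cut (r : ℕ) : Measurable (cut r) :=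
  measurable_pi_iff.2 fun _ => measurable_pi_apply _

theorem measurable_of_dep {β : Type*} [MeasurableSpace β] (r : ℕ) (f : (ℕ → ℕ) → β)
    (h : ∀ g g', (∀ x < r, g x = g' x) → f g = f g') : Measurable f := by
  have h1 : f = (fun v => f (ext0 r v)) ∘ cut r := by
    funext g
    refine h _ _ fun x hx => ?_
    simp [ext0, cut, hx]
  rw [h1]
  exact (measurable_of_countable _).comp (measurable_cut r)

theorem measurableSet_of_dep (r : ℕ) (P : (ℕ → ℕ) → Prop)
    (h : ∀ g g', (∀ x < r, g x = g' x) → (P g → P g')) : MeasurableSet {g | P g} := by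
  have : Measurable fun g => P g := by
    refine measurable_of_dep r P fun g g' hg => propext ⟨h g g' hg, h g' g fun x hx => (hg x hx).symm⟩
  exact measurableSet_setOfPred.2 this

theorem measurable_comp : Measurable fun p : (ℕ → ℕ) × (ℕ → ℕ) => p.1 ∘ p.2 := by
  refine measurable_pi_iff.2 fun x => ?_
  have h1 : Measurable fun p : (ℕ → ℕ) × (ℕ → ℕ) => p.2 x :=
    (measurable_pi_apply x).comp measurable_snd
  refine measurable_to_countable' fun v => ?_
  have : (fun p : (ℕ → ℕ) × (ℕ → ℕ) => (p.1 ∘ p.2) x) ⁻¹' {v} =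
      ⋃ y, ({p | p.2 x = y} ∩ {p | p.1 y = v}) := by
    ext p; simp
  rw [this]
  refine MeasurableSet.iUnion fun y => (h1 (measurableSet_singleton y)).inter ?_
  have h2 : Measurable fun p : (ℕ → ℕ) × (ℕ → ℕ) => p.1 y :=
    (measurable_pi_apply y).comp measurable_fst
  exact h2 (measurableSet_singleton v)

theorem measurable_comp_right (i : ℕ → ℕ) : Measurable fun g : ℕ → ℕ => g ∘ i :=
  measurable_pi_iff.2 fun _ => measurable_pi_apply _

/-! ### Composition of laws -/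

/-- The law of `g ∘ b` where `g` has the law `μ` and `b` has the law `C`, independent. -/
noncomputable def cmp (μ C : Measure (ℕ → ℕ)) : Measure (ℕ → ℕ) :=
  (μ.prod C).map fun p => p.1 ∘ p.2

instance (μ C : Measure (ℕ → ℕ)) [IsProbabilityMeasure μ] [IsProbabilityMeasure C] :
    IsProbabilityMeasure (cmp μ C) :=
  Measure.isProbabilityMeasure_map measurable_comp.aemeasurable

instance (μ C : Measure (ℕ → ℕ)) [SFinite μ] [SFinite C] : SFinite (cmp μ C) := by
  unfold cmp; infer_instance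

theorem lintegral_cmp (μ C : Measure (ℕ → ℕ)) [SFinite μ] [SFinite C] {f : (ℕ → ℕ) → ℝ≥0∞}
    (hf : Measurable f) : ∫⁻ h, f h ∂(cmp μ C) = ∫⁻ g, ∫⁻ b, f (g ∘ b) ∂C ∂μ := by
  unfold cmp
  rw [lintegral_map hf measurable_comp]
  exact lintegral_prod (fun p : (ℕ → ℕ) × (ℕ → ℕ) => f (p.1 ∘ p.2))
    (hf.comp measurable_comp).aemeasurable

theorem lintegral_cmp' (μ C : Measure (ℕ → ℕ)) [SFinite μ] [SFinite C] {f : (ℕ → ℕ) → ℝ≥0∞}
    (hf : Measurable f) : ∫⁻ h, f h ∂(cmp μ C) = ∫⁻ b, ∫⁻ g, f (g ∘ b) ∂μ ∂C := by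
  unfold cmp
  rw [lintegral_map hf measurable_comp]
  exact lintegral_prod_symm (fun p : (ℕ → ℕ) × (ℕ → ℕ) => f (p.1 ∘ p.2))
    (hf.comp measurable_comp).aemeasurable

theorem cmp_apply (μ C : Measure (ℕ → ℕ)) [SFinite μ] [SFinite C] {s : Set (ℕ → ℕ)}
    (hs : MeasurableSet s) : cmp μ C s = ∫⁻ b, μ {g | g ∘ b ∈ s} ∂C := by
  unfold cmp
  rw [Measure.map_apply measurable_comp hs, Measure.prod_apply_symm (measurable_comp hs)]
  rfl

theorem cmp_apply' (μ C : Measure (ℕ → ℕ)) [SFinite μ] [SFinite C] {s : Set (ℕ → ℕ)}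
    (hs : MeasurableSet s) : cmp μ C s = ∫⁻ g, C {b | g ∘ b ∈ s} ∂μ := by
  unfold cmp
  rw [Measure.map_apply measurable_comp hs, Measure.prod_apply (measurable_comp hs)]
  rfl

theorem cmp_assoc (μ C D : Measure (ℕ → ℕ)) [SFinite μ] [SFinite C] [SFinite D] :
    cmp (cmp μ C) D = cmp μ (cmp C D) := by
  ext s hs
  have h1 : Measurable fun h : ℕ → ℕ => D {b | h ∘ b ∈ s} :=
    measurable_measure_prodMk_left (measurable_comp hs)
  rw [cmp_apply' _ _ hs, lintegral_cmp _ _ h1, cmp_apply' _ _ hs]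
  refine lintegral_congr fun g => ?_
  have h2 : MeasurableSet {b : ℕ → ℕ | g ∘ b ∈ s} :=
    (measurable_comp.comp (measurable_const.prodMk measurable_id)) hs
  rw [cmp_apply' _ _ h2]
  rfl

theorem cmp_dirac (μ : Measure (ℕ → ℕ)) [SFinite μ] : cmp μ (Measure.dirac id) = μ := by
  ext s hs
  have h1 : Measurable fun b : ℕ → ℕ => μ {g | g ∘ b ∈ s} :=
    measurable_measure_prodMk_right (measurable_comp hs)
  rw [cmp_apply _ _ hs, lintegral_dirac' _ h1]
  rfl

theorem dirac_cmp (μ : Measure (ℕ → ℕ)) [SFinite μ] : cmp (Measure.dirac id) μ = μ := by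
  ext s hs
  have h1 : Measurable fun g : ℕ → ℕ => μ {b | g ∘ b ∈ s} :=
    measurable_measure_prodMk_left (measurable_comp hs)
  rw [cmp_apply' _ _ hs, lintegral_dirac' _ h1]
  rfl

theorem cmp_sum (μ : ℕ → Measure (ℕ → ℕ)) (C : Measure (ℕ → ℕ)) [∀ n, SFinite (μ n)] [SFinite C] :
    cmp (Measure.sum μ) C = Measure.sum fun n => cmp (μ n) C := by
  ext s hs
  have h1 : Measurable fun g : ℕ → ℕ => C {b | g ∘ b ∈ s} :=
    measurable_measure_prodMk_left (measurable_comp hs)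
  rw [cmp_apply' _ _ hs, lintegral_sum_measure, Measure.sum_apply _ hs]
  refine tsum_congr fun n => ?_
  rw [cmp_apply' _ _ hs]

theorem ae_cmp {μ C : Measure (ℕ → ℕ)} [SFinite μ] [SFinite C] {P Q R : (ℕ → ℕ) → Prop}
    (hR : MeasurableSet {g | R g}) (h : ∀ g b, P g → Q b → R (g ∘ b))
    (hP : ∀ᵐ g ∂μ, P g) (hQ : ∀ᵐ b ∂C, Q b) : ∀ᵐ g ∂(cmp μ C), R g := by
  unfold cmp
  rw [ae_map_iff measurable_comp.aemeasurable hR]
  have h1 : ∀ᵐ p ∂(μ.prod C), P p.1 := Measure.quasiMeasurePreserving_fst.ae hP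
  have h2 : ∀ᵐ p ∂(μ.prod C), Q p.2 := Measure.quasiMeasurePreserving_snd.ae hQ
  filter_upwards [h1, h2] with p hp hq
  exact h _ _ hp hq

theorem measurableSet_seg : MeasurableSet {g | Seg g} := by
  have : {g | Seg g} = ⋂ x, {g | ∀ v < g x, ∃ y < x, g y = v} := by
    ext g; simp [Seg]
  rw [this]
  refine MeasurableSet.iInter fun x => measurableSet_of_dep (x + 1) _ ?_
  intro g g' hg h v hv
  rw [← hg x (by omega)] at hv
  obtain ⟨y, hy, e⟩ := h v hv
  exact ⟨y, hy, by rw [← hg y (by omega)]; exact e⟩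

/-! ### Kernels -/

/-- The two maps have the same kernel on the first `r` levels. -/
def KEq (r : ℕ) (g g' : ℕ → ℕ) : Prop := ∀ x < r, ∀ y < r, (g x = g y ↔ g' x = g' y)

theorem KEq.symm {r : ℕ} {g g' : ℕ → ℕ} (h : KEq r g g') : KEq r g' g :=
  fun x hx y hy => (h x hx y hy).symm

theorem KEq.mono {r s : ℕ} {g g' : ℕ → ℕ} (h : KEq r g g') (hs : s ≤ r) : KEq s g g' :=
  fun x hx y hy => h x (by omega) y (by omega)

theorem kEq_of_eq {r : ℕ} {g g' : ℕ → ℕ} (h : ∀ x < r, g x = g' x) : KEq r g g' := by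
  intro x hx y hy
  rw [h x hx, h y hy]

/-- The kernel of the random map has an exchangeable law, where level `0` is kept apart. -/
def ExK (μ : Measure (ℕ → ℕ)) : Prop :=
  ∀ (r : ℕ) (i : ℕ → ℕ), i 0 = 0 → Set.InjOn i (Set.Iio r) →
    ∀ P : (ℕ → ℕ) → Prop, (∀ g g', KEq r g g' → P g → P g') →
      μ {g | P (g ∘ i)} = μ {g | P g}

theorem ExK.lintegral {μ : Measure (ℕ → ℕ)} (h : ExK μ) (r : ℕ) (i : ℕ → ℕ) (h0 : i 0 = 0)
    (hi : Set.InjOn i (Set.Iio r)) (F : (ℕ → ℕ) → ℝ≥0∞) (hF : ∀ g g', KEq r g g' → F g = F g') :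
    ∫⁻ g, F (g ∘ i) ∂μ = ∫⁻ g, F g ∂μ := by
  have hm : Measurable F := measurable_of_dep r F fun g g' hg => hF g g' (kEq_of_eq hg)
  have hm' : Measurable fun g : ℕ → ℕ => F (g ∘ i) := hm.comp (measurable_comp_right i)
  have h1 : μ.map (fun g => F (g ∘ i)) = μ.map F := by
    ext s hs
    rw [Measure.map_apply hm' hs, Measure.map_apply hm hs]
    refine h r i h0 hi (fun g => F g ∈ s) fun g g' hg hs' => ?_
    rw [← hF g g' hg]; exact hs'
  calc ∫⁻ g, F (g ∘ i) ∂μ = ∫⁻ y, y ∂(μ.map fun g => F (g ∘ i)) :=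
        (lintegral_map measurable_id hm').symm
    _ = ∫⁻ y, y ∂(μ.map F) := by rw [h1]
    _ = ∫⁻ g, F g ∂μ := lintegral_map measurable_id hm

theorem ExK.sum {μ : ℕ → Measure (ℕ → ℕ)} (h : ∀ n, ExK (μ n)) : ExK (Measure.sum μ) := by
  intro r i h0 hi P hP
  have h1 : MeasurableSet {g | P g} :=
    measurableSet_of_dep r P fun g g' hg => hP g g' (kEq_of_eq hg)
  have h2 : MeasurableSet {g | P (g ∘ i)} := (measurable_comp_right i) h1
  rw [Measure.sum_apply _ h1, Measure.sum_apply _ h2]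
  exact tsum_congr fun n => h n r i h0 hi P hP

/-! ### Relabelling -/

/-- `y` is the first level of its block. -/
def Ldr (h : ℕ → ℕ) (y : ℕ) : Prop := ∀ z < y, h z ≠ h y

/-- The first level of the block of `x`. -/
noncomputable def fst' (h : ℕ → ℕ) (x : ℕ) : ℕ := sInf {y | h y = h x}

open Classical in
/-- The number of the block of `x`. -/
noncomputable def lab (h : ℕ → ℕ) (x : ℕ) : ℕ := Nat.count (Ldr h) (fst' h x)

open Classical in
/-- A representative of the block with number `k`. -/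
noncomputable def rep (h : ℕ → ℕ) (k : ℕ) : ℕ := h (Nat.nth (Ldr h) k)

theorem fst'_spec (h : ℕ → ℕ) (x : ℕ) : h (fst' h x) = h x := by
  have : fst' h x ∈ {y | h y = h x} := Nat.sInf_mem ⟨x, rfl⟩
  exact this

theorem fst'_le (h : ℕ → ℕ) (x : ℕ) : fst' h x ≤ x := Nat.sInf_le rfl

theorem fst'_le_of (h : ℕ → ℕ) {x y : ℕ} (e : h y = h x) : fst' h x ≤ y := Nat.sInf_le e

theorem ldr_fst' (h : ℕ → ℕ) (x : ℕ) : Ldr h (fst' h x) := by
  intro z hz e
  rw [fst'_spec h x] at e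
  have := fst'_le_of h e
  omega

theorem rep_lab (h : ℕ → ℕ) (x : ℕ) : rep h (lab h x) = h x := by
  classical
  unfold rep lab
  rw [Nat.nth_count (ldr_fst' h x), fst'_spec h x]

theorem lab_eq_iff (h : ℕ → ℕ) (x y : ℕ) : lab h x = lab h y ↔ h x = h y := by
  constructor
  · intro e
    rw [← rep_lab h x, ← rep_lab h y, e]
  · intro e
    unfold lab fst'
    rw [e]

theorem ldr_zero (h : ℕ → ℕ) : Ldr h 0 := fun z hz => by omega

theorem lab_zero (h : ℕ → ℕ) : lab h 0 = 0 := by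
  unfold lab
  have : fst' h 0 = 0 := by have := fst'_le h 0; omega
  rw [this]; simp

theorem rep_zero (h : ℕ → ℕ) : rep h 0 = h 0 := by
  have := rep_lab h 0
  rwa [lab_zero] at this

open Classical in
theorem lab_lt (h : ℕ → ℕ) {x r : ℕ} (hx : x < r) : lab h x < Nat.count (Ldr h) r := by
  unfold lab
  exact Nat.count_strict_mono (ldr_fst' h x) (lt_of_le_of_lt (fst'_le h x) hx)

open Classical in
theorem rep_injOn (h : ℕ → ℕ) (r : ℕ) : Set.InjOn (rep h) (Set.Iio (Nat.count (Ldr h) r)) := by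
  have key : ∀ a, a < Nat.count (Ldr h) r → Ldr h (Nat.nth (Ldr h) a) ∧
      Nat.count (Ldr h) (Nat.nth (Ldr h) a) = a := by
    intro a ha
    have h1 : ∀ hf : (Set.ofPred (Ldr h)).Finite, a < hf.toFinset.card := by
      intro hf
      exact lt_of_lt_of_le ha (by
        rw [Nat.count_eq_card_filter_range]
        refine Finset.card_le_card fun y hy => ?_
        simp only [Finset.mem_filter, Finset.mem_range, Set.Finite.mem_toFinset] at hy ⊢
        exact hy.2)
    exact ⟨Nat.nth_mem a h1, Nat.count_nth h1⟩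
  intro a ha b hb e
  obtain ⟨ha1, ha2⟩ := key a ha
  obtain ⟨hb1, hb2⟩ := key b hb
  unfold rep at e
  have : Nat.nth (Ldr h) a = Nat.nth (Ldr h) b := by
    rcases lt_trichotomy (Nat.nth (Ldr h) a) (Nat.nth (Ldr h) b) with hlt | he | hlt
    · exact absurd e (hb1 _ hlt)
    · exact he
    · exact absurd e.symm (ha1 _ hlt)
  rw [← ha2, ← hb2, this]

theorem KEq.ldr {r : ℕ} {g g' : ℕ → ℕ} (h : KEq r g g') {y : ℕ} (hy : y < r) :
    Ldr g y ↔ Ldr g' y := by
  unfold Ldr
  refine forall₂_congr fun z hz => not_congr (h z (by omega) y hy)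

theorem KEq.fst' {r : ℕ} {g g' : ℕ → ℕ} (h : KEq r g g') {y : ℕ} (hy : y < r) :
    fst' g y = fst' g' y := by
  apply le_antisymm
  · apply fst'_le_of
    have := fst'_le g' y
    exact (h _ (by omega) _ hy).2 (fst'_spec g' y)
  · apply fst'_le_of
    have := fst'_le g y
    exact (h _ (by omega) _ hy).1 (fst'_spec g y)

open Classical in
theorem KEq.count {r : ℕ} {g g' : ℕ → ℕ} (h : KEq r g g') {y : ℕ} (hy : y ≤ r) :
    Nat.count (Ldr g) y = Nat.count (Ldr g') y := by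
  rw [Nat.count_eq_card_filter_range, Nat.count_eq_card_filter_range]
  congr 1
  refine Finset.filter_congr fun z hz => ?_
  exact h.ldr (lt_of_lt_of_le (Finset.mem_range.1 hz) hy)

theorem KEq.lab {r : ℕ} {g g' : ℕ → ℕ} (h : KEq r g g') {y : ℕ} (hy : y < r) :
    lab g y = lab g' y := by
  classical
  unfold Pool.Agent.Helper97.LD.lab
  rw [h.fst' hy]
  exact h.count (le_trans (fst'_le _ _) hy.le)

theorem relabel {μ : Measure (ℕ → ℕ)} (hμ : ExK μ) (r : ℕ) (P : (ℕ → ℕ) → Prop)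
    (hP : ∀ g g', KEq r g g' → P g → P g') (h : ℕ → ℕ) (h0 : h 0 = 0) :
    μ {g | P (g ∘ h)} = μ {g | P (g ∘ lab h)} := by
  classical
  have h1 := hμ (Nat.count (Ldr h) r) (rep h) (by rw [rep_zero, h0]) (rep_injOn h r)
    (fun g => P (g ∘ lab h)) ?_
  · rw [← h1]
    have : rep h ∘ lab h = h := by funext x; exact rep_lab h x
    simp only [Function.comp_assoc, this]
  · intro g g' hg
    apply hP
    intro x hx y hy
    exact hg _ (lab_lt h hx) _ (lab_lt h hy)

/-- The composition of two laws with exchangeable kernels. -/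
theorem ExK.cmp {μ C : Measure (ℕ → ℕ)} [SFinite μ] [SFinite C] (hμ : ExK μ) (hC : ExK C)
    (h0 : ∀ᵐ b ∂C, b 0 = 0) : ExK (cmp μ C) := by
  intro r i hi0 hi P hP
  have hPm : MeasurableSet {g | P g} :=
    measurableSet_of_dep r P fun g g' hg => hP g g' (kEq_of_eq hg)
  have hPm' : MeasurableSet {g | P (g ∘ i)} := (measurable_comp_right i) hPm
  rw [cmp_apply _ _ hPm, cmp_apply _ _ hPm']
  simp only [Set.mem_ofPred_eq]
  set F : (ℕ → ℕ) → ℝ≥0∞ := fun h => μ {g | P (g ∘ lab h)} with hFdef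
  have hF : ∀ g g', KEq r g g' → F g = F g' := by
    intro g g' hg
    simp only [hFdef]
    congr 1
    ext f
    simp only [Set.mem_ofPred_eq]
    have h2 : KEq r (f ∘ lab g) (f ∘ lab g') := by
      refine kEq_of_eq fun x hx => ?_
      simp [hg.lab hx]
    exact ⟨hP _ _ h2, hP _ _ h2.symm⟩
  have e1 : ∫⁻ b, μ {g | P (g ∘ b)} ∂C = ∫⁻ b, F b ∂C := by
    refine lintegral_congr_ae ?_
    filter_upwards [h0] with b hb
    exact relabel hμ r P hP b hb
  have e2 : ∫⁻ b, μ {g | P ((g ∘ b) ∘ i)} ∂C = ∫⁻ b, F (b ∘ i) ∂C := by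
    refine lintegral_congr_ae ?_
    filter_upwards [h0] with b hb
    exact relabel hμ r P hP (b ∘ i) (by simp [hi0, hb])
  rw [e1, e2]
  exact hC.lintegral r i hi0 hi F hF

end Pool.Agent.Helper97.LD
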