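import Pool.Agent.Helper97.LD.Atom

/-!
# Finite compositions of the lookdown maps of independent atoms
-/

set_option autoImplicit false

namespace Pool.Agent.Helper97.LD

open MeasureTheory ProbabilityTheory
open scoped ENNReal

/-- The law of the composition of the lookdown maps of independent atoms with the given sizes. -/
noncomputable def comps : List ℝ → Measure (ℕ → ℕ)
  | [] => Measure.dirac id
  | u :: l => cmp (atom u) (comps l)

instance comps_prob (l : List ℝ) : IsProbabilityMeasure (comps l) := by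
  induction l with
  | nil => unfold comps; infer_instance
  | cons u l ih => unfold comps; infer_instance

theorem comps_nice (l : List ℝ) : Nice (comps l) := by
  induction l with
  | nil => exact nice_dirac
  | cons u l ih => exact (nice_atom u).cmp ih

/-- The product of the numbers `1 - u`. -/
noncomputable def ww (l : List ℝ) : ℝ≥0∞ := (l.map fun u => ENNReal.ofReal (1 - u)).prod

@[simp] theorem ww_nil : ww [] = 1 := rfl

@[simp] theorem ww_cons (u : ℝ) (l : List ℝ) : ww (u :: l) = ENNReal.ofReal (1 - u) * ww l := rfl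

theorem ww_le_one {l : List ℝ} (h : ∀ u ∈ l, 0 ≤ u) : ww l ≤ 1 := by
  induction l with
  | nil => simp
  | cons u l ih =>
    rw [ww_cons]
    have h1 : ENNReal.ofReal (1 - u) ≤ 1 := by
      rw [ENNReal.ofReal_le_one]
      have := h u (by simp)
      linarith
    exact mul_le_one' h1 (ih fun v hv => h v (by simp [hv]))

theorem comps_inv {l : List ℝ} (h : ∀ u ∈ l, 0 ≤ u) (m : ℕ) :
    m * (ww l * ∫⁻ b, ((nb b m : ℕ) : ℝ≥0∞)⁻¹ ∂(comps l)) ≤ 1 := by
  induction l with
  | nil =>
    simp only [ww_nil, one_mul, comps]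
    rw [lintegral_dirac' _ (measurable_inv_nb m), nb_id]
    exact ENNReal.mul_inv_le_one _
  | cons u l ih =>
    have ih := ih fun v hv => h v (by simp [hv])
    refine le_trans ?_ ih
    rw [ww_cons]
    simp only [comps]
    rw [lintegral_cmp' _ _ (measurable_inv_nb m)]
    have h1 : ENNReal.ofReal (1 - u) * ∫⁻ b, ∫⁻ g, ((nb (g ∘ b) m : ℕ) : ℝ≥0∞)⁻¹ ∂(atom u)
        ∂(comps l) ≤ ∫⁻ b, ((nb b m : ℕ) : ℝ≥0∞)⁻¹ ∂(comps l) := by
      rw [← lintegral_const_mul' _ _ (by simp)]
      refine lintegral_mono_ae ?_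
      filter_upwards [(comps_nice l).seg] with b hb
      have h2 := atom_inv (h u (by simp)) (nb b m)
      simp only [nb_comp _ hb]
      rw [ENNReal.le_inv_iff_mul_le]
      calc (ENNReal.ofReal (1 - u) * ∫⁻ g, ((nb g (nb b m) : ℕ) : ℝ≥0∞)⁻¹ ∂(atom u)) *
          ((nb b m : ℕ) : ℝ≥0∞) = ((nb b m : ℕ) : ℝ≥0∞) * (ENNReal.ofReal (1 - u) *
            ∫⁻ g, ((nb g (nb b m) : ℕ) : ℝ≥0∞)⁻¹ ∂(atom u)) := by ring
        _ ≤ 1 := h2
    calc (m : ℝ≥0∞) * (ENNReal.ofReal (1 - u) * ww l *
        ∫⁻ b, ∫⁻ g, ((nb (g ∘ b) m : ℕ) : ℝ≥0∞)⁻¹ ∂(atom u) ∂(comps l))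
        = m * (ww l * (ENNReal.ofReal (1 - u) *
          ∫⁻ b, ∫⁻ g, ((nb (g ∘ b) m : ℕ) : ℝ≥0∞)⁻¹ ∂(atom u) ∂(comps l))) := by ring
      _ ≤ _ := by gcongr

theorem comps_fail {q : ℝ≥0∞} (l : List ℝ) (h : ∀ u ∈ l, 0 ≤ u ∧ u ≤ 1) :
    ∀ {S : Measure (ℕ → ℕ)} [SFinite S], Nice S → TB S q →
      q * failMass S (comps l) ≤ (l.map fun u => ENNReal.ofReal u).sum := by
  induction l with
  | nil =>
    intro S _ hS hT
    have : failMass S (comps []) = 0 := by
      unfold failMass comps
      rw [← lintegral_zero (μ := S)]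
      refine lintegral_congr fun g => ?_
      have hg : MeasurableSet {b : ℕ → ℕ | Fail g b} := measurable_prodMk_left meas_fail
      rw [Measure.dirac_apply' _ hg, Set.indicator_of_notMem]
      exact not_fail_id
    rw [this]; simp
  | cons u l ih =>
    intro S _ hS hT
    have hu := h u (by simp)
    have ih := ih (fun v hv => h v (by simp [hv])) (S := cmp S (atom u)) (hS.cmp (nice_atom u))
      (hT.cmp (nice_atom u))
    simp only [comps, List.map_cons, List.sum_cons]
    calc q * failMass S (cmp (atom u) (comps l)) ≤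
        q * (failMass S (atom u) + failMass (cmp S (atom u)) (comps l)) := by
          gcongr
          exact failMass_comp (comps_nice l).seg inferInstance
      _ = q * failMass S (atom u) + q * failMass (cmp S (atom u)) (comps l) := mul_add _ _ _
      _ ≤ _ := add_le_add (atom_failMass hS.ex hT hu.1 hu.2) ih

theorem Pat.congr {x y : ℕ} {b b' : ℕ → ℕ} (h : ∀ j ≤ y, b j = b' j) (hb : Pat x y b) :
    Pat x y b' := by
  obtain ⟨⟨h1, h2, h3, h4⟩, h5⟩ := hb
  refine ⟨⟨h1, ?_, ?_, fun j hj hjx => ?_⟩, ?_⟩
  · rw [← h x h1.le, ← h 0 (by omega)]; exact h2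
  · rw [← h y le_rfl, ← h 0 (by omega)]; exact h3
  · rw [← h j hj.le, ← h 0 (by omega)]; exact h4 j hj hjx
  · rw [← h x h1.le, ← h y le_rfl]; exact h5

/-- The probability that an atom of size `u` does not change the levels `0, …, y`. -/
noncomputable def hid (y : ℕ) (u : ℝ) : ℝ≥0∞ := atom u {b | ∀ j ≤ y, b j = j}

theorem hid_le_one (y : ℕ) (u : ℝ) : hid y u ≤ 1 := prob_le_one

theorem measurable_hid (y : ℕ) : Measurable (hid y) := by
  have h1 : Measurable fun p : ℝ × (ℕ → ℝ) => shiftDown (parts p.1 p.2) := by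
    refine measurable_shiftDown fun x => ?_
    exact measurableSet_lt ((measurable_pi_apply x).comp measurable_snd) measurable_fst
  have h2 : hid y = fun u => marks (Prod.mk u ⁻¹'
      ((fun p : ℝ × (ℕ → ℝ) => shiftDown (parts p.1 p.2)) ⁻¹' {b | ∀ j ≤ y, b j = j})) := by
    funext u
    unfold hid atom
    rw [Measure.map_apply (measurable_parts u) (meas_idOn y)]
    rfl
  rw [h2]
  exact measurable_measure_prodMk_left (h1 (meas_idOn y))

theorem comps_hid (l : List ℝ) (y : ℕ) :
    (l.map (hid y)).prod ≤ comps l {b | ∀ j ≤ y, b j = j} := by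
  induction l with
  | nil =>
    simp only [List.map_nil, List.prod_nil, comps]
    rw [Measure.dirac_apply' _ (meas_idOn y), Set.indicator_of_mem]
    · rfl
    · intro j _; rfl
  | cons u l ih =>
    simp only [comps, List.map_cons, List.prod_cons]
    calc hid y u * (l.map (hid y)).prod
        ≤ atom u {b | ∀ j ≤ y, b j = j} * comps l {b | ∀ j ≤ y, b j = j} :=
          mul_le_mul' le_rfl ih
      _ = ((atom u).prod (comps l)) ({b | ∀ j ≤ y, b j = j} ×ˢ {b | ∀ j ≤ y, b j = j}) := by
          rw [Measure.prod_prod]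
      _ ≤ _ := by
          unfold cmp
          rw [Measure.map_apply measurable_comp (meas_idOn y)]
          refine measure_mono ?_
          rintro ⟨g, b⟩ ⟨hg, hb⟩ j hj
          simp only [Set.mem_ofPred_eq] at hg hb
          simp only [Function.comp_apply, hb j hj, hg j hj]

theorem comps_pat (l : List ℝ) {x y : ℕ} (hx : 1 ≤ x) (hxy : x < y)
    {u : ℝ} (hu : u ∈ l) (h0 : 0 ≤ u) (h1 : u ≤ 1) :
    (ENNReal.ofReal u * ENNReal.ofReal (1 - u)) ^ (y + 1) * (l.map (hid y)).prod ≤
      comps l {b | Pat x y b} := by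
  induction l with
  | nil => simp at hu
  | cons a l ih =>
    simp only [comps, List.map_cons, List.prod_cons]
    rcases List.mem_cons.1 hu with e | e
    · subst e
      calc (ENNReal.ofReal u * ENNReal.ofReal (1 - u)) ^ (y + 1) *
            (hid y u * (l.map (hid y)).prod)
          ≤ (ENNReal.ofReal u * ENNReal.ofReal (1 - u)) ^ (y + 1) *
            (1 * (l.map (hid y)).prod) := by
            gcongr
            exact hid_le_one y u
        _ = (ENNReal.ofReal u * ENNReal.ofReal (1 - u)) ^ (y + 1) * (l.map (hid y)).prod := by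
            rw [one_mul]
        _ ≤ atom u {b | Pat x y b} * comps l {b | ∀ j ≤ y, b j = j} :=
            mul_le_mul' (atom_pat h0 h1 hx hxy) (comps_hid l y)
        _ = ((atom u).prod (comps l)) ({b | Pat x y b} ×ˢ {b | ∀ j ≤ y, b j = j}) := by
            rw [Measure.prod_prod]
        _ ≤ _ := by
            unfold cmp
            rw [Measure.map_apply measurable_comp (meas_pat x y)]
            refine measure_mono ?_
            rintro ⟨g, b⟩ ⟨hg, hb⟩
            simp only [Set.mem_ofPred_eq] at hg hb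
            exact Pat.congr (fun j hj => by simp [hb j hj]) hg
    · have ih := ih e
      calc (ENNReal.ofReal u * ENNReal.ofReal (1 - u)) ^ (y + 1) *
            (hid y a * (l.map (hid y)).prod)
          = hid y a *
            ((ENNReal.ofReal u * ENNReal.ofReal (1 - u)) ^ (y + 1) * (l.map (hid y)).prod) := by
            ring
        _ ≤ atom a {b | ∀ j ≤ y, b j = j} * comps l {b | Pat x y b} :=
            mul_le_mul' le_rfl ih
        _ = ((atom a).prod (comps l)) ({b | ∀ j ≤ y, b j = j} ×ˢ {b | Pat x y b}) := by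
            rw [Measure.prod_prod]
        _ ≤ _ := by
            unfold cmp
            rw [Measure.map_apply measurable_comp (meas_pat x y)]
            apply measure_mono_ae
            have h2 : ∀ᵐ p ∂((atom a).prod (comps l)), Seg p.2 :=
              Measure.quasiMeasurePreserving_snd.ae (comps_nice l).seg
            filter_upwards [h2] with p hp hp2
            obtain ⟨hg, hb⟩ := hp2
            refine Pat.congr (b := p.2) (fun j hj => ?_) hb
            have h3 : p.2 j ≤ j := (hp.le_nb j).trans (hp.nb_le j)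
            exact (hg (p.2 j) (by omega)).symm

end Pool.Agent.Helper97.LD
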