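import Mathlib

/-!
# Deterministic facts on lookdown maps

A lookdown map `g : ℕ → ℕ` sends a level to the level of its ancestor.  It has the segment property
`Seg`: every value smaller than `g x` has been taken before `x`.
-/

set_option autoImplicit false

namespace Pool.Agent.Helper97.LD

/-- The number of elements of `J` which are smaller than `x`. -/
noncomputable def below (J : Set ℕ) (x : ℕ) : ℕ := (J ∩ Set.Iio x).ncard

open Classical in
/-- Looking down through one atom with set of participating levels `J`: the level whose type just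
before the atom is carried by level `x` just after the atom.  A participating level takes the
type of the lowest participating level; the types on the other levels are shifted upward: the
type of a nonparticipating level `x` comes from the level `x - (#{y < x, y ∈ J} - 1)⁺`
(subtraction of natural numbers). -/
noncomputable def shiftDown (J : Set ℕ) (x : ℕ) : ℕ :=
  if x ∈ J then sInf J else x - (below J x - 1)

/-- Every value smaller than `g x` is taken before `x`. -/
def Seg (g : ℕ → ℕ) : Prop := ∀ x, ∀ v < g x, ∃ y < x, g y = v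

/-- The number of ancestors of the levels `0, …, m - 1`. -/
def nb (g : ℕ → ℕ) (m : ℕ) : ℕ := (Finset.range m).sup fun y => g y + 1

/-- The ancestor of level `m` is not an ancestor of the levels `0, …, m - 1`. -/
def New (g : ℕ → ℕ) (m : ℕ) : Prop := g m = nb g m

theorem Seg.zero {g : ℕ → ℕ} (h : Seg g) : g 0 = 0 := by
  by_contra h0
  obtain ⟨y, hy, _⟩ := h 0 0 (Nat.pos_of_ne_zero h0)
  exact absurd hy (by omega)

@[simp] theorem nb_zero (g : ℕ → ℕ) : nb g 0 = 0 := rfl

theorem nb_succ (g : ℕ → ℕ) (m : ℕ) : nb g (m + 1) = max (nb g m) (g m + 1) := by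
  unfold nb
  rw [Finset.range_add_one, Finset.sup_insert, sup_comm]

theorem nb_mono (g : ℕ → ℕ) : Monotone (nb g) := by
  refine monotone_nat_of_le_succ fun n => ?_
  rw [nb_succ]; exact le_max_left _ _

theorem lt_nb_of_lt (g : ℕ → ℕ) {y m : ℕ} (h : y < m) : g y < nb g m := by
  have : g y + 1 ≤ nb g m := Finset.le_sup (f := fun y => g y + 1) (Finset.mem_range.2 h)
  omega

theorem Seg.lt_nb_iff {g : ℕ → ℕ} (h : Seg g) (m v : ℕ) : v < nb g m ↔ ∃ y < m, g y = v := by
  constructor
  · intro hv
    induction m with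
    | zero => simp at hv
    | succ m ih =>
      rw [nb_succ, lt_max_iff] at hv
      rcases hv with hv | hv
      · obtain ⟨y, hy, e⟩ := ih hv
        exact ⟨y, by omega, e⟩
      · rcases Nat.lt_succ_iff_lt_or_eq.1 hv with h1 | h1
        · obtain ⟨y, hy, e⟩ := h m v h1
          exact ⟨y, by omega, e⟩
        · exact ⟨m, by omega, h1.symm⟩
  · rintro ⟨y, hy, rfl⟩
    exact lt_nb_of_lt g hy

theorem Seg.le_nb {g : ℕ → ℕ} (h : Seg g) (m : ℕ) : g m ≤ nb g m := by
  by_contra hlt
  push Not at hlt
  obtain ⟨y, hy, e⟩ := h m _ hlt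
  have := lt_nb_of_lt g hy
  omega

theorem Seg.nb_le {g : ℕ → ℕ} (h : Seg g) (m : ℕ) : nb g m ≤ m := by
  induction m with
  | zero => simp
  | succ m ih =>
    rw [nb_succ]
    have := h.le_nb m
    omega

theorem Seg.nb_pos {g : ℕ → ℕ} (_h : Seg g) {m : ℕ} (hm : 0 < m) : 0 < nb g m := by
  have := lt_nb_of_lt g hm
  omega

theorem Seg.not_new_iff {g : ℕ → ℕ} (h : Seg g) (m : ℕ) : ¬ New g m ↔ ∃ y < m, g y = g m := by
  rw [← h.lt_nb_iff]
  unfold New
  have := h.le_nb m
  omega

theorem nb_succ_of_new {g : ℕ → ℕ} {m : ℕ} (h : New g m) : nb g (m + 1) = nb g m + 1 := by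
  rw [nb_succ, h]; omega

theorem Seg.nb_succ_of_not_new {g : ℕ → ℕ} (hs : Seg g) {m : ℕ} (h : ¬ New g m) :
    nb g (m + 1) = nb g m := by
  rw [nb_succ]
  have := hs.le_nb m
  unfold New at h
  omega

theorem seg_id : Seg id := fun _ v hv => ⟨v, hv, rfl⟩

theorem nb_id (m : ℕ) : nb id m = m := by
  induction m with
  | zero => rfl
  | succ m ih => rw [nb_succ, ih]; simp

theorem Seg.comp {g b : ℕ → ℕ} (hg : Seg g) (hb : Seg b) : Seg (g ∘ b) := by
  intro x v hv
  obtain ⟨y, hy, e⟩ := hg (b x) v hv
  obtain ⟨z, hz, e'⟩ := hb x y hy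
  exact ⟨z, hz, by simp [e', e]⟩

theorem nb_comp (g : ℕ → ℕ) {b : ℕ → ℕ} (hb : Seg b) (m : ℕ) : nb (g ∘ b) m = nb g (nb b m) := by
  apply le_antisymm
  · refine Finset.sup_le fun y hy => ?_
    have := lt_nb_of_lt g (lt_nb_of_lt b (Finset.mem_range.1 hy))
    exact this
  · refine Finset.sup_le fun v hv => ?_
    obtain ⟨y, hy, e⟩ := (hb.lt_nb_iff m v).1 (Finset.mem_range.1 hv)
    have := lt_nb_of_lt (g ∘ b) hy
    simp only [Function.comp_apply, e] at this
    exact this

theorem new_comp {g b : ℕ → ℕ} (hg : Seg g) (hb : Seg b) (m : ℕ) :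
    New (g ∘ b) m ↔ New b m ∧ New g (nb b m) := by
  constructor
  · intro h
    have hbn : New b m := by
      by_contra hn
      rw [hb.not_new_iff] at hn
      obtain ⟨y, hy, e⟩ := hn
      have : ¬ New (g ∘ b) m := (hg.comp hb).not_new_iff m |>.2 ⟨y, hy, by simp [e]⟩
      exact this h
    refine ⟨hbn, ?_⟩
    unfold New at h hbn ⊢
    rw [nb_comp g hb, Function.comp_apply, hbn] at h
    exact h
  · rintro ⟨h1, h2⟩
    unfold New at h1 h2 ⊢
    rw [nb_comp g hb, Function.comp_apply, h1]
    exact h2

/-! ### The first two levels whose ancestor is not the ancestor of level `0` -/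

/-- `x < y` are the first two levels whose ancestor differs from that of level `0`. -/
def Fst2 (g : ℕ → ℕ) (x y : ℕ) : Prop :=
  x < y ∧ g x ≠ g 0 ∧ g y ≠ g 0 ∧ ∀ j < y, j ≠ x → g j = g 0

theorem Fst2.unique {g : ℕ → ℕ} {x y x' y' : ℕ} (h : Fst2 g x y) (h' : Fst2 g x' y') :
    x = x' ∧ y = y' := by
  obtain ⟨h1, h2, h3, h4⟩ := h
  obtain ⟨h1', h2', h3', h4'⟩ := h'
  have hx : x = x' := by
    rcases lt_trichotomy x x' with hlt | he | hlt
    · exact absurd (h4' x (by omega) (by omega)) h2
    · exact he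
    · exact absurd (h4 x' (by omega) (by omega)) h2'
  subst hx
  refine ⟨rfl, ?_⟩
  rcases lt_trichotomy y y' with hlt | he | hlt
  · exact absurd (h4' y hlt (by omega)) h3
  · exact he
  · exact absurd (h4 y' hlt (by omega)) h3'

theorem exists_fst2 {g : ℕ → ℕ} {a b : ℕ} (hab : a ≠ b) (ha : g a ≠ g 0) (hb : g b ≠ g 0) :
    ∃ x y, Fst2 g x y := by
  classical
  have hx : ∃ x, g x ≠ g 0 := ⟨a, ha⟩
  have hy : ∃ y, Nat.find hx < y ∧ g y ≠ g 0 := by
    rcases lt_or_ge (Nat.find hx) a with h | h
    · exact ⟨a, h, ha⟩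
    · refine ⟨b, ?_, hb⟩
      have h1 := Nat.find_min' hx ha
      have h2 := Nat.find_min' hx hb
      omega
  refine ⟨Nat.find hx, Nat.find hy, (Nat.find_spec hy).1, Nat.find_spec hx,
    (Nat.find_spec hy).2, ?_⟩
  intro j hj hjx
  by_contra hne
  rcases lt_or_ge (Nat.find hx) j with h | h
  · exact Nat.find_min hy hj ⟨h, hne⟩
  · exact Nat.find_min hx (lt_of_le_of_ne h hjx) hne

/-- The first two levels of `g ∘ b` have the same ancestor under `b`. -/
def Fail (g b : ℕ → ℕ) : Prop := ∃ x y, Fst2 (g ∘ b) x y ∧ b x = b y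

/-- The first two occurrences of the values `x`, `y` of `b` are at `x'` and `y'`, in this order. -/
def Good (b : ℕ → ℕ) (x y x' y' : ℕ) : Prop :=
  x' < y' ∧ b x' = x ∧ b y' = y ∧ ∀ j < y', j ≠ x' → b j ≠ x ∧ b j ≠ y

theorem good_of_fst2 {g b : ℕ → ℕ} {x y x' y' : ℕ} (hb : Seg b) (h : Fst2 g x y)
    (h' : Fst2 (g ∘ b) x' y') (hne : b x' ≠ b y') : Good b x y x' y' := by
  obtain ⟨h1, h2, h3, h4⟩ := h
  obtain ⟨h1', h2', h3', h4'⟩ := h'
  simp only [Function.comp_apply, hb.zero] at h2' h3' h4'
  have hx : b x' = x := by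
    by_contra hx
    rcases lt_or_ge (b x') y with hlt | hge
    · exact h2' (h4 _ hlt hx)
    · obtain ⟨j, hj, e⟩ := hb x' x (by omega)
      have := h4' j (by omega) (by omega)
      rw [e] at this
      exact h2 this
  have hy : b y' = y := by
    by_contra hy
    rcases lt_or_ge (b y') y with hlt | hge
    · exact h3' (h4 _ hlt (by rw [← hx]; exact fun e => hne e.symm))
    · obtain ⟨j, hj, e⟩ := hb y' y (by omega)
      by_cases hjx : j = x'
      · subst hjx; omega
      · have := h4' j hj hjx
        rw [e] at this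
        exact h3 this
  refine ⟨h1', hx, hy, fun j hj hjx => ⟨fun e => ?_, fun e => ?_⟩⟩
  · have := h4' j hj hjx
    rw [e] at this
    exact h2 this
  · have := h4' j hj hjx
    rw [e] at this
    exact h3 this

theorem fst2_of_good {g b : ℕ → ℕ} {x y x' y' : ℕ} (hb : Seg b) (h : Fst2 g x y)
    (h' : Good b x y x' y') : Fst2 (g ∘ b) x' y' := by
  obtain ⟨h1, h2, h3, h4⟩ := h
  obtain ⟨h1', h2', h3', h4'⟩ := h'
  refine ⟨h1', ?_, ?_, ?_⟩
  · simpa [hb.zero, h2'] using h2
  · simpa [hb.zero, h3'] using h3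
  · intro j hj hjx
    obtain ⟨e1, e2⟩ := h4' j hj hjx
    have hlt : b j < y := by
      by_contra hge
      obtain ⟨i, hi, e⟩ := hb j y (by omega)
      by_cases hix : i = x'
      · subst hix; omega
      · exact (h4' i (by omega) hix).2 e
    simpa [hb.zero] using h4 (b j) hlt e1

theorem Good.unique {b : ℕ → ℕ} {x y x' y' x'' y'' : ℕ} (h : Good b x y x' y')
    (h' : Good b x y x'' y'') : x' = x'' ∧ y' = y'' := by
  obtain ⟨h1, h2, h3, h4⟩ := h
  obtain ⟨h1', h2', h3', h4'⟩ := h'
  have hx : x' = x'' := by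
    rcases lt_trichotomy x' x'' with hlt | he | hlt
    · exact absurd h2 (h4' x' (by omega) (by omega)).1
    · exact he
    · exact absurd h2' (h4 x'' (by omega) (by omega)).1
  subst hx
  refine ⟨rfl, ?_⟩
  rcases lt_trichotomy y' y'' with hlt | he | hlt
  · exact absurd h3 (h4' y' (by omega) (by omega)).2
  · exact he
  · exact absurd h3' (h4 y'' (by omega) (by omega)).2

theorem fail_comp {g b₁ b₂ : ℕ → ℕ} (hb₂ : Seg b₂) (h : Fail g (b₁ ∘ b₂)) :
    Fail g b₁ ∨ Fail (g ∘ b₁) b₂ := by
  obtain ⟨x, y, hf, he⟩ := h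
  by_cases hxy : b₂ x = b₂ y
  · exact Or.inr ⟨x, y, hf, hxy⟩
  left
  obtain ⟨h1, h2, h3, h4⟩ := hf
  simp only [Function.comp_apply, hb₂.zero] at h2 h3 h4 he
  refine ⟨b₂ x, b₂ y, ⟨?_, ?_, ?_, ?_⟩, he⟩
  · by_contra hge
    obtain ⟨j, hj, e⟩ := hb₂ x (b₂ y) (by omega)
    have := h4 j (by omega) (by omega)
    rw [e] at this
    exact h3 this
  · simpa using h2
  · simpa using h3
  · intro v hv hvx
    obtain ⟨j, hj, e⟩ := hb₂ y v hv
    have hjx : j ≠ x := by rintro rfl; exact hvx e.symm
    have := h4 j hj hjx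
    rw [e] at this
    simpa using this

theorem not_fail_id {g : ℕ → ℕ} : ¬ Fail g id := by
  rintro ⟨x, y, hf, he⟩
  have := hf.1
  simp only [id] at he
  omega

/-! ### One atom -/

theorem below_finite (J : Set ℕ) (x : ℕ) : (J ∩ Set.Iio x).Finite :=
  (Set.finite_Iio x).subset Set.inter_subset_right

@[simp] theorem below_zero (J : Set ℕ) : below J 0 = 0 := by
  simp [below]

open Classical in
theorem below_succ (J : Set ℕ) (x : ℕ) : below J (x + 1) = below J x + if x ∈ J then 1 else 0 := by
  unfold below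
  by_cases hx : x ∈ J
  · have : J ∩ Set.Iio (x + 1) = insert x (J ∩ Set.Iio x) := by
      ext y
      simp only [Set.mem_inter_iff, Set.mem_Iio, Set.mem_insert_iff]
      constructor
      · rintro ⟨h1, h2⟩
        by_cases h : y = x
        · exact Or.inl h
        · exact Or.inr ⟨h1, by omega⟩
      · rintro (rfl | ⟨h1, h2⟩)
        · exact ⟨hx, by omega⟩
        · exact ⟨h1, by omega⟩
    rw [this, Set.ncard_insert_of_notMem (by simp) (below_finite J x), if_pos hx]
  · have : J ∩ Set.Iio (x + 1) = J ∩ Set.Iio x := by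
      ext y
      simp only [Set.mem_inter_iff, Set.mem_Iio]
      constructor
      · rintro ⟨h1, h2⟩
        refine ⟨h1, ?_⟩
        have : y ≠ x := by rintro rfl; exact hx h1
        omega
      · rintro ⟨h1, h2⟩
        exact ⟨h1, by omega⟩
    rw [this, if_neg hx, add_zero]

theorem below_mono (J : Set ℕ) : Monotone (below J) := by
  classical
  refine monotone_nat_of_le_succ fun n => ?_
  rw [below_succ]; omega

theorem below_le_sub (J : Set ℕ) (x : ℕ) : below J x ≤ x - sInf J := by
  unfold below
  have h1 : J ∩ Set.Iio x ⊆ Set.Ico (sInf J) x := by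
    rintro y ⟨h1, h2⟩
    exact ⟨Nat.sInf_le h1, h2⟩
  have h2 := Set.ncard_le_ncard h1 (Set.finite_Ico _ _)
  have h3 : (Set.Ico (sInf J) x).ncard = x - sInf J := by
    rw [← Finset.coe_Ico, Set.ncard_coe_finset, Nat.card_Ico]
  omega

theorem below_le (J : Set ℕ) (x : ℕ) : below J x ≤ x := (below_le_sub J x).trans (by omega)

theorem below_eq_zero {J : Set ℕ} {x : ℕ} : below J x = 0 ↔ ∀ p < x, p ∉ J := by
  unfold below
  rw [Set.ncard_eq_zero (below_finite J x), Set.eq_empty_iff_forall_notMem]
  constructor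
  · intro h p hp hpJ
    exact h p ⟨hpJ, hp⟩
  · rintro h p ⟨hp, hx⟩
    exact h p hx hp

theorem sInf_eq_of_first {J : Set ℕ} {x : ℕ} (hx : x ∈ J) (h0 : below J x = 0) : sInf J = x := by
  rw [below_eq_zero] at h0
  have hne : J.Nonempty := ⟨x, hx⟩
  have h1 : sInf J ∈ J := Nat.sInf_mem hne
  have h2 : sInf J ≤ x := Nat.sInf_le hx
  rcases h2.lt_or_eq with h | h
  · exact absurd h1 (h0 _ h)
  · exact h

/-- The image of `0, …, m - 1` under `shiftDown J` is `0, …, m - (#J ∩ [0,m) - 1)⁺ - 1`. -/
theorem shiftDown_image (J : Set ℕ) (m : ℕ) (v : ℕ) :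
    (∃ y < m, shiftDown J y = v) ↔ v < m - (below J m - 1) := by
  classical
  induction m with
  | zero => simp
  | succ m ih =>
    have hcount := below_succ J m
    have hle := below_le J m
    have hsplit : (∃ y < m + 1, shiftDown J y = v) ↔
        (∃ y < m, shiftDown J y = v) ∨ shiftDown J m = v := by
      constructor
      · rintro ⟨y, hy, e⟩
        rcases Nat.lt_succ_iff_lt_or_eq.1 hy with h | h
        · exact Or.inl ⟨y, h, e⟩
        · subst h; exact Or.inr e
      · rintro (⟨y, hy, e⟩ | e)
        · exact ⟨y, by omega, e⟩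
        · exact ⟨m, by omega, e⟩
    rw [hsplit, ih, hcount]
    by_cases hm : m ∈ J
    · simp only [hm, if_true]
      have h1 : shiftDown J m = sInf J := by unfold shiftDown; rw [if_pos hm]
      by_cases h0 : below J m = 0
      · have : shiftDown J m = m := by rw [h1]; exact sInf_eq_of_first hm h0
        rw [this, h0]; omega
      · have h2 := below_le_sub J m
        rw [h1]
        constructor
        · rintro (h | h)
          · omega
          · omega
        · intro h
          left; omega
    · simp only [hm, if_false, add_zero]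
      have h1 : shiftDown J m = m - (below J m - 1) := by
        unfold shiftDown; rw [if_neg hm]
      rw [h1]; omega

theorem shiftDown_seg (J : Set ℕ) : Seg (shiftDown J) := by
  classical
  intro x v hv
  rw [shiftDown_image]
  have h : shiftDown J x < (x + 1) - (below J (x + 1) - 1) :=
    (shiftDown_image J (x + 1) _).1 ⟨x, by omega, rfl⟩
  rw [below_succ] at h
  have hle := below_le J x
  by_cases hx : x ∈ J
  · rw [if_pos hx] at h
    omega
  · rw [if_neg hx] at h
    omega

theorem nb_shiftDown (J : Set ℕ) (m : ℕ) : nb (shiftDown J) m = m - (below J m - 1) := by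
  have h : ∀ v, v < nb (shiftDown J) m ↔ v < m - (below J m - 1) := by
    intro v
    rw [(shiftDown_seg J).lt_nb_iff, shiftDown_image]
  have h1 := h (m - (below J m - 1))
  have h2 := h (nb (shiftDown J) m)
  omega

theorem shiftDown_eq_iff (J : Set ℕ) (x y : ℕ) :
    shiftDown J x = shiftDown J y ↔ x = y ∨ (x ∈ J ∧ y ∈ J) := by
  classical
  -- it suffices to treat `x < y`
  have key : ∀ x y : ℕ, x < y → (shiftDown J x = shiftDown J y ↔ (x ∈ J ∧ y ∈ J)) := by
    intro x y hxy
    constructor
    · intro h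
      have hlt : shiftDown J y < y - (below J y - 1) :=
        (shiftDown_image J y _).1 ⟨x, hxy, h⟩
      have hy : y ∈ J := by
        by_contra hy
        have h1 : shiftDown J y = y - (below J y - 1) := by
          unfold shiftDown; rw [if_neg hy]
        omega
      refine ⟨?_, hy⟩
      by_contra hx
      have h1 : shiftDown J x = x - (below J x - 1) := by
        unfold shiftDown; rw [if_neg hx]
      have h2 : shiftDown J y = sInf J := by unfold shiftDown; rw [if_pos hy]
      rw [h1, h2] at h
      have hm : sInf J ∈ J := Nat.sInf_mem ⟨y, hy⟩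
      have hne : sInf J ≠ x := by rintro e; rw [e] at hm; exact hx hm
      have hle := below_le_sub J x
      have hle' := below_le J x
      rcases lt_or_ge (sInf J) x with hlt' | hge
      · have hpos : below J x ≠ 0 := by
          intro h0
          exact (below_eq_zero.1 h0) _ hlt' hm
        omega
      · have h0 : below J x = 0 := by omega
        omega
    · rintro ⟨hx, hy⟩
      unfold shiftDown; rw [if_pos hx, if_pos hy]
  rcases lt_trichotomy x y with h | h | h
  · rw [key x y h]
    constructor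
    · exact Or.inr
    · rintro (h' | h')
      · omega
      · exact h'
  · simp [h]
  · rw [eq_comm, key y x h]
    constructor
    · exact fun h' => Or.inr ⟨h'.2, h'.1⟩
    · rintro (h' | h')
      · omega
      · exact ⟨h'.2, h'.1⟩

theorem new_shiftDown (J : Set ℕ) (m : ℕ) :
    New (shiftDown J) m ↔ (m ∉ J ∨ ∀ p < m, p ∉ J) := by
  rw [← not_iff_not, (shiftDown_seg J).not_new_iff]
  constructor
  · rintro ⟨y, hy, e⟩
    rw [shiftDown_eq_iff] at e
    rcases e with e | e
    · omega
    · push Not
      exact ⟨e.2, y, hy, e.1⟩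
  · intro h
    push Not at h
    obtain ⟨hm, p, hp, hpJ⟩ := h
    exact ⟨p, hp, (shiftDown_eq_iff J p m).2 (Or.inr ⟨hpJ, hm⟩)⟩

/-- If at most one of the levels `0, …, x` participates, they are not changed. -/
theorem shiftDown_of_not_rel {J : Set ℕ} {x : ℕ} (h : below J (x + 1) ≤ 1) {y : ℕ} (hy : y ≤ x) :
    shiftDown J y = y := by
  classical
  have h1 : below J (y + 1) ≤ 1 := (below_mono J (by omega)).trans h
  have hs := below_succ J y
  by_cases hyJ : y ∈ J
  · rw [if_pos hyJ] at hs
    unfold shiftDown; rw [if_pos hyJ]; exact sInf_eq_of_first hyJ (by omega)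
  · rw [if_neg hyJ] at hs
    unfold shiftDown; rw [if_neg hyJ]; omega

theorem shiftDown_le (J : Set ℕ) (y : ℕ) : shiftDown J y ≤ y :=
  ((shiftDown_seg J).le_nb y).trans ((shiftDown_seg J).nb_le y)

/-- A failure at one atom: the lowest participating level is the first level whose ancestor
is not that of level `0`, and the second lowest participating level is at most the second one. -/
theorem fail_shiftDown {g : ℕ → ℕ} {J : Set ℕ} (h : Fail g (shiftDown J)) :
    ∃ m i, 1 ≤ i ∧ i ≤ m ∧ (∀ j ≤ m + 1, j ∈ J ↔ (j = i ∨ j = m + 1)) ∧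
      (∀ j ≤ m, g j ≠ g 0 ↔ j = i) := by
  classical
  obtain ⟨x, y, ⟨h1, h2, h3, h4⟩, he⟩ := h
  have h00 := (shiftDown_seg J).zero
  simp only [Function.comp_apply, h00] at h2 h3 h4
  rw [shiftDown_eq_iff] at he
  have hxy : x ∈ J ∧ y ∈ J := by
    rcases he with he | he
    · omega
    · exact he
  obtain ⟨hx, hy⟩ := hxy
  -- all participating levels have the same image
  have hJ : ∀ j < y, j ∈ J → j = x := by
    intro j hj hjJ
    by_contra hne
    have e : shiftDown J j = shiftDown J x := (shiftDown_eq_iff J j x).2 (Or.inr ⟨hjJ, hx⟩)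
    have := h4 j hj hne
    rw [e] at this
    exact h2 this
  have hcx : below J x = 0 := by
    rw [below_eq_zero]
    intro p hp hpJ
    have := hJ p (by omega) hpJ
    omega
  -- below `y` the map is the identity
  have hcy : below J y ≤ 1 := by
    unfold below
    rw [Set.ncard_le_one (below_finite J y)]
    rintro a ⟨ha, ha'⟩ b ⟨hb, hb'⟩
    rw [hJ a ha' ha, hJ b hb' hb]
  have hid : ∀ j < y, shiftDown J j = j := by
    intro j hj
    have e : y - 1 + 1 = y := by omega
    exact shiftDown_of_not_rel (x := y - 1) (by rw [e]; exact hcy) (by omega)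
  have hx0 : g x ≠ g 0 := by rw [← hid x h1]; exact h2
  have hxpos : 1 ≤ x := by
    rcases Nat.eq_zero_or_pos x with h | h
    · subst h; exact absurd rfl hx0
    · exact h
  refine ⟨y - 1, x, hxpos, by omega, ?_, ?_⟩
  · intro j hj
    have e : y - 1 + 1 = y := by omega
    rw [e] at hj ⊢
    constructor
    · intro hjJ
      rcases hj.lt_or_eq with h | h
      · exact Or.inl (hJ j h hjJ)
      · exact Or.inr h
    · rintro (h | h)
      · subst h; exact hx
      · subst h; exact hy
  · intro j hj
    constructor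
    · intro hne
      by_contra hjx
      have := h4 j (by omega) hjx
      rw [hid j (by omega)] at this
      exact hne this
    · rintro rfl
      exact hx0

end Pool.Agent.Helper97.LD
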