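import Pool.Agent.Helper97.LD.Hist
import Pool.Agent.Helper97.LD.Lists

/-!
# Measurability and laws of the maps of the windows
-/

set_option autoImplicit false

namespace Pool.Agent.Helper97.LD

open MeasureTheory ProbabilityTheory Filter
open scoped ENNReal NNReal Topology

/-! ### Measurability -/

theorem measurable_of_setDep {α β : Type*} [MeasurableSpace α] [MeasurableSpace β] (n : ℕ)
    (F : Set ℕ → β) (hF : ∀ J J' : Set ℕ, (∀ y < n, y ∈ J ↔ y ∈ J') → F J = F J')
    {J : α → Set ℕ} (hJ : ∀ y, MeasurableSet {a | y ∈ J a}) : Measurable fun a => F (J a) := by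
  let c : α → (Fin n → Prop) := fun a y => (y : ℕ) ∈ J a
  let G : (Fin n → Prop) → β := fun c => F {y | ∃ h : y < n, c ⟨y, h⟩}
  have hc : Measurable c := measurable_pi_iff.2 fun y => measurableSet_setOfPred.1 (hJ y)
  have e : (fun a => F (J a)) = G ∘ c := by
    funext a
    refine hF _ _ fun y hy => ?_
    simp only [c, Set.mem_ofPred_eq]
    exact ⟨fun h => ⟨hy, h⟩, fun ⟨_, h⟩ => h⟩
  rw [e]
  exact (measurable_of_countable G).comp hc

theorem meas_present (a : Name) : MeasurableSet {e : Env | present e a} := by
  unfold present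
  exact measurableSet_lt measurable_const ((measurable_pi_apply a.1).comp measurable_fst)

theorem measurable_pos (a : Name) : Measurable fun e : Env => e.2.1 a :=
  (measurable_pi_apply a).comp (measurable_fst.comp measurable_snd)

theorem measurable_size (a : Name) : Measurable fun e : Env => e.2.2 a :=
  (measurable_pi_apply a).comp (measurable_snd.comp measurable_snd)

theorem meas_before (a b : Name) : MeasurableSet {e : Env | before e a b} := by
  have : {e : Env | before e a b} = {e : Env | e.2.1 a < e.2.1 b} ∪
      ({e : Env | e.2.1 a = e.2.1 b} ∩ {_e | Encodable.encode a < Encodable.encode b}) := by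
    ext e; rfl
  rw [this]
  refine (measurableSet_lt (measurable_pos a) (measurable_pos b)).union
    ((measurableSet_eq_fun (measurable_pos a) (measurable_pos b)).inter ?_)
  exact MeasurableSet.const _

theorem meas_pairwise (l : List Name) : MeasurableSet {e : Env | l.Pairwise (before e)} := by
  induction l with
  | nil => simp
  | cons a l ih =>
    have : {e : Env | (a :: l).Pairwise (before e)} =
        (⋂ b ∈ l, {e : Env | before e a b}) ∩ {e : Env | l.Pairwise (before e)} := by
      ext e
      simp only [List.pairwise_cons, Set.mem_ofPred_eq, Set.mem_inter_iff, Set.mem_iInter]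
    rw [this]
    refine MeasurableSet.inter ?_ ih
    exact MeasurableSet.iInter fun b => MeasurableSet.iInter fun _ => meas_before a b

theorem meas_lst (K : ℕ) (l : List Name) : MeasurableSet {e : Env | lst e K = l} := by
  have : {e : Env | lst e K = l} = {e : Env | l.Pairwise (before e)} ∩
      ⋂ a, {e : Env | a ∈ l ↔ (a.1 < K ∧ present e a)} := by
    ext e
    simp only [Set.mem_ofPred_eq, Set.mem_inter_iff, Set.mem_iInter]
    constructor
    · rintro rfl
      exact ⟨lst_pairwise e K, fun a => mem_lst⟩
    · rintro ⟨h1, h2⟩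
      exact list_unique (lst_pairwise e K) h1 fun a => mem_lst.trans (h2 a).symm
  rw [this]
  refine (meas_pairwise l).inter (MeasurableSet.iInter fun a => ?_)
  have h3 : MeasurableSet {e : Env | a.1 < K ∧ present e a} :=
    (MeasurableSet.const (a.1 < K)).inter (meas_present a)
  by_cases ha : a ∈ l
  · simpa only [ha, true_iff] using h3
  · simp only [ha, false_iff]
    exact h3.compl

theorem meas_part (a : Name) (y : ℕ) : MeasurableSet {z : Win | y ∈ part z a} := by
  have h1 : Measurable fun z : Win => z.2 a y :=
    (measurable_pi_apply y).comp ((measurable_pi_apply a).comp measurable_snd)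
  have h2 : Measurable fun z : Win => z.1.2.2 a := (measurable_size a).comp measurable_fst
  exact measurableSet_lt h1 h2

theorem measurable_back (l : List Name) : Measurable fun z : Win => back z l := by
  induction l with
  | nil => exact measurable_const (a := (id : ℕ → ℕ))
  | cons a l ih =>
    exact measurable_comp.comp ((measurable_shiftDown (meas_part a)).prodMk ih)

theorem measurable_blist (K : ℕ) : Measurable fun z : Win => back z (lst z.1 K) := by
  refine measurable_pi_iff.2 fun x => measurable_to_countable' fun v => ?_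
  have : (fun z : Win => back z (lst z.1 K) x) ⁻¹' {v} =
      ⋃ l : List Name, ({z : Win | lst z.1 K = l} ∩ {z : Win | back z l x = v}) := by
    ext z
    simp
  rw [this]
  refine MeasurableSet.iUnion fun l => (measurable_fst (meas_lst K l)).inter ?_
  exact ((measurable_pi_apply x).comp (measurable_back l)) (measurableSet_singleton v)

theorem below_congr {J J' : Set ℕ} {x : ℕ} (h : ∀ y < x, y ∈ J ↔ y ∈ J') :
    below J x = below J' x := by
  unfold below
  congr 1
  ext y
  simp only [Set.mem_inter_iff, Set.mem_Iio]
  exact and_congr_left fun hy => h y hy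

theorem meas_rel (a : Name) (x : ℕ) : MeasurableSet {z : Win | Rel (part z a) x} := by
  have : Measurable fun z : Win => Rel (part z a) x := by
    refine measurable_of_setDep (x + 1) (fun J => Rel J x) ?_ (meas_part a)
    intro J J' h
    unfold Rel
    rw [below_congr h]
  exact measurableSet_setOfPred.2 this

theorem meas_isHist (s : ℝ) (x : ℕ) (l : List Name) : MeasurableSet {z : Win | IsHist z s x l} := by
  have : {z : Win | IsHist z s x l} = {z : Win | l.Pairwise (before z.1)} ∩
      ⋂ a, {z : Win | a ∈ l ↔ (present z.1 a ∧ z.1.2.1 a ≤ s ∧ Rel (part z a) x)} := by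
    ext z
    simp only [IsHist, Set.mem_ofPred_eq, Set.mem_inter_iff, Set.mem_iInter]
  rw [this]
  refine (measurable_fst (meas_pairwise l)).inter (MeasurableSet.iInter fun a => ?_)
  have h3 : MeasurableSet {z : Win | present z.1 a ∧ z.1.2.1 a ≤ s ∧ Rel (part z a) x} := by
    refine (measurable_fst (meas_present a)).inter (MeasurableSet.inter ?_ (meas_rel a x))
    exact measurableSet_le ((measurable_pos a).comp measurable_fst) measurable_const
  by_cases ha : a ∈ l
  · simpa only [ha, true_iff] using h3
  · simp only [ha, false_iff]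
    exact h3.compl

theorem measurable_look (s : ℝ) : Measurable fun z : Win => look z s := by
  classical
  refine measurable_pi_iff.2 fun x => measurable_to_countable' fun v => ?_
  have : (fun z : Win => look z s x) ⁻¹' {v} =
      (⋃ l : List Name, ({z : Win | IsHist z s x l} ∩ {z : Win | back z l x = v})) ∪
        ((⋂ l : List Name, {z : Win | IsHist z s x l}ᶜ) ∩ {_z | x = v}) := by
    ext z
    simp only [Set.mem_preimage, Set.mem_singleton_iff, Set.mem_union, Set.mem_iUnion,
      Set.mem_inter_iff, Set.mem_iInter, Set.mem_compl_iff, Set.mem_ofPred_eq]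
    by_cases h : ∃ l, IsHist z s x l
    · obtain ⟨l, hl⟩ := h
      rw [look_eq hl]
      constructor
      · intro e; exact Or.inl ⟨l, hl, e⟩
      · rintro (⟨l', hl', e⟩ | ⟨h, _⟩)
        · rw [← look_eq hl, look_eq hl']; exact e
        · exact absurd hl (h l)
    · have e1 : look z s x = x := by unfold look; rw [dif_neg h]
      rw [e1]
      push Not at h
      constructor
      · intro e; exact Or.inr ⟨h, e⟩
      · rintro (⟨l', hl', _⟩ | ⟨_, e⟩)
        · exact absurd hl' (h l')
        · exact e
  rw [this]
  refine MeasurableSet.union (MeasurableSet.iUnion fun l => (meas_isHist s x l).inter ?_)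
    (MeasurableSet.inter (MeasurableSet.iInter fun l => (meas_isHist s x l).compl)
      (MeasurableSet.const _))
  exact ((measurable_pi_apply x).comp (measurable_back l)) (measurableSet_singleton v)

/-! ### The mean number of points -/

theorem lintegral_poisson (r : ℝ≥0) (f : ℕ → ℝ≥0∞) :
    ∫⁻ n, f n ∂(poissonMeasure r) =
      ∑' n, ENNReal.ofReal (Real.exp (-r) * r ^ n / n.factorial) * f n := by
  unfold poissonMeasure
  rw [lintegral_sum_measure]
  refine tsum_congr fun n => ?_
  rw [lintegral_smul_measure, lintegral_dirac, smul_eq_mul]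

theorem poisson_mean (r : ℝ≥0) : ∫⁻ n, (n : ℝ≥0∞) ∂(poissonMeasure r) = r := by
  rw [lintegral_poisson, tsum_eq_zero_add' ENNReal.summable]
  simp only [Nat.cast_zero, mul_zero, zero_add]
  have h1 : ∀ n : ℕ, ENNReal.ofReal (Real.exp (-r) * r ^ (n + 1) / (n + 1).factorial) *
      ((n + 1 : ℕ) : ℝ≥0∞) = r * (ENNReal.ofReal (Real.exp (-r) * r ^ n / n.factorial) * 1) := by
    intro n
    have e1 : ((n + 1 : ℕ) : ℝ≥0∞) = ENNReal.ofReal ((n + 1 : ℕ) : ℝ) := by
      rw [ENNReal.ofReal_natCast]
    have e2 : (r : ℝ≥0∞) = ENNReal.ofReal (r : ℝ) := by rw [ENNReal.ofReal_coe_nnreal]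
    rw [e1, e2, mul_one, ← ENNReal.ofReal_mul (by positivity), ← ENNReal.ofReal_mul (by positivity)]
    congr 1
    rw [Nat.factorial_succ]
    push_cast
    have : ((n : ℝ) + 1) ≠ 0 := by positivity
    field_simp
    ring
  rw [tsum_congr h1, ENNReal.tsum_mul_left, ← lintegral_poisson r (fun _ => 1)]
  simp

theorem poisson_tail (r : ℝ≥0) : ∑' j : ℕ, poissonMeasure r {n | j < n} = r := by
  rw [← poisson_mean r]
  have h1 : ∀ j : ℕ, poissonMeasure r {n | j < n} =
      ∫⁻ n, {n : ℕ | j < n}.indicator (fun _ => (1 : ℝ≥0∞)) n ∂(poissonMeasure r) := by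
    intro j
    rw [lintegral_indicator_const (MeasurableSet.of_discrete), one_mul]
  rw [tsum_congr h1, ← lintegral_tsum fun j => Measurable.aemeasurable (measurable_of_countable _)]
  refine lintegral_congr fun n => ?_
  have h2 : ∀ j : ℕ, {n : ℕ | j < n}.indicator (fun _ => (1 : ℝ≥0∞)) n =
      if j ∈ Finset.range n then 1 else 0 := by
    intro j
    simp only [Set.indicator, Set.mem_ofPred_eq, Finset.mem_range]
  rw [tsum_congr h2, tsum_eq_sum (s := Finset.range n) (fun j hj => by rw [if_neg hj])]
  rw [Finset.sum_congr rfl fun j hj => if_pos hj]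
  simp

variable {c : ℕ → ℝ≥0} {κ : ℕ → Measure ℝ}

theorem prob_envLaw (hκ : ∀ k, IsProbabilityMeasure (κ k)) : IsProbabilityMeasure (envLaw c κ) := by
  have := hκ
  unfold envLaw; infer_instance

theorem prob_windowLaw (hκ : ∀ k, IsProbabilityMeasure (κ k)) :
    IsProbabilityMeasure (windowLaw c κ) := by
  have := prob_envLaw (c := c) hκ
  unfold windowLaw; infer_instance

/-- The mean of a sum over the atoms of a window. -/
theorem campbell (hκ : ∀ k, IsProbabilityMeasure (κ k)) {h : ℝ → ℝ≥0∞} (hh : Measurable h) :
    ∫⁻ e, ∑' a : Name, {e : Env | present e a}.indicator (fun e => h (e.2.2 a)) e ∂(envLaw c κ) =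
      ∫⁻ u, h u ∂(Measure.sum fun k => (c k : ℝ≥0∞) • κ k) := by
  have := hκ
  have hm0 : ∀ a : Name, Measurable ({e : Env | present e a}.indicator fun e => h (e.2.2 a)) :=
    fun a => (hh.comp (measurable_size a)).indicator (meas_present a)
  rw [lintegral_tsum fun a => (hm0 a).aemeasurable]
  have h1 : ∀ a : Name, ∫⁻ e, {e : Env | present e a}.indicator (fun e => h (e.2.2 a)) e
      ∂(envLaw c κ) = poissonMeasure (c a.1) {n | a.2 < n} * ∫⁻ u, h u ∂(κ a.1) := by
    intro a
    have h2 : ∀ e : Env, {e : Env | present e a}.indicator (fun e => h (e.2.2 a)) e =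
        ({n : ℕ | a.2 < n}.indicator (fun _ => (1 : ℝ≥0∞)) (e.1 a.1)) * h (e.2.2 a) := by
      intro e
      by_cases hp : present e a
      · rw [Set.indicator_of_mem (show e ∈ {e : Env | present e a} from hp),
          Set.indicator_of_mem (show e.1 a.1 ∈ {n : ℕ | a.2 < n} from hp), one_mul]
      · rw [Set.indicator_of_notMem (show e ∉ {e : Env | present e a} from hp),
          Set.indicator_of_notMem (show e.1 a.1 ∉ {n : ℕ | a.2 < n} from hp), zero_mul]
    simp_rw [h2]
    unfold envLaw
    have hm1 : Measurable fun x : ℕ → ℕ =>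
        ({n : ℕ | a.2 < n}.indicator (fun _ => (1 : ℝ≥0∞)) (x a.1)) :=
      (measurable_of_countable ({n : ℕ | a.2 < n}.indicator fun _ => (1 : ℝ≥0∞))).comp
        (measurable_pi_apply a.1)
    have hm2 : Measurable fun x : (Name → ℝ) × (Name → ℝ) => h (x.2 a) :=
      hh.comp ((measurable_pi_apply a).comp measurable_snd)
    rw [lintegral_prod_mul (f := fun x : ℕ → ℕ =>
        ({n : ℕ | a.2 < n}.indicator (fun _ => (1 : ℝ≥0∞)) (x a.1)))
      (g := fun x : (Name → ℝ) × (Name → ℝ) => h (x.2 a)) hm1.aemeasurable hm2.aemeasurable]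
    congr 1
    · have e1 := lintegral_map (μ := Measure.infinitePi fun k => poissonMeasure (c k))
        (f := {n : ℕ | a.2 < n}.indicator (fun _ => (1 : ℝ≥0∞))) (g := fun x : ℕ → ℕ => x a.1)
        (measurable_of_countable _) (measurable_pi_apply a.1)
      rw [← e1, Measure.infinitePi_map_eval,
        lintegral_indicator_const (MeasurableSet.of_discrete), one_mul]
    · have e1 := lintegral_map
        (μ := (Measure.infinitePi fun _ : Name => unif).prod
          (Measure.infinitePi fun a : Name => κ a.1))
        (f := fun y : Name → ℝ => h (y a)) (g := Prod.snd)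
        (hh.comp (measurable_pi_apply a)) measurable_snd
      rw [← e1, Measure.map_snd_prod, measure_univ, one_smul]
      have e2 := lintegral_map (μ := Measure.infinitePi fun a : Name => κ a.1)
        (f := h) (g := fun x : Name → ℝ => x a) hh (measurable_pi_apply a)
      rw [← e2, Measure.infinitePi_map_eval]
  rw [tsum_congr h1, ENNReal.tsum_prod (f := fun k j => poissonMeasure (c k) {n | j < n} *
    ∫⁻ u, h u ∂(κ k)), lintegral_sum_measure]
  refine tsum_congr fun k => ?_
  rw [ENNReal.tsum_mul_right, poisson_tail, lintegral_smul_measure, smul_eq_mul]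

/-! ### Laws -/

theorem back_marks (e : Env) (l : List Name) {mk mk' : Name → ℕ → ℝ}
    (h : ∀ a ∈ l, mk a = mk' a) : back (e, mk) l = back (e, mk') l := by
  induction l with
  | nil => rfl
  | cons b l ih =>
    have h2 := ih fun j hj => h j (by simp [hj])
    have h3 : part (e, mk) b = part (e, mk') b := by
      unfold part
      simp only [h b (by simp)]
    funext x
    rw [back_cons, back_cons, h3, congrFun h2 x]

theorem law_back (e : Env) (l : List Name) (hl : l.Nodup) :
    (Measure.infinitePi fun _ : Name => marks).map (fun mk => back (e, mk) l) =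
      comps (l.map fun a => e.2.2 a) := by
  induction l with
  | nil =>
    simp only [List.map_nil, comps]
    have : (fun mk : Name → ℕ → ℝ => back (e, mk) []) = fun _ => id := rfl
    rw [this, Measure.map_const, measure_univ, one_smul]
  | cons a l ih =>
    have ih := ih (List.nodup_cons.1 hl).2
    have hal : a ∉ l.toFinset := by
      rw [List.mem_toFinset]; exact (List.nodup_cons.1 hl).1
    simp only [List.map_cons, comps]
    have hm : Measurable fun mk : Name → ℕ → ℝ => back (e, mk) l :=
      (measurable_back l).comp (measurable_const.prodMk measurable_id)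
    have h1 := map_pair (fun _ : Name => marks) a l.toFinset hal
      (f := fun ξ => shiftDown (parts (e.2.2 a) ξ)) (measurable_parts _)
      (g := fun mk : Name → ℕ → ℝ => back (e, mk) l) hm (by
        intro mk mk' h
        exact back_marks e l fun j hj => h j (List.mem_toFinset.2 hj))
    rw [ih] at h1
    have hm2 : Measurable fun mk : Name → ℕ → ℝ =>
        (shiftDown (parts (e.2.2 a) (mk a)), back (e, mk) l) :=
      ((measurable_parts _).comp (measurable_pi_apply a)).prodMk hm
    unfold cmp atom
    rw [← h1, Measure.map_map measurable_comp hm2]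
    rfl

/-- The sizes of the atoms of the kinds smaller than `K`. -/
noncomputable def szs (e : Env) (K : ℕ) : List ℝ := (lst e K).map fun a => e.2.2 a

theorem lintegral_blist (hκ : ∀ k, IsProbabilityMeasure (κ k)) (K : ℕ) {F : (ℕ → ℕ) → ℝ≥0∞}
    (hF : Measurable F) : ∫⁻ z, F (back z (lst z.1 K)) ∂(windowLaw c κ) =
      ∫⁻ e, ∫⁻ b, F b ∂(comps (szs e K)) ∂(envLaw c κ) := by
  have := prob_envLaw (c := c) hκ
  unfold windowLaw
  have hm0 : Measurable fun z : Env × (Name → ℕ → ℝ) => F (back z (lst z.1 K)) :=
    hF.comp (measurable_blist K)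
  rw [lintegral_prod _ hm0.aemeasurable]
  refine lintegral_congr fun e => ?_
  have hm : Measurable fun mk : Name → ℕ → ℝ => back (e, mk) (lst e K) :=
    (measurable_back _).comp (measurable_const.prodMk measurable_id)
  unfold szs
  rw [← law_back e (lst e K) (lst_nodup e K), lintegral_map hF hm]

end Pool.Agent.Helper97.LD
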