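import Pool.Agent.Helper97.LD.Pos

/-!
# The fraction of the pairs of levels with different ancestors
-/

set_option autoImplicit false

namespace Pool.Agent.Helper97.LD

open MeasureTheory ProbabilityTheory Filter
open scoped ENNReal Topology

/-- The levels below `N` outside the block of level `0`. -/
def rs (N : ℕ) (g : ℕ → ℕ) : Finset ℕ := (Finset.range N).filter fun j => g j ≠ g 0

/-- The pairs of such levels with different ancestors. -/
def dp (N : ℕ) (g : ℕ → ℕ) : Finset (ℕ × ℕ) := (rs N g).offDiag.filter fun p => g p.1 ≠ g p.2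

/-- The fraction of the pairs of levels below `N` outside the block of `0` with different
ancestors. -/
noncomputable def kap (N : ℕ) (g : ℕ → ℕ) : ℝ≥0∞ :=
  ((dp N g).card : ℝ≥0∞) / ((rs N g).offDiag.card : ℝ≥0∞)

theorem kap_le_one (N : ℕ) (g : ℕ → ℕ) : kap N g ≤ 1 := by
  unfold kap
  refine ENNReal.div_le_of_le_mul ?_
  rw [one_mul]
  exact_mod_cast Finset.card_le_card (Finset.filter_subset _ _)

theorem rs_congr {N : ℕ} {g g' : ℕ → ℕ} (h : KEq N g g') : rs N g = rs N g' := by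
  refine Finset.filter_congr fun j hj => ?_
  have hj' := Finset.mem_range.1 hj
  exact not_congr (h j hj' 0 (by omega))

theorem dp_congr {N : ℕ} {g g' : ℕ → ℕ} (h : KEq N g g') : dp N g = dp N g' := by
  unfold dp
  rw [rs_congr h]
  refine Finset.filter_congr fun p hp => ?_
  simp only [rs, Finset.mem_offDiag, Finset.mem_filter, Finset.mem_range] at hp
  exact not_congr (h _ hp.1.1 _ hp.2.1.1)

theorem kap_congr {N : ℕ} {g g' : ℕ → ℕ} (h : KEq N g g') : kap N g = kap N g' := by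
  unfold kap
  rw [rs_congr h, dp_congr h]

theorem measurable_kap (N : ℕ) : Measurable (kap N) :=
  measurable_of_dep N _ fun _ _ h => kap_congr (kEq_of_eq h)

/-- `HH` witnessed below `N`. -/
def HN (N : ℕ) (g : ℕ → ℕ) : Prop := ∃ x y, y < N ∧ Pat x y g

theorem meas_HN (N : ℕ) : MeasurableSet {g | HN N g} := by
  refine measurableSet_of_dep N _ ?_
  rintro g g' h ⟨x, y, hy, hp⟩
  exact ⟨x, y, hy, hp.congr fun j hj => h j (by omega)⟩

theorem mem_rs {N : ℕ} {g : ℕ → ℕ} {j : ℕ} : j ∈ rs N g ↔ j < N ∧ g j ≠ g 0 := by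
  simp [rs]

/-- A permutation which sends `x, y` to `x', y'` inside a finite set. -/
theorem exists_perm {X : Finset ℕ} {x y x' y' : ℕ} (hx : x ∈ X) (hy : y ∈ X) (hxy : x ≠ y)
    (hx' : x' ∈ X) (hy' : y' ∈ X) (hxy' : x' ≠ y') :
    ∃ π : Equiv.Perm ℕ, π x = x' ∧ π y = y' ∧ (∀ z, π z ∈ X ↔ z ∈ X) ∧ ∀ z, z ∉ X → π z = z := by
  have hs : ∀ a ∈ X, ∀ b ∈ X, ∀ z, Equiv.swap a b z ∈ X ↔ z ∈ X := by
    intro a ha b hb z
    by_cases h1 : z = a
    · rw [h1, Equiv.swap_apply_left]; exact ⟨fun _ => ha, fun _ => hb⟩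
    · by_cases h2 : z = b
      · rw [h2, Equiv.swap_apply_right]; exact ⟨fun _ => hb, fun _ => ha⟩
      · rw [Equiv.swap_apply_of_ne_of_ne h1 h2]
  have hf : ∀ a ∈ X, ∀ b ∈ X, ∀ z, z ∉ X → Equiv.swap a b z = z := by
    intro a ha b hb z hz
    refine Equiv.swap_apply_of_ne_of_ne ?_ ?_
    · rintro rfl; exact hz ha
    · rintro rfl; exact hz hb
  let w := Equiv.swap x x' y'
  have hw : w ∈ X := (hs x hx x' hx' y').2 hy'
  have hwx : w ≠ x := by
    intro e
    apply hxy'
    have : Equiv.swap x x' y' = Equiv.swap x x' x' := by rw [Equiv.swap_apply_right]; exact e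
    exact ((Equiv.swap x x').injective this).symm
  refine ⟨(Equiv.swap y w).trans (Equiv.swap x x'), ?_, ?_, ?_, ?_⟩
  · simp only [Equiv.trans_apply]
    rw [Equiv.swap_apply_of_ne_of_ne hxy hwx.symm, Equiv.swap_apply_left]
  · simp only [Equiv.trans_apply]
    rw [Equiv.swap_apply_left]
    exact Equiv.swap_apply_self x x' y'
  · intro z
    simp only [Equiv.trans_apply]
    rw [hs x hx x' hx', hs y hy w hw]
  · intro z hz
    simp only [Equiv.trans_apply]
    rw [hf y hy w hw z hz, hf x hx x' hx' z hz]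

theorem sym_X {μ : Measure (ℕ → ℕ)} (hμ : ExK μ) {N : ℕ} {X : Finset ℕ} {x y x' y' : ℕ}
    (hx : x ∈ X) (hy : y ∈ X) (hxy : x ≠ y) (hx' : x' ∈ X) (hy' : y' ∈ X) (hxy' : x' ≠ y') :
    μ {g | rs N g = X ∧ g x ≠ g y} = μ {g | rs N g = X ∧ g x' ≠ g y'} := by
  by_cases hX : 0 ∉ X ∧ ∀ z ∈ X, z < N
  · obtain ⟨hX0, hXN⟩ := hX
    obtain ⟨π, h1, h2, h3, h4⟩ := exists_perm hx hy hxy hx' hy' hxy'
    have h0 : π 0 = 0 := h4 0 hX0
    have h5 := hμ N π h0 π.injective.injOn (fun g => rs N g = X ∧ g x ≠ g y) ?_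
    · rw [← h5]
      congr 1
      ext g
      simp only [Set.mem_ofPred_eq, Function.comp_apply, h1, h2]
      refine and_congr_left fun _ => ?_
      have key : ∀ j, j < N → (g (π j) ≠ g 0 ↔ π j ∈ rs N g) := by
        intro j hj
        rw [mem_rs]
        have : π j < N := by
          by_cases hz : j ∈ X
          · exact hXN _ ((h3 j).2 hz)
          · rw [h4 j hz]; exact hj
        simp [this]
      have hrs : ∀ j, j ∈ rs N (g ∘ π) ↔ j < N ∧ π j ∈ rs N g := by
        intro j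
        rw [mem_rs]
        simp only [Function.comp_apply, h0]
        exact and_congr_right fun hj => key j hj
      constructor
      · intro h
        ext j
        rw [← h, hrs]
        have e : π (π.symm j) = j := π.apply_symm_apply j
        have e2 : π.symm j ∈ rs N (g ∘ π) ↔ π.symm j ∈ X := by rw [h]
        rw [hrs, e, ← h3, e] at e2
        -- membership of `j`
        constructor
        · rintro hj
          have hjN : j < N := (mem_rs.1 hj).1
          refine ⟨hjN, ?_⟩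
          have hsN : π.symm j < N := by
            by_cases hz : π.symm j ∈ X
            · exact hXN _ hz
            · have := h4 _ hz
              rw [e] at this
              omega
          have hjX : j ∈ X := e2.1 ⟨hsN, hj⟩
          have : π j ∈ X := (h3 j).2 hjX
          have e3 : π j ∈ rs N (g ∘ π) ↔ π j ∈ X := by rw [h]
          by_contra hne
          have h6 : j ∈ rs N (g ∘ π) ↔ j ∈ X := by rw [h]
          rw [hrs] at h6
          exact hne (h6.2 hjX).2
        · rintro ⟨hjN, hj⟩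
          have h6 : j ∈ rs N (g ∘ π) ↔ j ∈ X := by rw [h]
          rw [hrs] at h6
          have hjX : j ∈ X := h6.1 ⟨hjN, hj⟩
          exact (e2.2 hjX).2
      · intro h
        ext j
        rw [hrs, h, h3]
        exact ⟨fun h => h.2, fun h => ⟨hXN _ h, h⟩⟩
    · rintro g g' hg ⟨h6, h7⟩
      refine ⟨by rw [← rs_congr hg]; exact h6, fun e => h7 ?_⟩
      exact (hg x (hXN x hx) y (hXN y hy)).2 e
  · have : ∀ a b : ℕ, {g : ℕ → ℕ | rs N g = X ∧ g a ≠ g b} = ∅ := by
      intro a b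
      rw [Set.eq_empty_iff_forall_notMem]
      rintro g ⟨h, _⟩
      apply hX
      rw [← h]
      refine ⟨fun h0 => (mem_rs.1 h0).2 rfl, fun z hz => (mem_rs.1 hz).1⟩
    rw [this, this]

theorem meas_rs (N : ℕ) (X : Finset ℕ) : MeasurableSet {g : ℕ → ℕ | rs N g = X} := by
  refine measurableSet_of_dep N _ ?_
  intro g g' hg h
  rw [← rs_congr (kEq_of_eq hg)]; exact h

theorem meas_rs2 (N : ℕ) (X : Finset ℕ) (a b : ℕ) :
    MeasurableSet {g : ℕ → ℕ | rs N g = X ∧ g a ≠ g b} :=
  (meas_rs N X).inter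
    (measurableSet_eq_fun (measurable_pi_apply a) (measurable_pi_apply b)).compl

theorem hn_le {μ : Measure (ℕ → ℕ)} (hμ : ExK μ) (N : ℕ) :
    μ {g | HN N g} ≤ ∫⁻ g, kap N g ∂μ := by
  classical
  -- split according to the set of the levels outside the block of `0`
  have h1 : μ {g | HN N g} ≤ ∑ X ∈ (Finset.range N).powerset, μ {g | rs N g = X ∧ HN N g} := by
    refine le_trans (measure_mono ?_) (measure_biUnion_finset_le _ _)
    intro g hg
    simp only [Set.mem_iUnion]
    exact ⟨rs N g, Finset.mem_powerset.2 (Finset.filter_subset _ _), rfl, hg⟩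
  have h2 : ∫⁻ g, kap N g ∂μ = ∑ X ∈ (Finset.range N).powerset, ∑ p ∈ X.offDiag,
      μ {g | rs N g = X ∧ g p.1 ≠ g p.2} * ((X.offDiag.card : ℝ≥0∞))⁻¹ := by
    have h3 : ∀ g, kap N g = ∑ X ∈ (Finset.range N).powerset, ∑ p ∈ X.offDiag,
        {g | rs N g = X ∧ g p.1 ≠ g p.2}.indicator (fun _ => ((X.offDiag.card : ℝ≥0∞))⁻¹) g := by
      intro g
      rw [Finset.sum_eq_single_of_mem (rs N g)
        (Finset.mem_powerset.2 (Finset.filter_subset _ _))]
      · have : ∀ p ∈ (rs N g).offDiag, {g' | rs N g' = rs N g ∧ g' p.1 ≠ g' p.2}.indicator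
            (fun _ => (((rs N g).offDiag.card : ℝ≥0∞))⁻¹) g =
            if g p.1 ≠ g p.2 then (((rs N g).offDiag.card : ℝ≥0∞))⁻¹ else 0 := by
          intro p _
          simp only [Set.indicator, Set.mem_ofPred_eq, true_and]
        rw [Finset.sum_congr rfl this, ← Finset.sum_filter, Finset.sum_const, nsmul_eq_mul]
        unfold kap dp
        rw [div_eq_mul_inv]
      · intro X _ hne
        refine Finset.sum_eq_zero fun p _ => ?_
        rw [Set.indicator_of_notMem]
        rintro ⟨h, _⟩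
        exact hne h.symm
    simp_rw [h3]
    rw [lintegral_finsetSum]
    · refine Finset.sum_congr rfl fun X _ => ?_
      rw [lintegral_finsetSum]
      · refine Finset.sum_congr rfl fun p _ => ?_
        rw [lintegral_indicator_const (meas_rs2 N X p.1 p.2), mul_comm]
      · exact fun p _ => measurable_const.indicator (meas_rs2 N X p.1 p.2)
    · exact fun X _ => Finset.measurable_fun_sum _
        fun p _ => measurable_const.indicator (meas_rs2 N X p.1 p.2)
  rw [h2]
  refine h1.trans (Finset.sum_le_sum fun X _ => ?_)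
  rcases Set.eq_empty_or_nonempty {g | rs N g = X ∧ HN N g} with he | ⟨g₀, hg₀, x, y, hy, hp⟩
  · rw [he, measure_empty]; exact zero_le
  have hxX : x ∈ X := by rw [← hg₀]; exact mem_rs.2 ⟨lt_trans hp.1.1 hy, hp.1.2.1⟩
  have hyX : y ∈ X := by rw [← hg₀]; exact mem_rs.2 ⟨hy, hp.1.2.2.1⟩
  have hxy : x ≠ y := hp.1.1.ne
  have hsub : {g | rs N g = X ∧ HN N g} ⊆ {g | rs N g = X ∧ g x ≠ g y} := by
    rintro g ⟨hg, x', y', hy', hp'⟩
    refine ⟨hg, ?_⟩
    have hfst : Fst2 g x y := by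
      have hmem : ∀ j < N, (g j ≠ g 0 ↔ g₀ j ≠ g₀ 0) := by
        intro j hj
        have e : j ∈ rs N g ↔ j ∈ rs N g₀ := by rw [hg, hg₀]
        rw [mem_rs, mem_rs] at e
        constructor
        · intro h; exact (e.1 ⟨hj, h⟩).2
        · intro h; exact (e.2 ⟨hj, h⟩).2
      refine ⟨hp.1.1, (hmem x (lt_trans hp.1.1 hy)).2 hp.1.2.1, (hmem y hy).2 hp.1.2.2.1, ?_⟩
      intro j hj hjx
      by_contra hne
      exact ((hmem j (by omega)).1 hne) (hp.1.2.2.2 j hj hjx)
    obtain ⟨e1, e2⟩ := Fst2.unique hfst hp'.1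
    rw [e1, e2]
    exact hp'.2
  refine (measure_mono hsub).trans ?_
  have hall : ∀ p ∈ X.offDiag, μ {g | rs N g = X ∧ g p.1 ≠ g p.2} * ((X.offDiag.card : ℝ≥0∞))⁻¹ =
      μ {g | rs N g = X ∧ g x ≠ g y} * ((X.offDiag.card : ℝ≥0∞))⁻¹ := by
    intro p hp'
    rw [Finset.mem_offDiag] at hp'
    rw [sym_X hμ hxX hyX hxy hp'.1 hp'.2.1 hp'.2.2]
  rw [Finset.sum_congr rfl hall, Finset.sum_const, nsmul_eq_mul]
  have hcard : (X.offDiag.card : ℝ≥0∞) ≠ 0 := by
    have : (x, y) ∈ X.offDiag := Finset.mem_offDiag.2 ⟨hxX, hyX, hxy⟩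
    have h5 := Finset.card_pos.2 ⟨_, this⟩
    exact_mod_cast h5.ne'
  calc μ {g | rs N g = X ∧ g x ≠ g y} = 1 * μ {g | rs N g = X ∧ g x ≠ g y} := (one_mul _).symm
    _ = ((X.offDiag.card : ℝ≥0∞) * ((X.offDiag.card : ℝ≥0∞))⁻¹) *
        μ {g | rs N g = X ∧ g x ≠ g y} := by
        rw [ENNReal.mul_inv_cancel hcard (ENNReal.natCast_ne_top _)]
    _ ≤ _ := le_of_eq (by ring)

/-- The upper limit of the fraction of the pairs with different ancestors. -/
noncomputable def KK (g : ℕ → ℕ) : ℝ≥0∞ := limsup (fun N => kap N g) atTop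

theorem measurable_KK : Measurable KK := Measurable.limsup measurable_kap

theorem KK_le_one (g : ℕ → ℕ) : KK g ≤ 1 :=
  limsup_le_of_le (by isBoundedDefault) (Eventually.of_forall fun N => kap_le_one N g)

theorem hh_le {μ : Measure (ℕ → ℕ)} [IsProbabilityMeasure μ] (hμ : ExK μ) :
    μ {g | HH g} ≤ ∫⁻ g, KK g ∂μ := by
  have h1 : {g | HH g} = ⋃ N, {g | HN N g} := by
    ext g
    simp only [Set.mem_ofPred_eq, Set.mem_iUnion]
    constructor
    · rintro ⟨x, y, h⟩; exact ⟨y + 1, x, y, by omega, h⟩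
    · rintro ⟨N, x, y, _, h⟩; exact ⟨x, y, h⟩
  have hmono : Monotone fun N => {g | HN N g} := by
    intro N M hNM g hg
    obtain ⟨x, y, hy, h⟩ := hg
    exact ⟨x, y, by omega, h⟩
  have h2 : Tendsto (fun N => μ {g | HN N g}) atTop (𝓝 (μ {g | HH g})) := by
    rw [h1]; exact tendsto_measure_iUnion_atTop hmono
  calc μ {g | HH g} = limsup (fun N => μ {g | HN N g}) atTop := h2.limsup_eq.symm
    _ ≤ limsup (fun N => ∫⁻ g, kap N g ∂μ) atTop :=
        limsup_le_limsup (Eventually.of_forall fun N => hn_le hμ N)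
    _ ≤ ∫⁻ g, KK g ∂μ := by
        refine limsup_lintegral_le (fun _ => 1) measurable_kap
          (fun N => ae_of_all _ fun g => kap_le_one N g) (by simp)

end Pool.Agent.Helper97.LD
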