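import Pool.Agent.Helper97.LD.Lists

/-!
# Two different ancestors survive side by side with a probability bounded from below
-/

set_option autoImplicit false

namespace Pool.Agent.Helper97.LD

open MeasureTheory ProbabilityTheory Filter
open scoped ENNReal Topology

/-- Infinitely many values are taken. -/
def Surj (b : ℕ → ℕ) : Prop := ∀ R : ℕ, ∃ m, R ≤ nb b m

theorem meas_surj : MeasurableSet {b | Surj b} := by
  have : {b | Surj b} = ⋂ R : ℕ, ⋃ m, {b | R ≤ nb b m} := by
    ext b; simp [Surj]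
  rw [this]
  refine MeasurableSet.iInter fun R => MeasurableSet.iUnion fun m => ?_
  exact measurableSet_le measurable_const (measurable_nb m)

theorem Surj.comp {g b : ℕ → ℕ} (hg : Surj g) (hb : Surj b) (hs : Seg b) : Surj (g ∘ b) := by
  intro R
  obtain ⟨m, hm⟩ := hg R
  obtain ⟨m', hm'⟩ := hb m
  refine ⟨m', ?_⟩
  rw [nb_comp g hs]
  exact hm.trans (nb_mono g hm')

theorem surj_id : Surj id := fun R => ⟨R, by rw [nb_id]⟩

theorem Surj.exists_fst2 {g : ℕ → ℕ} (h : Surj g) (hs : Seg g) : ∃ x y, Fst2 g x y := by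
  obtain ⟨m, hm⟩ := h 3
  obtain ⟨a, _, ea⟩ := (hs.lt_nb_iff m 1).1 (by omega)
  obtain ⟨b, _, eb⟩ := (hs.lt_nb_iff m 2).1 (by omega)
  have h0 := hs.zero
  refine Pool.Agent.Helper97.LD.exists_fst2 (a := a) (b := b) ?_ (by omega) (by omega)
  rintro rfl
  omega

theorem iter_surj {C : Measure (ℕ → ℕ)} [IsProbabilityMeasure C] (hn : Nice C)
    (h : ∀ᵐ b ∂C, Surj b) (n : ℕ) : ∀ᵐ b ∂(iter C n), Surj b := by
  induction n with
  | zero => exact (ae_dirac_iff meas_surj).2 surj_id
  | succ n ih =>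
    have h1 : ∀ᵐ b ∂C, Surj b ∧ Seg b := by
      filter_upwards [h, hn.seg] with b h1 h2 using ⟨h1, h2⟩
    exact ae_cmp meas_surj (fun g b hg hb => hg.comp hb.1 hb.2) ih h1

theorem failMass_dirac (S : Measure (ℕ → ℕ)) : failMass S (Measure.dirac id) = 0 := by
  unfold failMass
  rw [← lintegral_zero (μ := S)]
  refine lintegral_congr fun g => ?_
  have hg : MeasurableSet {b : ℕ → ℕ | Fail g b} := measurable_prodMk_left meas_fail
  rw [Measure.dirac_apply' _ hg, Set.indicator_of_notMem]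
  exact not_fail_id

theorem failMass_iter {C : Measure (ℕ → ℕ)} [IsProbabilityMeasure C] (hn : Nice C) (m n : ℕ) :
    failMass (iter C m) (iter C n) ≤ ∑ j ∈ Finset.range n, failMass (iter C (j + m)) C := by
  induction n with
  | zero => simp [iter, failMass_dirac]
  | succ n ih =>
    rw [Finset.sum_range_succ]
    have h1 := failMass_comp (S := iter C m) (C := iter C n) (D := C) hn.seg inferInstance
    have h2 : cmp (iter C m) (iter C n) = iter C (n + m) := by rw [← iter_add, add_comm]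
    rw [h2] at h1
    exact h1.trans (by gcongr)

/-- The images of the first two levels. -/
def GG (x y : ℕ) (b : ℕ → ℕ) : Prop := ∃ x' y', Good b x y x' y'

theorem meas_GG (x y : ℕ) : MeasurableSet {b : ℕ → ℕ | GG x y b} := by
  have : {b : ℕ → ℕ | GG x y b} = ⋃ x', ⋃ y', {b | Good b x y x' y'} := by
    ext b; simp [GG]
  rw [this]
  refine MeasurableSet.iUnion fun x' => MeasurableSet.iUnion fun y' =>
    measurableSet_of_dep (x' + y' + 1) _ ?_
  rintro g g' hg ⟨h1, h2, h3, h4⟩
  refine ⟨h1, ?_, ?_, fun j hj hjx => ?_⟩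
  · rw [← hg x' (by omega)]; exact h2
  · rw [← hg y' (by omega)]; exact h3
  · rw [← hg j (by omega)]; exact h4 j hj hjx

/-- The first two levels outside the block of `0` have different ancestors. -/
def HH (g : ℕ → ℕ) : Prop := ∃ x y, Pat x y g

theorem meas_HH : MeasurableSet {g | HH g} := by
  have : {g | HH g} = ⋃ x, ⋃ y, {g | Pat x y g} := by
    ext b; simp [HH]
  rw [this]
  exact MeasurableSet.iUnion fun x => MeasurableSet.iUnion fun y => meas_pat x y

theorem positivity {C : Measure (ℕ → ℕ)} [IsProbabilityMeasure C] (hn : Nice C)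
    (hs : ∀ᵐ b ∂C, Surj b) (hf : failMass (Measure.sum (iter C)) C ≠ ∞)
    (hp : ∀ x y, 1 ≤ x → x < y → 0 < C {b | Pat x y b}) :
    ∃ c : ℝ≥0∞, 0 < c ∧ ∀ n, c ≤ iter C (1 + n) {g | HH g} := by
  classical
  -- the failures are summable
  have hsum : ∑' j, failMass (iter C j) C ≠ ∞ := by
    have : failMass (Measure.sum (iter C)) C = ∑' j, failMass (iter C j) C := by
      unfold failMass
      rw [lintegral_sum_measure]
    rwa [← this]
  obtain ⟨m, hm⟩ : ∃ m, ∑' j, failMass (iter C (j + m)) C ≤ 1 / 2 := by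
    have h1 := ENNReal.tendsto_sum_nat_add _ hsum
    have h2 : ∀ᶠ m in atTop, ∑' j, failMass (iter C (j + m)) C < 1 / 2 :=
      h1.eventually (gt_mem_nhds (by simp))
    obtain ⟨m, hm⟩ := h2.exists
    exact ⟨m, hm.le⟩
  set A := iter C m with hA
  have hfail : ∀ n, failMass A (iter C n) ≤ 1 / 2 := fun n =>
    (failMass_iter hn m n).trans ((ENNReal.sum_le_tsum _).trans hm)
  -- the main lower bound
  let f : ℕ × ℕ → ℝ≥0∞ := fun p => A {g | Fst2 g p.1 p.2}
  let G : ℕ → ℕ × ℕ → ℝ≥0∞ := fun n p => iter C n {b | GG p.1 p.2 b}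
  have hG1 : ∀ n p, G n p ≤ 1 := fun n p => prob_le_one
  have hmain : ∀ n, 1 / 2 ≤ ∑' p, f p * G n p := by
    intro n
    have h1 : (1 : ℝ≥0∞) ≤ failMass A (iter C n) + ∑' p, f p * G n p := by
      have h2 : ∑' p, f p * G n p =
          ∫⁻ g, ∑' p : ℕ × ℕ, {g | Fst2 g p.1 p.2}.indicator (fun _ => G n p) g ∂A := by
        rw [lintegral_tsum fun p => (measurable_const.indicator (meas_fst2 _ _)).aemeasurable]
        refine tsum_congr fun p => ?_
        rw [lintegral_indicator_const (meas_fst2 _ _), mul_comm]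
      have hm' : Measurable fun g : ℕ → ℕ => iter C n {b | Fail g b} :=
        measurable_measure_prodMk_left meas_fail
      rw [h2]
      unfold failMass
      rw [← lintegral_add_left hm']
      have h3 : ∀ᵐ g ∂A, (1 : ℝ≥0∞) ≤ iter C n {b | Fail g b} +
          ∑' p : ℕ × ℕ, {g | Fst2 g p.1 p.2}.indicator (fun _ => G n p) g := by
        filter_upwards [(iter_nice hn m).seg, iter_surj hn hs m] with g hg hg'
        obtain ⟨x, y, hxy⟩ := hg'.exists_fst2 hg
        have h4 : G n (x, y) ≤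
            ∑' p : ℕ × ℕ, {g | Fst2 g p.1 p.2}.indicator (fun _ => G n p) g := by
          refine le_trans (le_of_eq ?_) (ENNReal.le_tsum (x, y))
          rw [Set.indicator_of_mem (show g ∈ {g | Fst2 g x y} from hxy)]
        refine le_trans ?_ (add_le_add_right h4 _)
        have h5 : (iter C n) Set.univ ≤ (iter C n) ({b | Fail g b} ∪ {b | GG x y b}) := by
          apply measure_mono_ae
          filter_upwards [(iter_nice hn n).seg, iter_surj hn hs n] with b hb hb' _
          by_cases hF : Fail g b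
          · exact Or.inl hF
          · right
            obtain ⟨x', y', h'⟩ := (hg'.comp hb' hb).exists_fst2 (hg.comp hb)
            refine ⟨x', y', good_of_fst2 hb hxy h' ?_⟩
            intro e
            exact hF ⟨x', y', h', e⟩
        rw [measure_univ] at h5
        exact h5.trans (measure_union_le _ _)
      calc (1 : ℝ≥0∞) = ∫⁻ _, 1 ∂A := by simp [hA]
        _ ≤ _ := lintegral_mono_ae h3
    have h6 : (1 : ℝ≥0∞) ≤ 1 / 2 + ∑' p, f p * G n p := h1.trans (add_le_add_left (hfail n) _)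
    have h7 : (1 / 2 : ℝ≥0∞) + 1 / 2 ≤ 1 / 2 + ∑' p, f p * G n p := by
      rw [ENNReal.add_halves]; exact h6
    have h8 : (1 / 2 : ℝ≥0∞) ≠ ∞ := by simp
    exact (ENNReal.add_le_add_iff_left h8).1 h7
  -- a finite set of pairs suffices
  have hfsum : ∑' p, f p ≤ 1 := by
    have h1 : ∑' p : ℕ × ℕ, f p = A (⋃ p : ℕ × ℕ, {g | Fst2 g p.1 p.2}) := by
      rw [measure_iUnion]
      · intro p p' hne
        rw [Function.onFun, Set.disjoint_left]
        intro g h h'
        obtain ⟨e1, e2⟩ := Fst2.unique h h'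
        exact hne (Prod.ext e1 e2)
      · exact fun p => meas_fst2 _ _
    rw [h1]
    exact prob_le_one
  obtain ⟨S, hS⟩ : ∃ S : Finset (ℕ × ℕ), ∑' p : {p // p ∉ S}, f p ≤ 1 / 4 := by
    have h1 := ENNReal.tendsto_tsum_compl_atTop_zero (f := f)
      (ne_top_of_le_ne_top ENNReal.one_ne_top hfsum)
    have h2 : ∀ᶠ S : Finset (ℕ × ℕ) in atTop, ∑' p : {p // p ∉ S}, f p < 1 / 4 :=
      h1.eventually (gt_mem_nhds (by simp))
    obtain ⟨S, hS⟩ := h2.exists
    exact ⟨S, hS.le⟩
  have hS2 : ∀ n, 1 / 4 ≤ ∑ p ∈ S, f p * G n p := by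
    intro n
    have h1 : ∑' p, f p * G n p = ∑ p ∈ S, f p * G n p + ∑' p : {p // p ∉ S}, f p * G n p := by
      have h0 := (Summable.tsum_add_tsum_compl (f := fun p => f p * G n p)
        (s := (S : Set (ℕ × ℕ))) ENNReal.summable ENNReal.summable).symm
      rw [Finset.tsum_subtype' S (fun p => f p * G n p)] at h0
      exact h0
    have h2 : ∑' p : {p // p ∉ S}, f p * G n p ≤ 1 / 4 := by
      refine le_trans (ENNReal.tsum_le_tsum fun p => ?_) hS
      calc f p * G n p ≤ f p * 1 := by gcongr; exact hG1 n p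
        _ = f p := mul_one _
    have h3 := hmain n
    rw [h1] at h3
    have h4 : (1 / 2 : ℝ≥0∞) = 1 / 4 + 1 / 4 := by
      rw [← ENNReal.toReal_eq_toReal_iff' (by simp) (by simp),
        ENNReal.toReal_add (by simp) (by simp)]
      norm_num
    have h5 : (1 / 4 : ℝ≥0∞) + 1 / 4 ≤ ∑ p ∈ S, f p * G n p + 1 / 4 := by
      rw [← h4]
      exact h3.trans (by gcongr)
    exact (ENNReal.add_le_add_iff_right (by simp)).1 h5
  let S' := S.filter fun p => 1 ≤ p.1 ∧ p.1 < p.2
  let c0 := S'.inf fun p => C {b | Pat p.1 p.2 b}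
  have hc0 : 0 < c0 := by
    rw [Finset.lt_inf_iff (by simp)]
    intro p hp'
    exact hp _ _ (Finset.mem_filter.1 hp').2.1 (Finset.mem_filter.1 hp').2.2
  refine ⟨min c0 1 * (1 / 4), ?_, fun n => ?_⟩
  · refine ENNReal.mul_pos ?_ (by simp)
    exact (lt_min hc0 one_pos).ne'
  have h1 : iter C (1 + n) = cmp C (iter C n) := by
    rw [iter_add]
    simp only [iter, dirac_cmp]
  have h2 : ∀ p ∈ S, p ∉ S' → f p * G n p = 0 := by
    intro p hpS hpS'
    have : f p = 0 := by
      have he : {g : ℕ → ℕ | Fst2 g p.1 p.2} = ∅ := by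
        rw [Set.eq_empty_iff_forall_notMem]
        rintro g ⟨h1, h2, _, _⟩
        apply hpS'
        refine Finset.mem_filter.2 ⟨hpS, ?_, h1⟩
        rcases Nat.eq_zero_or_pos p.1 with h | h
        · rw [h] at h2; exact absurd rfl h2
        · exact h
      simp only [f, he, measure_empty]
    rw [this, zero_mul]
  have h3 : ∑ p ∈ S', f p * G n p = ∑ p ∈ S, f p * G n p :=
    Finset.sum_subset (Finset.filter_subset _ _) h2
  have h4 : iter C (1 + n) {g | HH g} ≥ ∑ p ∈ S', C {b | Pat p.1 p.2 b} * G n p := by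
    rw [h1]
    have h5 : ∑ p ∈ S', C {b | Pat p.1 p.2 b} * G n p =
        (C.prod (iter C n)) (⋃ p ∈ S', {b | Pat p.1 p.2 b} ×ˢ {b | GG p.1 p.2 b}) := by
      rw [measure_biUnion_finset]
      · refine Finset.sum_congr rfl fun p _ => ?_
        rw [Measure.prod_prod]
      · intro p _ p' _ hne
        rw [Function.onFun, Set.disjoint_left]
        rintro q ⟨h, _⟩ ⟨h', _⟩
        obtain ⟨e1, e2⟩ := Fst2.unique h.1 h'.1
        exact hne (Prod.ext e1 e2)
      · exact fun p _ => (meas_pat _ _).prod (meas_GG _ _)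
    rw [h5]
    unfold cmp
    rw [ge_iff_le, Measure.map_apply measurable_comp meas_HH]
    apply measure_mono_ae
    have h6 : ∀ᵐ q ∂(C.prod (iter C n)), Seg q.2 :=
      Measure.quasiMeasurePreserving_snd.ae (iter_nice hn n).seg
    filter_upwards [h6] with q hq hq'
    have hq2 : q ∈ ⋃ p ∈ S', {b : ℕ → ℕ | Pat p.1 p.2 b} ×ˢ {b : ℕ → ℕ | GG p.1 p.2 b} := hq'
    simp only [Set.mem_iUnion] at hq2
    obtain ⟨p, _, h7, h8⟩ := hq2
    show HH (q.1 ∘ q.2)
    obtain ⟨x', y', h9⟩ := h8
    refine ⟨x', y', fst2_of_good hq h7.1 h9, ?_⟩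
    simp only [Function.comp_apply]
    rw [h9.2.1, h9.2.2.1]
    exact h7.2
  refine le_trans ?_ h4
  calc min c0 1 * (1 / 4) ≤ c0 * ∑ p ∈ S', f p * G n p := by
        rw [h3]
        exact mul_le_mul' (min_le_left _ _) (hS2 n)
    _ = ∑ p ∈ S', c0 * (f p * G n p) := by rw [Finset.mul_sum]
    _ ≤ ∑ p ∈ S', C {b | Pat p.1 p.2 b} * G n p := by
        refine Finset.sum_le_sum fun p hp' => ?_
        have h10 : c0 ≤ C {b | Pat p.1 p.2 b} := Finset.inf_le hp'
        have h11 : f p ≤ 1 := prob_le_one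
        calc c0 * (f p * G n p) ≤ C {b | Pat p.1 p.2 b} * (1 * G n p) := by gcongr
          _ = _ := by rw [one_mul]

end Pool.Agent.Helper97.LD
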