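import Pool.Agent.Helper97.LD.Window
import Pool.Agent.Helper97.LD.Freq

/-!
# The process at integer times
-/

set_option autoImplicit false

namespace Pool.Agent.Helper97.LD

open MeasureTheory ProbabilityTheory Filter
open scoped ENNReal NNReal Topology

variable {c : ℕ → ℝ≥0} {κ : ℕ → Measure ℝ}

/-! ### The law of the ancestral maps -/

theorem ancN_succ (w : ℕ → Win) (n : ℕ) : ancN w (n + 1) = ancN w n ∘ look (w n) 1 := rfl

theorem ancN_congr {w w' : ℕ → Win} (n : ℕ) (h : ∀ j < n, w j = w' j) : ancN w n = ancN w' n := by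
  induction n with
  | zero => rfl
  | succ n ih =>
    rw [ancN_succ, ancN_succ, ih fun j hj => h j (by omega), h n (by omega)]

theorem measurable_ancN (n : ℕ) : Measurable fun w : ℕ → Win => ancN w n := by
  induction n with
  | zero => exact measurable_const (a := (id : ℕ → ℕ))
  | succ n ih =>
    exact measurable_comp.comp (ih.prodMk ((measurable_look 1).comp (measurable_pi_apply n)))

/-- The law of the windows. -/
noncomputable def pathLaw (c : ℕ → ℝ≥0) (κ : ℕ → Measure ℝ) : Measure (ℕ → Win) :=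
  Measure.infinitePi fun _ : ℕ => windowLaw c κ

theorem map_ancN (hκ : ∀ k, IsProbabilityMeasure (κ k)) (n : ℕ) :
    (pathLaw c κ).map (fun w => ancN w n) = iter (BB c κ) n := by
  have := prob_windowLaw (c := c) hκ
  have := prob_BB (c := c) hκ
  induction n with
  | zero =>
    have : (fun w : ℕ → Win => ancN w 0) = fun _ => id := rfl
    unfold pathLaw
    rw [this, Measure.map_const, measure_univ, one_smul]
    rfl
  | succ n ih =>
    have h1 := map_pair (fun _ : ℕ => windowLaw c κ) n (Finset.range n) (by simp)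
      (f := fun z => look z 1) (measurable_look 1) (g := fun w : ℕ → Win => ancN w n)
      (measurable_ancN n) (fun w w' h => ancN_congr n fun j hj => h j (Finset.mem_range.2 hj))
    unfold pathLaw at ih ⊢
    rw [ih] at h1
    have hm : Measurable fun w : ℕ → Win => (look (w n) 1, ancN w n) :=
      ((measurable_look 1).comp (measurable_pi_apply n)).prodMk (measurable_ancN n)
    have e1 : (fun w : ℕ → Win => ancN w (n + 1)) =
        (fun p : (ℕ → ℕ) × (ℕ → ℕ) => p.1 ∘ p.2) ∘ Prod.swap ∘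
          fun w : ℕ → Win => (look (w n) 1, ancN w n) := rfl
    rw [e1, ← Measure.map_map measurable_comp (measurable_swap.comp hm),
      ← Measure.map_map measurable_swap hm, h1]
    have e2 : (windowLaw c κ).map (fun z => look z 1) = BB c κ := rfl
    rw [e2, Measure.prod_swap]
    rfl

theorem prob_pathLaw (hκ : ∀ k, IsProbabilityMeasure (κ k)) :
    IsProbabilityMeasure (pathLaw c κ) := by
  have := prob_windowLaw (c := c) hκ
  unfold pathLaw; infer_instance

theorem ae_ancN (hκ : ∀ k, IsProbabilityMeasure (κ k)) {p : (ℕ → ℕ) → Prop} {n : ℕ}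
    (h : ∀ᵐ g ∂(iter (BB c κ) n), p g) : ∀ᵐ w ∂(pathLaw c κ), p (ancN w n) := by
  rw [← map_ancN hκ] at h
  exact ae_of_ae_map (measurable_ancN n).aemeasurable h

/-! ### Initial types -/

/-- The law of the initial types. -/
noncomputable def typeLaw : Measure (ℕ → ℝ) := Measure.infinitePi fun _ : ℕ => unif

instance : IsProbabilityMeasure typeLaw := by unfold typeLaw; infer_instance

theorem ae_types_inj : ∀ᵐ U ∂typeLaw, Function.Injective U := by
  have h1 : ∀ i j : ℕ, i ≠ j → ∀ᵐ U ∂typeLaw, U i ≠ U j := by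
    intro i j hij
    have h2 : typeLaw.map (fun U : ℕ → ℝ => (U i, U j)) = unif.prod unif :=
      Measure.infinitePi_map_eval_prod (P := fun _ : ℕ => unif) hij
    have h3 : ∀ᵐ p ∂(unif.prod unif), p.1 ≠ p.2 := by
      have hm : MeasurableSet {p : ℝ × ℝ | p.1 = p.2} :=
        measurableSet_eq_fun measurable_fst measurable_snd
      rw [ae_iff]
      simp only [ne_eq, not_not]
      rw [Measure.prod_apply hm]
      refine (lintegral_congr fun x => ?_).trans lintegral_zero
      have e1 : Prod.mk x ⁻¹' {p : ℝ × ℝ | p.1 = p.2} = {x} := by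
        ext y
        simp only [Set.mem_preimage, Set.mem_ofPred_eq, Set.mem_singleton_iff]
        exact eq_comm
      rw [e1]
      unfold unif
      exact measure_singleton x
    rw [← h2] at h3
    exact ae_of_ae_map
      ((measurable_pi_apply i).prodMk (measurable_pi_apply j)).aemeasurable h3
  have h2 : ∀ᵐ U ∂typeLaw, ∀ i j : ℕ, i ≠ j → U i ≠ U j := by
    rw [ae_all_iff]; intro i
    rw [ae_all_iff]; intro j
    by_cases h : i = j
    · exact ae_of_all _ fun U h' => absurd h h'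
    · filter_upwards [h1 i j h] with U hU _ using hU
  filter_upwards [h2] with U hU i j e
  by_contra hne
  exact hU i j hne e

/-! ### Integer times -/

theorem win_nat {n : ℕ} : win (n : ℝ) = n - 1 := by
  unfold win
  rw [Nat.ceil_natCast]

theorem anc_nat (w : ℕ → Win) {n : ℕ} (hn : 1 ≤ n) (x : ℕ) : anc w n x = ancN w n x := by
  unfold anc
  rw [win_nat]
  obtain ⟨m, rfl⟩ : ∃ m, n = m + 1 := ⟨n - 1, by omega⟩
  have e : m + 1 - 1 = m := by omega
  rw [e, ancN_succ]
  have e2 : (((m + 1 : ℕ) : ℝ) - (m : ℝ)) = 1 := by push_cast; ring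
  rw [e2]
  rfl

open Classical in
/-- The number of the levels below `N` with the type `e`. -/
noncomputable def tc (g : ℕ → ℕ) (U : ℕ → ℝ) (e : ℝ) (N : ℕ) : ℕ :=
  ((Finset.range N).filter fun x => U (g x) = e).card

theorem cnt_nat (w : ℕ → Win) (U : ℕ → ℝ) {n : ℕ} (hn : 1 ≤ n) (e : ℝ) (N : ℕ) :
    cnt w U n e N = tc (ancN w n) U e N := by
  unfold cnt tc
  simp only [anc_nat w hn]

theorem tc_le (g : ℕ → ℕ) (U : ℕ → ℝ) (e : ℝ) (N : ℕ) : tc g U e N ≤ N := by
  classical
  unfold tc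
  exact (Finset.card_filter_le _ _).trans (by simp)

theorem tc_limit {g : ℕ → ℕ} {U : ℕ → ℝ} (hU : Function.Injective U)
    (hg : ∀ i, ∃ L : ℝ, Tendsto (fun N : ℕ => (bc g i N : ℝ) / N) atTop (𝓝 L)) (e : ℝ) :
    ∃ L : ℝ, Tendsto (fun N : ℕ => (tc g U e N : ℝ) / N) atTop (𝓝 L) := by
  classical
  by_cases h : ∃ x, U (g x) = e
  · obtain ⟨x, hx⟩ := h
    obtain ⟨L, hL⟩ := hg x
    refine ⟨L, hL.congr fun N => ?_⟩
    have : bc g x N = tc g U e N := by
      unfold bc tc
      congr 1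
      refine Finset.filter_congr fun j _ => ?_
      rw [← hx]
      exact ⟨fun e' => by rw [e'], fun e' => hU e'⟩
    rw [this]
  · refine ⟨0, ?_⟩
    push Not at h
    have : ∀ N : ℕ, (tc g U e N : ℝ) / N = 0 := by
      intro N
      have : tc g U e N = 0 := by
        unfold tc
        rw [Finset.card_eq_zero, Finset.filter_eq_empty_iff]
        exact fun x _ => h x
      rw [this]; simp
    simp only [this]
    exact tendsto_const_nhds

theorem mass_eq {w : ℕ → Win} {U : ℕ → ℝ} {n : ℕ} (hn : 1 ≤ n) {e L : ℝ}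
    (h : Tendsto (fun N : ℕ => (tc (ancN w n) U e N : ℝ) / N) atTop (𝓝 L)) :
    mass w U n e = L := by
  unfold mass
  simp only [cnt_nat w U hn]
  exact h.limsup_eq

/-! ### The levels outside the block of level `0` -/

/-- The lower frequency of the levels outside the block of `0`. -/
noncomputable def rf (g : ℕ → ℕ) : ℝ≥0∞ :=
  liminf (fun N : ℕ => ((rs N g).card : ℝ≥0∞) / N) atTop

theorem measurable_rsc (N : ℕ) : Measurable fun g : ℕ → ℕ => ((rs N g).card : ℝ≥0∞) / N :=
  measurable_of_dep N _ fun g g' h => by simp only [rs_congr (kEq_of_eq h)]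

theorem measurable_rf : Measurable rf := Measurable.liminf measurable_rsc

/-- The probability that the levels `0` and `1` have different ancestors. -/
noncomputable def nn (μ : Measure (ℕ → ℕ)) : ℝ≥0∞ := μ {g | g 1 ≠ g 0}

theorem meas_ne (j : ℕ) : MeasurableSet {g : ℕ → ℕ | g j ≠ g 0} :=
  (measurableSet_eq_fun (measurable_pi_apply j) (measurable_pi_apply 0)).compl

theorem nn_level {μ : Measure (ℕ → ℕ)} (h : ExK μ) (j : ℕ) : μ {g | g j ≠ g 0} ≤ nn μ := by
  rcases Nat.eq_zero_or_pos j with h0 | h0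
  · subst h0
    simp
  · unfold nn
    have h1 := h.swap (a := 1) (b := j) (by omega) (by omega) 2 (fun g => g 1 ≠ g 0) ?_
    · rw [← h1]
      have e0 : Equiv.swap 1 j 0 = 0 := Equiv.swap_apply_of_ne_of_ne (by omega) (by omega)
      simp only [Function.comp_apply, e0, Equiv.swap_apply_left]
      exact le_rfl
    · intro g g' hg e e'
      exact e ((hg 1 (by omega) 0 (by omega)).2 e')

theorem rf_le {μ : Measure (ℕ → ℕ)} (h : ExK μ) : ∫⁻ g, rf g ∂μ ≤ nn μ := by
  unfold rf
  refine (lintegral_liminf_le measurable_rsc).trans ?_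
  refine liminf_le_of_le (by isBoundedDefault) fun b hb => ?_
  obtain ⟨N, hN⟩ := hb.exists
  refine hN.trans ?_
  have h1 : ∀ g : ℕ → ℕ, ((rs N g).card : ℝ≥0∞) / N =
      (N : ℝ≥0∞)⁻¹ * ∑ j ∈ Finset.range N, {g : ℕ → ℕ | g j ≠ g 0}.indicator (fun _ => 1) g := by
    intro g
    rw [div_eq_mul_inv, mul_comm]
    congr 1
    unfold rs
    rw [Finset.card_filter]
    push_cast
    refine Finset.sum_congr rfl fun j _ => ?_
    simp only [Set.indicator, Set.mem_ofPred_eq, ne_eq]
  simp_rw [h1]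
  rw [lintegral_const_mul _ (Finset.measurable_fun_sum _ fun j _ =>
    measurable_const.indicator (meas_ne j)), lintegral_finsetSum _ fun j _ =>
    measurable_const.indicator (meas_ne j)]
  calc (N : ℝ≥0∞)⁻¹ * ∑ j ∈ Finset.range N,
        ∫⁻ g, {g : ℕ → ℕ | g j ≠ g 0}.indicator (fun _ => 1) g ∂μ
      ≤ (N : ℝ≥0∞)⁻¹ * ∑ _j ∈ Finset.range N, nn μ := by
        gcongr with j _
        rw [lintegral_indicator_const (meas_ne j), one_mul]
        exact nn_level h j
    _ = (N : ℝ≥0∞)⁻¹ * N * nn μ := by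
        rw [Finset.sum_const, Finset.card_range, nsmul_eq_mul, mul_assoc]
    _ ≤ 1 * nn μ := by
        gcongr
        exact ENNReal.inv_mul_le_one _
    _ = nn μ := one_mul _

theorem nn_cmp {μ C : Measure (ℕ → ℕ)} [SFinite μ] [SFinite C] (hC : Nice C) :
    nn (cmp μ C) = nn μ * nn C := by
  unfold nn
  have e1 : μ {g | g 1 ≠ g 0} * C {g | g 1 ≠ g 0} =
      ∫⁻ b, {g : ℕ → ℕ | g 1 ≠ g 0}.indicator (fun _ => (1 : ℝ≥0∞)) b * μ {g | g 1 ≠ g 0} ∂C := by
    rw [lintegral_mul_const _ (measurable_const.indicator (meas_ne 1)),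
      lintegral_indicator_const (meas_ne 1), one_mul, mul_comm]
  rw [cmp_apply _ _ (meas_ne 1), e1]
  refine lintegral_congr_ae ?_
  filter_upwards [hC.seg] with b hb
  have h0 := hb.zero
  have h1 : b 1 ≤ 1 := (hb.le_nb 1).trans (hb.nb_le 1)
  by_cases h : b 1 ≠ b 0
  · rw [Set.indicator_of_mem (show b ∈ {g : ℕ → ℕ | g 1 ≠ g 0} from h), one_mul]
    have h2 : b 1 = 1 := by omega
    simp only [Function.comp_apply, h2, h0]
  · rw [Set.indicator_of_notMem (show b ∉ {g : ℕ → ℕ | g 1 ≠ g 0} from h), zero_mul]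
    have h2 : b 1 = b 0 := not_not.1 h
    have : {g : ℕ → ℕ | g ∘ b ∈ {g | g 1 ≠ g 0}} = ∅ := by
      rw [Set.eq_empty_iff_forall_notMem]
      intro g hg
      apply hg
      simp only [Function.comp_apply, h2]
    exact (congrArg μ this).trans measure_empty

theorem nn_iter {C : Measure (ℕ → ℕ)} [IsProbabilityMeasure C] (hC : Nice C) (n : ℕ) :
    nn (iter C n) = nn C ^ n := by
  induction n with
  | zero =>
    simp only [iter, pow_zero]
    unfold nn
    rw [Measure.dirac_apply' _ (meas_ne 1), Set.indicator_of_mem]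
    · rfl
    · simp
  | succ n ih =>
    simp only [iter]
    rw [nn_cmp hC, ih, pow_succ]

theorem nn_lt_one {C : Measure (ℕ → ℕ)} [IsProbabilityMeasure C] (h : pc C ≠ 0) : nn C < 1 := by
  have h1 : MeasurableSet {b : ℕ → ℕ | b 1 = b 0} := meas_pc 0
  have h2 : nn C = 1 - pc C := by
    unfold nn pc
    rw [← prob_compl_eq_one_sub h1]
    rfl
  rw [h2]
  exact ENNReal.sub_lt_self (by simp) (by simp) h

/-- The frequencies of the levels outside the block of `0` tend to zero. -/
theorem ae_rf (h : Hyp c κ) (hp : pc (BB c κ) ≠ 0) :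
    ∀ᵐ w ∂(pathLaw c κ), Tendsto (fun n => rf (ancN w n)) atTop (𝓝 0) := by
  have := prob_BB (c := c) h.prob
  have hn := nice_BB h
  have hm : ∀ n, Measurable fun w : ℕ → Win => rf (ancN w n) :=
    fun n => measurable_rf.comp (measurable_ancN n)
  have h1 : ∫⁻ w, ∑' n, rf (ancN w n) ∂(pathLaw c κ) ≠ ∞ := by
    rw [lintegral_tsum fun n => (hm n).aemeasurable]
    have h2 : ∀ n, ∫⁻ w, rf (ancN w n) ∂(pathLaw c κ) ≤ nn (BB c κ) ^ n := by
      intro n
      have e1 := lintegral_map (μ := pathLaw c κ) measurable_rf (measurable_ancN n)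
      rw [map_ancN h.prob] at e1
      rw [← e1, ← nn_iter hn]
      exact rf_le (iter_nice hn n).ex
    refine ne_top_of_le_ne_top ?_ (ENNReal.tsum_le_tsum h2)
    rw [ENNReal.tsum_geometric]
    have := nn_lt_one hp
    rw [ENNReal.inv_ne_top]
    exact (tsub_pos_of_lt this).ne'
  filter_upwards [ae_lt_top (Measurable.ennreal_tsum hm) h1] with w hw
  exact ENNReal.tendsto_atTop_zero_of_tsum_ne_top hw.ne

/-! ### The Eves at integer times -/

section Eves

variable {g : ℕ → ℕ} {U : ℕ → ℝ}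

theorem rs_card_add (hU : Function.Injective U) (N : ℕ) :
    (rs N g).card + tc g U (U (g 0)) N = N := by
  classical
  unfold rs tc
  have h1 : (Finset.range N).filter (fun x => U (g x) = U (g 0)) =
      (Finset.range N).filter (fun x => ¬ (g x ≠ g 0)) := by
    refine Finset.filter_congr fun x _ => ?_
    rw [not_not]
    exact ⟨fun e => hU e, fun e => by rw [e]⟩
  rw [h1, Finset.card_filter_add_card_filter_not, Finset.card_range]

theorem tc_le_rs {e : ℝ} (he : e ≠ U (g 0)) (N : ℕ) : tc g U e N ≤ (rs N g).card := by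
  classical
  unfold rs tc
  refine Finset.card_le_card fun x hx => ?_
  rw [Finset.mem_filter] at hx ⊢
  refine ⟨hx.1, fun e' => he ?_⟩
  rw [← hx.2, e']

theorem tc_limit_le {e L : ℝ} (he : e ≠ U (g 0))
    (hL : Tendsto (fun N : ℕ => (tc g U e N : ℝ) / N) atTop (𝓝 L)) :
    ENNReal.ofReal L ≤ rf g := by
  unfold rf
  have h1 : Tendsto (fun N : ℕ => ENNReal.ofReal ((tc g U e N : ℝ) / N)) atTop
      (𝓝 (ENNReal.ofReal L)) := (ENNReal.continuous_ofReal.tendsto L).comp hL
  rw [← h1.liminf_eq]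
  refine liminf_le_liminf ?_
  filter_upwards [eventually_ge_atTop 1] with N hN
  have hN0 : (0 : ℝ) < N := by exact_mod_cast hN
  rw [ENNReal.ofReal_div_of_pos hN0, ENNReal.ofReal_natCast, ENNReal.ofReal_natCast]
  gcongr
  exact tc_le_rs he N

/-- The pairs of levels with different ancestors, when one type has many levels. -/
theorem kap_le {e : ℝ} (hU : Function.Injective U) (he : e ≠ U (g 0)) {N : ℕ}
    (hr : 2 ≤ (rs N g).card) :
    kap N g ≤ ENNReal.ofReal (1 - ((tc g U e N : ℝ) * (tc g U e N - 1)) /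
      ((rs N g).card * ((rs N g).card - 1))) := by
  classical
  set T := (Finset.range N).filter fun x => U (g x) = e with hT
  have hTr : T ⊆ rs N g := by
    intro x hx
    rw [hT, Finset.mem_filter] at hx
    unfold rs
    rw [Finset.mem_filter]
    refine ⟨hx.1, fun e' => he ?_⟩
    rw [← hx.2, e']
  have h1 : dp N g ⊆ (rs N g).offDiag \ T.offDiag := by
    intro p hp
    unfold dp at hp
    rw [Finset.mem_filter] at hp
    rw [Finset.mem_sdiff]
    refine ⟨hp.1, fun h' => hp.2 ?_⟩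
    rw [Finset.mem_offDiag, hT, Finset.mem_filter, Finset.mem_filter] at h'
    exact hU (h'.1.2.trans h'.2.1.2.symm)
  have h2 : T.offDiag ⊆ (rs N g).offDiag := Finset.offDiag_mono hTr
  have h3 : (dp N g).card + T.offDiag.card ≤ (rs N g).offDiag.card := by
    have h4 := Finset.card_le_card h1
    have h5 := Finset.card_sdiff_add_card_eq_card h2
    omega
  have hTc : T.card = tc g U e N := rfl
  set r := (rs N g).card with hrdef
  set t := tc g U e N with htdef
  have e1 : ((rs N g).offDiag.card : ℝ) = r * (r - 1) := by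
    rw [Finset.offDiag_card, ← hrdef, Nat.cast_sub (Nat.le_mul_self r)]
    push_cast; ring
  have e2 : (T.offDiag.card : ℝ) = t * (t - 1) := by
    rw [Finset.offDiag_card, hTc, Nat.cast_sub (Nat.le_mul_self t)]
    push_cast; ring
  have hr2 : (2 : ℝ) ≤ r := by exact_mod_cast hr
  have hpos : (0 : ℝ) < (rs N g).offDiag.card := by rw [e1]; nlinarith
  have e3 : kap N g = ENNReal.ofReal ((dp N g).card / ((rs N g).offDiag.card : ℝ)) := by
    unfold kap
    rw [ENNReal.ofReal_div_of_pos hpos, ENNReal.ofReal_natCast, ENNReal.ofReal_natCast]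
  rw [e3]
  refine ENNReal.ofReal_le_ofReal ?_
  have h6 : ((dp N g).card : ℝ) + T.offDiag.card ≤ (rs N g).offDiag.card := by exact_mod_cast h3
  rw [← e1, ← e2, div_le_iff₀ hpos, sub_mul, one_mul, div_mul_cancel₀ _ hpos.ne']
  linarith

theorem KK_le {e L₀ L₁ : ℝ} (hU : Function.Injective U) (he : e ≠ U (g 0))
    (h0 : Tendsto (fun N : ℕ => (tc g U (U (g 0)) N : ℝ) / N) atTop (𝓝 L₀))
    (h1 : Tendsto (fun N : ℕ => (tc g U e N : ℝ) / N) atTop (𝓝 L₁)) :
    KK g ≤ ENNReal.ofReal (1 - (L₁ / (1 - L₀)) ^ 2) := by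
  have hr : Tendsto (fun N : ℕ => ((rs N g).card : ℝ) / N) atTop (𝓝 (1 - L₀)) := by
    refine (tendsto_const_nhds.sub h0).congr' ?_
    filter_upwards [eventually_ge_atTop 1] with N hN
    have hN0 : (0 : ℝ) < N := by exact_mod_cast hN
    have h2 : ((rs N g).card : ℝ) + tc g U (U (g 0)) N = N := by
      exact_mod_cast rs_card_add hU N
    field_simp
    linarith
  by_cases hL : 1 - L₀ = 0
  · rw [hL]
    simpa using KK_le_one g
  have hL0 : 0 ≤ 1 - L₀ := ge_of_tendsto' hr fun N => by positivity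
  have hLpos : 0 < 1 - L₀ := lt_of_le_of_ne hL0 (Ne.symm hL)
  have hinv : Tendsto (fun N : ℕ => 1 / (N : ℝ)) atTop (𝓝 0) := tendsto_one_div_atTop_nhds_zero_nat
  have h2 : Tendsto (fun N : ℕ => ((tc g U e N : ℝ) * (tc g U e N - 1)) /
      ((rs N g).card * ((rs N g).card - 1))) atTop (𝓝 ((L₁ / (1 - L₀)) ^ 2)) := by
    have h3 : Tendsto (fun N : ℕ => ((tc g U e N : ℝ) / N * ((tc g U e N : ℝ) / N - 1 / N)) /
        (((rs N g).card : ℝ) / N * (((rs N g).card : ℝ) / N - 1 / N))) atTop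
        (𝓝 ((L₁ * (L₁ - 0)) / ((1 - L₀) * (1 - L₀ - 0)))) := by
      refine (h1.mul (h1.sub hinv)).div (hr.mul (hr.sub hinv)) ?_
      rw [sub_zero]
      positivity
    have e4 : (L₁ * (L₁ - 0)) / ((1 - L₀) * (1 - L₀ - 0)) = (L₁ / (1 - L₀)) ^ 2 := by
      rw [sub_zero, sub_zero, div_pow, sq, sq]
    rw [e4] at h3
    refine h3.congr' ?_
    filter_upwards [eventually_ge_atTop 1] with N hN
    have hN0 : (0 : ℝ) < N := by exact_mod_cast hN
    rw [← sub_div, ← sub_div, div_mul_div_comm, div_mul_div_comm, div_div_div_cancel_right₀]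
    positivity
  have hrinf : ∀ᶠ N : ℕ in atTop, 2 ≤ (rs N g).card := by
    have h3 : Tendsto (fun N : ℕ => ((rs N g).card : ℝ) / N * N) atTop atTop :=
      hr.pos_mul_atTop hLpos tendsto_natCast_atTop_atTop
    filter_upwards [h3.eventually_ge_atTop 2, eventually_ge_atTop 1] with N hN hN1
    have hN0 : (N : ℝ) ≠ 0 := by positivity
    rw [div_mul_cancel₀ _ hN0] at hN
    exact_mod_cast hN
  have h4 : Tendsto (fun N : ℕ => ENNReal.ofReal (1 - ((tc g U e N : ℝ) * (tc g U e N - 1)) /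
      ((rs N g).card * ((rs N g).card - 1)))) atTop
      (𝓝 (ENNReal.ofReal (1 - (L₁ / (1 - L₀)) ^ 2))) :=
    (ENNReal.continuous_ofReal.tendsto _).comp (tendsto_const_nhds.sub h2)
  rw [← h4.limsup_eq]
  unfold KK
  refine limsup_le_limsup ?_
  filter_upwards [hrinf] with N hN
  exact kap_le hU he hN

end Eves

/-- If there is an infinite sequence of Eves then `KK` tends to zero. -/
theorem KK_tendsto {w : ℕ → Win} {U : ℕ → ℝ} (hU : Function.Injective U)
    (hw : ∀ n, (ancN w n) 0 = 0)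
    (hf : ∀ n, ∀ i, ∃ L : ℝ, Tendsto (fun N : ℕ => (bc (ancN w n) i N : ℝ) / N) atTop (𝓝 L))
    (hrf : Tendsto (fun n => rf (ancN w n)) atTop (𝓝 0)) (hE : HasEves w U) :
    Tendsto (fun n => KK (ancN w n)) atTop (𝓝 0) := by
  obtain ⟨e, he, _, hlim⟩ := hE
  have hcast : Tendsto (fun n : ℕ => (n : ℝ)) atTop atTop := tendsto_natCast_atTop_atTop
  have h0 : Tendsto (fun n : ℕ => mass w U n (e 0)) atTop (𝓝 1) := by
    have := (hlim 0).comp hcast
    simpa [Function.comp_def] using this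
  have h1 : Tendsto (fun n : ℕ => mass w U n (e 1) / (1 - mass w U n (e 0))) atTop (𝓝 1) := by
    have := (hlim 1).comp hcast
    simpa [Function.comp_def] using this
  -- the first Eve is the type of level `0`
  have he0 : e 0 = U 0 := by
    by_contra hne
    have h2 : Tendsto (fun n : ℕ => ENNReal.ofReal (mass w U n (e 0))) atTop
        (𝓝 (ENNReal.ofReal 1)) := (ENNReal.continuous_ofReal.tendsto 1).comp h0
    have h3 : ENNReal.ofReal 1 ≤ 0 := by
      refine le_of_tendsto_of_tendsto h2 hrf ?_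
      filter_upwards [eventually_ge_atTop 1] with n hn
      obtain ⟨L, hL⟩ := tc_limit hU (hf n) (e 0)
      rw [mass_eq hn hL]
      exact tc_limit_le (by rw [hw n]; exact hne) hL
    simp at h3
  have he1 : e 1 ≠ U 0 := by
    rw [← he0]
    exact fun h => absurd (he h) (by omega)
  have h2 : Tendsto (fun n : ℕ => ENNReal.ofReal
      (1 - (mass w U n (e 1) / (1 - mass w U n (e 0))) ^ 2)) atTop (𝓝 0) := by
    have h3 : Tendsto (fun n : ℕ => 1 - (mass w U n (e 1) / (1 - mass w U n (e 0))) ^ 2) atTop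
        (𝓝 (1 - 1 ^ 2)) := tendsto_const_nhds.sub (h1.pow 2)
    have h4 := (ENNReal.continuous_ofReal.tendsto _).comp h3
    simpa [Function.comp_def] using h4
  refine tendsto_of_tendsto_of_tendsto_of_le_of_le' tendsto_const_nhds h2
    (Eventually.of_forall fun _ => zero_le) ?_
  filter_upwards [eventually_ge_atTop 1] with n hn
  obtain ⟨L₀, hL₀⟩ := tc_limit hU (hf n) (e 0)
  obtain ⟨L₁, hL₁⟩ := tc_limit hU (hf n) (e 1)
  rw [mass_eq hn hL₀, mass_eq hn hL₁]
  refine KK_le hU (by rw [hw n]; exact he1) ?_ hL₁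
  rw [hw n, ← he0]
  exact hL₀

theorem ae_prod {p : (ℕ → Win) → Prop} {q : (ℕ → ℝ) → Prop}
    (hκ : ∀ k, IsProbabilityMeasure (κ k)) (hp : ∀ᵐ w ∂(pathLaw c κ), p w)
    (hq : ∀ᵐ U ∂typeLaw, q U) : ∀ᵐ ω ∂(fvLaw c κ), p ω.1 ∧ q ω.2 := by
  have := prob_pathLaw (c := c) hκ
  have e1 : fvLaw c κ = (pathLaw c κ).prod typeLaw := rfl
  rw [e1]
  filter_upwards [Measure.quasiMeasurePreserving_fst.ae hp,
    Measure.quasiMeasurePreserving_snd.ae hq] with ω h1 h2 using ⟨h1, h2⟩

theorem prob_fvLaw (hκ : ∀ k, IsProbabilityMeasure (κ k)) :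
    IsProbabilityMeasure (fvLaw c κ) := by
  have := prob_pathLaw (c := c) hκ
  have e1 : fvLaw c κ = (pathLaw c κ).prod typeLaw := rfl
  rw [e1]; infer_instance

/-- No infinite sequence of Eves, when there are no atoms of size `1`. -/
theorem no_eves_of (h : Hyp c κ) (h1 : nu c κ {1} = 0) (h2 : nu c κ ≠ 0)
    (hs : ∀ᵐ b ∂(BB c κ), Surj b)
    (hff : failMass (Measure.sum (iter (BB c κ))) (BB c κ) ≠ ∞) :
    ¬ ∀ᵐ ω ∂(fvLaw c κ), HasEves ω.1 ω.2 := by
  intro hE
  have := prob_BB (c := c) h.prob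
  have := prob_pathLaw (c := c) h.prob
  have := prob_fvLaw (c := c) h.prob
  have hn := nice_BB h
  obtain ⟨δ, hδ, hδ'⟩ := main_pos h h1 h2 hs hff
  have hw : ∀ᵐ w ∂(pathLaw c κ), (∀ n, (ancN w n) 0 = 0) ∧
      (∀ n, ∀ i, ∃ L : ℝ, Tendsto (fun N : ℕ => (bc (ancN w n) i N : ℝ) / N) atTop (𝓝 L)) ∧
      Tendsto (fun n => rf (ancN w n)) atTop (𝓝 0) := by
    have a1 : ∀ᵐ w ∂(pathLaw c κ), ∀ n, (ancN w n) 0 = 0 := by
      rw [ae_all_iff]; intro n
      have : ∀ᵐ g ∂(iter (BB c κ) n), g 0 = 0 := by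
        filter_upwards [(iter_nice hn n).seg] with g hg using hg.zero
      exact ae_ancN h.prob this
    have a2 : ∀ᵐ w ∂(pathLaw c κ), ∀ n, ∀ i, ∃ L : ℝ,
        Tendsto (fun N : ℕ => (bc (ancN w n) i N : ℝ) / N) atTop (𝓝 L) := by
      rw [ae_all_iff]; intro n
      exact ae_ancN h.prob (p := fun g => ∀ i, ∃ L : ℝ,
        Tendsto (fun N : ℕ => (bc g i N : ℝ) / N) atTop (𝓝 L)) (freq_exists (iter_nice hn n).ex)
    filter_upwards [a1, a2, ae_rf h (pc_BB h h1 h2)] with w b1 b2 b3 using ⟨b1, b2, b3⟩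
  have hall : ∀ᵐ ω ∂(fvLaw c κ), Tendsto (fun n => KK (ancN ω.1 n)) atTop (𝓝 0) := by
    filter_upwards [hE, ae_prod h.prob hw ae_types_inj] with ω c1 c2
    exact KK_tendsto c2.2 c2.1.1 c2.1.2.1 c2.1.2.2 c1
  have hm : ∀ n, Measurable fun ω : (ℕ → Win) × (ℕ → ℝ) => KK (ancN ω.1 n) :=
    fun n => (measurable_KK.comp (measurable_ancN n)).comp measurable_fst
  have t : Tendsto (fun n => ∫⁻ ω, KK (ancN ω.1 n) ∂(fvLaw c κ)) atTop (𝓝 0) := by
    have t1 := tendsto_lintegral_of_dominated_convergence (μ := fvLaw c κ)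
      (F := fun (n : ℕ) (ω : (ℕ → Win) × (ℕ → ℝ)) => KK (ancN ω.1 n)) (f := fun _ => 0)
      (fun _ => 1) hm (fun n => ae_of_all _ fun ω => KK_le_one _) (by simp) hall
    simpa using t1
  have hlow : ∀ n, δ ≤ ∫⁻ ω, KK (ancN ω.1 (1 + n)) ∂(fvLaw c κ) := by
    intro n
    refine (hδ' n).trans ((hh_le (iter_nice hn (1 + n)).ex).trans (le_of_eq ?_))
    rw [← map_ancN h.prob, lintegral_map measurable_KK (measurable_ancN _)]
    have e1 : fvLaw c κ = (pathLaw c κ).prod typeLaw := rfl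
    rw [e1]
    have e2 := lintegral_map (μ := (pathLaw c κ).prod typeLaw)
      (f := fun w : ℕ → Win => KK (ancN w (1 + n))) (g := Prod.fst)
      (measurable_KK.comp (measurable_ancN _)) measurable_fst
    rw [← e2, Measure.map_fst_prod, measure_univ, one_smul]
  have t2 : Tendsto (fun n => ∫⁻ ω, KK (ancN ω.1 (1 + n)) ∂(fvLaw c κ)) atTop (𝓝 0) :=
    t.comp (tendsto_add_atTop_nat 1 |>.congr fun n => by rw [add_comm])
  have h3 : δ ≤ 0 := ge_of_tendsto' t2 hlow
  exact absurd (le_antisymm h3 zero_le) hδ.ne'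

/-- No infinite sequence of Eves in the regime with dust, when there are no atoms of size `1`. -/
theorem no_eves (h : Hyp c κ) (hfin : ∫⁻ u, ENNReal.ofReal u ∂(nu c κ) ≠ ∞)
    (h1 : nu c κ {1} = 0) (h2 : nu c κ ≠ 0) :
    ¬ ∀ᵐ ω ∂(fvLaw c κ), HasEves ω.1 ω.2 :=
  no_eves_of h h1 h2 (surj_BB h hfin h1) (dust_fail h hfin h1 h2)

end Pool.Agent.Helper97.LD
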