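import Pool.Agent.Helper97.LD.Ae
import Pool.Agent.Helper97.LD.Pos

/-!
# The law of the map of a window
-/

set_option autoImplicit false

namespace Pool.Agent.Helper97.LD

open MeasureTheory ProbabilityTheory Filter
open scoped ENNReal NNReal Topology

variable {c : ℕ → ℝ≥0} {κ : ℕ → Measure ℝ}

theorem nice_BB (h : Hyp c κ) : Nice (BB c κ) where
  seg := by
    unfold BB
    rw [ae_map_iff (measurable_look 1).aemeasurable measurableSet_seg]
    filter_upwards [ae_look h] with z hz x v hv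
    obtain ⟨K₀, hK₀⟩ := hz x
    have h1 := hK₀ K₀ le_rfl
    rw [h1 x le_rfl] at hv
    obtain ⟨y, hy, e⟩ := back_seg z (lst z.1 K₀) x v hv
    exact ⟨y, hy, by rw [h1 y hy.le]; exact e⟩
  ex := by
    classical
    intro r i h0 hi P hP
    have h1 : MeasurableSet {g | P g} :=
      measurableSet_of_dep r P fun g g' hg => hP g g' (kEq_of_eq hg)
    have h2 : MeasurableSet {g | P (g ∘ i)} := (measurable_comp_right i) h1
    obtain ⟨M, hM⟩ : ∃ M, ∀ x < r, i x < M := by
      refine ⟨(Finset.range r).sup i + 1, fun x hx => ?_⟩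
      have := Finset.le_sup (f := i) (Finset.mem_range.2 hx)
      omega
    have t1 := tendsto_BB h (f := {g | P g}.indicator fun _ => 1) r (by
      intro g g' hg
      have : P g ↔ P g' := ⟨hP g g' (kEq_of_eq hg), hP g' g (kEq_of_eq hg).symm⟩
      by_cases hp : P g
      · rw [Set.indicator_of_mem (show g ∈ {g | P g} from hp),
          Set.indicator_of_mem (show g' ∈ {g | P g} from this.1 hp)]
      · rw [Set.indicator_of_notMem (show g ∉ {g | P g} from hp),
          Set.indicator_of_notMem (show g' ∉ {g | P g} from fun h' => hp (this.2 h'))])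
      (fun g => Set.indicator_le_self' (by simp) g)
    have t2 := tendsto_BB h (f := {g | P (g ∘ i)}.indicator fun _ => 1) M (by
      intro g g' hg
      have hk : KEq r (g ∘ i) (g' ∘ i) := kEq_of_eq fun x hx => hg _ (hM x hx)
      have : P (g ∘ i) ↔ P (g' ∘ i) := ⟨hP _ _ hk, hP _ _ hk.symm⟩
      by_cases hp : P (g ∘ i)
      · rw [Set.indicator_of_mem (show g ∈ {g | P (g ∘ i)} from hp),
          Set.indicator_of_mem (show g' ∈ {g | P (g ∘ i)} from this.1 hp)]
      · rw [Set.indicator_of_notMem (show g ∉ {g | P (g ∘ i)} from hp),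
          Set.indicator_of_notMem (show g' ∉ {g | P (g ∘ i)} from fun h' => hp (this.2 h'))])
      (fun g => Set.indicator_le_self' (by simp) g)
    have e1 : ∀ l : List ℝ, ∫⁻ b, {g | P (g ∘ i)}.indicator (fun _ => 1) b ∂(comps l) =
        ∫⁻ b, {g | P g}.indicator (fun _ => 1) b ∂(comps l) := by
      intro l
      rw [lintegral_indicator_const h1, lintegral_indicator_const h2,
        (comps_nice l).ex r i h0 hi P hP]
    simp_rw [e1] at t2
    have e2 := tendsto_nhds_unique t2 t1
    rw [lintegral_indicator_const h1, lintegral_indicator_const h2, one_mul, one_mul] at e2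
    exact e2

/-! ### Failures -/

theorem failMass_eq (S C : Measure (ℕ → ℕ)) [SFinite S] [SFinite C] :
    failMass S C = ∫⁻ b, S {g | Fail g b} ∂C := by
  unfold failMass
  have h1 : (S.prod C) {p | Fail p.1 p.2} = ∫⁻ g, C {b | Fail g b} ∂S :=
    Measure.prod_apply meas_fail
  have h2 : (S.prod C) {p | Fail p.1 p.2} = ∫⁻ b, S {g | Fail g b} ∂C :=
    Measure.prod_apply_symm meas_fail
  rw [← h1, h2]

/-- A failure seen on the first levels. -/
def FailN (Y : ℕ) (g b : ℕ → ℕ) : Prop := ∃ x y, y < Y ∧ Fst2 (g ∘ b) x y ∧ b x = b y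

theorem failN_congr {Y : ℕ} {g b b' : ℕ → ℕ} (h : ∀ x < Y, b x = b' x) (hf : FailN Y g b) :
    FailN Y g b' := by
  obtain ⟨x, y, hy, ⟨h1, h2, h3, h4⟩, h5⟩ := hf
  refine ⟨x, y, hy, ⟨h1, ?_, ?_, fun j hj hjx => ?_⟩, ?_⟩
  · simp only [Function.comp_apply] at h2 ⊢
    rw [← h x (by omega), ← h 0 (by omega)]; exact h2
  · simp only [Function.comp_apply] at h3 ⊢
    rw [← h y (by omega), ← h 0 (by omega)]; exact h3
  · have := h4 j hj hjx
    simp only [Function.comp_apply] at this ⊢
    rw [← h j (by omega), ← h 0 (by omega)]; exact this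
  · rw [← h x (by omega), ← h y (by omega)]; exact h5

theorem sum_szs {e : Env} (K : ℕ) :
    ((szs e K).map fun u => ENNReal.ofReal u).sum ≤ asum (fun u => ENNReal.ofReal u) e := by
  classical
  unfold szs
  rw [List.map_map, ← List.sum_toFinset _ (lst_nodup e K)]
  unfold asum
  refine le_trans (le_of_eq ?_) (ENNReal.sum_le_tsum (lst e K).toFinset)
  refine Finset.sum_congr rfl fun a ha => ?_
  have hp : present e a := (mem_lst.1 (List.mem_toFinset.1 ha)).2
  rw [Set.indicator_of_mem (show e ∈ {e : Env | present e a} from hp)]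
  rfl

theorem szs_mem {e : Env} {K : ℕ} {u : ℝ} (h : u ∈ szs e K) :
    ∃ a, present e a ∧ e.2.2 a = u := by
  unfold szs at h
  obtain ⟨a, ha, e'⟩ := List.mem_map.1 h
  exact ⟨a, (mem_lst.1 ha).2, e'⟩

theorem fail_BB (h : Hyp c κ) (hfin : ∫⁻ u, ENNReal.ofReal u ∂(nu c κ) ≠ ∞) {S : Measure (ℕ → ℕ)} [SFinite S] (hS : Nice S) {q : ℝ≥0∞}
    (hT : TB S q) (hq : q ≠ 0) (hq' : q ≠ ∞) : failMass S (BB c κ) ≠ ∞ := by
  have := prob_windowLaw (c := c) h.prob
  have := prob_envLaw (c := c) h.prob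
  have := prob_BB (c := c) h.prob
  set X := ∫⁻ u, ENNReal.ofReal u ∂(nu c κ) with hX
  have hψ : Measurable fun b : ℕ → ℕ => S {g | Fail g b} := measurable_measure_prodMk_right meas_fail
  -- the bound for the truncated windows
  have h1 : ∀ K, ∫⁻ z, S {g | Fail g (back z (lst z.1 K))} ∂(windowLaw c κ) ≤ X / q := by
    intro K
    rw [lintegral_blist h.prob K hψ]
    have e1 : ∀ e, ∫⁻ b, S {g | Fail g b} ∂(comps (szs e K)) = failMass S (comps (szs e K)) :=
      fun e => (failMass_eq S _).symm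
    simp_rw [e1]
    rw [ENNReal.le_div_iff_mul_le (Or.inl hq) (Or.inl hq'), mul_comm]
    rw [← lintegral_const_mul' _ _ hq']
    have e2 : X = ∫⁻ e, asum (fun u => ENNReal.ofReal u) e ∂(envLaw c κ) :=
      (campbell (c := c) h.prob ENNReal.measurable_ofReal).symm
    rw [e2]
    refine lintegral_mono_ae ?_
    filter_upwards [ae_size_mem h] with e he
    refine (comps_fail (szs e K) (fun u hu => ?_) hS hT).trans (sum_szs K)
    obtain ⟨a, ha, e3⟩ := szs_mem hu
    rw [← e3]
    exact ⟨(he a ha).1.le, (he a ha).2⟩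
  -- Fatou
  have h2 : failMass S (BB c κ) ≤ X / q := by
    rw [failMass_eq]
    unfold BB
    rw [lintegral_map hψ (measurable_look 1)]
    have h3 : ∀ᵐ z ∂(windowLaw c κ), S {g | Fail g (look z 1)} ≤
        liminf (fun K => S {g | Fail g (back z (lst z.1 K))}) atTop := by
      filter_upwards [ae_look h] with z hz
      have e1 : {g | Fail g (look z 1)} = ⋃ Y, {g | FailN Y g (look z 1)} := by
        ext g
        simp only [Set.mem_ofPred_eq, Set.mem_iUnion]
        constructor
        · rintro ⟨x, y, h4, h5⟩; exact ⟨y + 1, x, y, by omega, h4, h5⟩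
        · rintro ⟨Y, x, y, _, h4, h5⟩; exact ⟨x, y, h4, h5⟩
      have hmono : Monotone fun Y => {g | FailN Y g (look z 1)} := by
        intro Y Y' hY g hg
        obtain ⟨x, y, hy, h4⟩ := hg
        exact ⟨x, y, by omega, h4⟩
      rw [e1, hmono.measure_iUnion]
      refine iSup_le fun Y => ?_
      refine le_liminf_of_le (by isBoundedDefault) ?_
      obtain ⟨K₀, hK₀⟩ := hz Y
      filter_upwards [eventually_ge_atTop K₀] with K hK
      refine measure_mono ?_
      intro g hg
      have h4 := failN_congr (fun x hx => hK₀ K hK x hx.le) hg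
      obtain ⟨x, y, _, h5, h6⟩ := h4
      exact ⟨x, y, h5, h6⟩
    refine (lintegral_mono_ae h3).trans ?_
    refine (lintegral_liminf_le fun K => hψ.comp (measurable_blist K)).trans ?_
    exact liminf_le_of_le (by isBoundedDefault) fun b hb => by
      obtain ⟨K, hK⟩ := hb.exists
      exact hK.trans (h1 K)
  refine ne_top_of_le_ne_top ?_ h2
  exact ENNReal.div_ne_top hfin hq

/-! ### Infinite products -/

theorem one_sub_sum_le {ι : Type*} (s : Finset ι) (t : ι → ℝ≥0∞) (ht : ∀ i ∈ s, t i ≤ 1) :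
    1 - ∑ i ∈ s, t i ≤ ∏ i ∈ s, (1 - t i) := by
  classical
  induction s using Finset.induction_on with
  | empty => simp
  | insert a s ha ih =>
    have ih := ih fun i hi => ht i (Finset.mem_insert_of_mem hi)
    rw [Finset.sum_insert ha, Finset.prod_insert ha]
    set x := t a
    set T := ∑ i ∈ s, t i
    calc 1 - (x + T) = (1 - x) - T := by rw [tsub_add_eq_tsub_tsub]
      _ ≤ (1 - x) - (1 - x) * T := by
          apply tsub_le_tsub_left
          calc (1 - x) * T ≤ 1 * T := by gcongr; exact tsub_le_self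
            _ = T := one_mul _
      _ = (1 - x) * (1 - T) := by
          rw [ENNReal.mul_sub (fun _ _ => ne_top_of_le_ne_top ENNReal.one_ne_top tsub_le_self),
            mul_one]
      _ ≤ (1 - x) * ∏ i ∈ s, (1 - t i) := by gcongr

/-- A lower bound for the products over the atoms. -/
theorem prod_lower {e : Env} {f : ℝ → ℝ≥0∞} (h1 : asum (fun u => 1 - f u) e ≠ ∞)
    (h2 : ∀ a, present e a → f (e.2.2 a) ≤ 1 ∧ f (e.2.2 a) ≠ 0) :
    ∃ δ : ℝ≥0∞, δ ≠ 0 ∧ ∀ K, δ ≤ ((szs e K).map f).prod := by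
  classical
  obtain ⟨F, hF⟩ : ∃ F : Finset Name, ∑' a : {a // a ∉ F},
      {e : Env | present e (a : Name)}.indicator (fun e => 1 - f (e.2.2 a)) e ≤ 1 / 2 := by
    have h3 := ENNReal.tendsto_tsum_compl_atTop_zero (f := fun a : Name =>
      {e : Env | present e a}.indicator (fun e => 1 - f (e.2.2 a)) e) h1
    have h4 := h3.eventually (gt_mem_nhds (show (0 : ℝ≥0∞) < 1 / 2 by simp))
    obtain ⟨F, hF⟩ := h4.exists
    exact ⟨F, hF.le⟩
  let F' := F.filter fun a => present e a
  refine ⟨(∏ a ∈ F', f (e.2.2 a)) * (1 / 2), ?_, fun K => ?_⟩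
  · refine mul_ne_zero (Finset.prod_ne_zero_iff.2 fun a ha => ?_) (by simp)
    exact (h2 a (Finset.mem_filter.1 ha).2).2
  · set G := (lst e K).toFinset with hG
    have hGp : ∀ a ∈ G, present e a := fun a ha => (mem_lst.1 (List.mem_toFinset.1 ha)).2
    have e1 : ((szs e K).map f).prod = ∏ a ∈ G, f (e.2.2 a) := by
      unfold szs
      rw [List.map_map, hG, List.prod_toFinset _ (lst_nodup e K)]
      rfl
    have e2 : ∏ a ∈ G, f (e.2.2 a) = (∏ a ∈ G ∩ F, f (e.2.2 a)) * ∏ a ∈ G \ F, f (e.2.2 a) := by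
      rw [Finset.prod_inter_mul_prod_sdiff]
    rw [e1, e2]
    refine mul_le_mul' ?_ ?_
    · refine Finset.prod_le_prod_of_subset_of_le_one' (s := G ∩ F) (t := F') ?_ ?_
      · intro a ha
        rw [Finset.mem_inter] at ha
        exact Finset.mem_filter.2 ⟨ha.2, hGp a ha.1⟩
      · intro a ha _
        exact (h2 a (Finset.mem_filter.1 ha).2).1
    · have h3 : ∏ a ∈ G \ F, f (e.2.2 a) = ∏ a ∈ G \ F, (1 - (1 - f (e.2.2 a))) := by
        refine Finset.prod_congr rfl fun a ha => ?_
        rw [ENNReal.sub_sub_cancel ENNReal.one_ne_top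
          (h2 a (hGp a (Finset.mem_sdiff.1 ha).1)).1]
      rw [h3]
      refine le_trans ?_ (one_sub_sum_le (G \ F) (fun a => 1 - f (e.2.2 a))
        fun a _ => tsub_le_self)
      have h5 : ∑ a ∈ G \ F, (1 - f (e.2.2 a)) ≤ 1 / 2 := by
        refine le_trans ?_ hF
        have h6 : ∑ a ∈ G \ F, (1 - f (e.2.2 a)) = ∑ a ∈ G \ F,
            {e : Env | present e a}.indicator (fun e => 1 - f (e.2.2 a)) e := by
          refine Finset.sum_congr rfl fun a ha => ?_
          rw [Set.indicator_of_mem]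
          exact hGp a (Finset.mem_sdiff.1 ha).1
        rw [h6, ← Finset.tsum_subtype (G \ F)]
        refine ENNReal.tsum_comp_le_tsum_of_injective
          (f := fun a : {a // a ∈ G \ F} => (⟨a.1, (Finset.mem_sdiff.1 a.2).2⟩ : {a // a ∉ F}))
          ?_ (fun a : {a // a ∉ F} => {e : Env | present e (a : Name)}.indicator
            (fun e => 1 - f (e.2.2 a)) e)
        intro a b hab
        have := congrArg Subtype.val hab
        exact Subtype.ext this
      calc (1 / 2 : ℝ≥0∞) = 1 - 1 / 2 := by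
            rw [eq_comm]
            exact ENNReal.sub_eq_of_eq_add (by simp) (ENNReal.add_halves 1).symm
        _ ≤ _ := by gcongr

/-- The infimum of the products over the atoms. -/
noncomputable def wf (f : ℝ → ℝ≥0∞) (e : Env) : ℝ≥0∞ := ⨅ K, ((szs e K).map f).prod

theorem measurable_pf {f : ℝ → ℝ≥0∞} (hf : Measurable f) (K : ℕ) :
    Measurable fun e : Env => ((szs e K).map f).prod := by
  have h1 : ∀ l : List Name, Measurable fun e : Env => ((l.map fun a => f (e.2.2 a)).prod) := by
    intro l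
    induction l with
    | nil => simp
    | cons a l ih =>
      simp only [List.map_cons, List.prod_cons]
      exact (hf.comp (measurable_size a)).mul ih
  intro s hs
  have : (fun e : Env => ((szs e K).map f).prod) ⁻¹' s =
      ⋃ l : List Name, ({e : Env | lst e K = l} ∩
        (fun e : Env => (l.map fun a => f (e.2.2 a)).prod) ⁻¹' s) := by
    ext e
    simp only [Set.mem_preimage, Set.mem_iUnion, Set.mem_inter_iff, Set.mem_ofPred_eq]
    have e1 : ((szs e K).map f).prod = ((lst e K).map fun a => f (e.2.2 a)).prod := by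
      unfold szs
      rw [List.map_map]
      rfl
    constructor
    · intro h
      exact ⟨lst e K, rfl, by rw [← e1]; exact h⟩
    · rintro ⟨l, rfl, h⟩
      rw [e1]; exact h
  rw [this]
  exact MeasurableSet.iUnion fun l => (meas_lst K l).inter (h1 l hs)

theorem measurable_wf {f : ℝ → ℝ≥0∞} (hf : Measurable f) : Measurable (wf f) :=
  Measurable.iInf (measurable_pf hf)

theorem wf_ne_zero {e : Env} {f : ℝ → ℝ≥0∞} (h1 : asum (fun u => 1 - f u) e ≠ ∞)
    (h2 : ∀ a, present e a → f (e.2.2 a) ≤ 1 ∧ f (e.2.2 a) ≠ 0) : wf f e ≠ 0 := by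
  obtain ⟨δ, hδ, hδ'⟩ := prod_lower h1 h2
  intro h0
  have : δ ≤ wf f e := le_iInf hδ'
  rw [h0] at this
  exact hδ (le_antisymm this zero_le)

theorem nb_pos (g : ℕ → ℕ) {m : ℕ} (hm : 1 ≤ m) : 1 ≤ nb g m := by
  have := lt_nb_of_lt g (show 0 < m from hm)
  omega

theorem inv_nb_le_one (g : ℕ → ℕ) {m : ℕ} (hm : 1 ≤ m) : ((nb g m : ℕ) : ℝ≥0∞)⁻¹ ≤ 1 := by
  rw [ENNReal.inv_le_one]
  exact_mod_cast nb_pos g hm

/-- If the inverse moments tend to zero along a sequence, infinitely many values are taken. -/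
theorem surj_of_inv {C : Measure (ℕ → ℕ)} (x : ℕ → ℝ≥0∞) (hx : Tendsto x atTop (𝓝 0)) (k : ℕ → ℕ)
    (h : ∀ j, ∫⁻ b, ((nb b (k j) : ℕ) : ℝ≥0∞)⁻¹ ∂C ≤ x j) : ∀ᵐ b ∂C, Surj b := by
  have key : ∀ R : ℕ, C {b | ∀ m, nb b m < R} = 0 := by
    intro R
    have hm : MeasurableSet {b : ℕ → ℕ | ∀ m, nb b m < R} := by
      have : {b : ℕ → ℕ | ∀ m, nb b m < R} = ⋂ m, {b : ℕ → ℕ | nb b m < R} := by
        ext b; simp
      rw [this]
      exact MeasurableSet.iInter fun m => measurableSet_lt (measurable_nb m) measurable_const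
    have hbound : ∀ j : ℕ, (R : ℝ≥0∞)⁻¹ * C {b | ∀ m, nb b m < R} ≤ x j := by
      intro j
      refine le_trans ?_ (h j)
      rw [← lintegral_indicator_const hm]
      refine lintegral_mono fun b => ?_
      by_cases hb : ∀ m, nb b m < R
      · rw [Set.indicator_of_mem (show b ∈ {b | ∀ m, nb b m < R} from hb), ENNReal.inv_le_inv]
        exact_mod_cast (hb (k j)).le
      · rw [Set.indicator_of_notMem (show b ∉ {b | ∀ m, nb b m < R} from hb)]
        exact zero_le
    have h2 : (R : ℝ≥0∞)⁻¹ * C {b | ∀ m, nb b m < R} ≤ 0 := ge_of_tendsto' hx hbound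
    have h3 := le_antisymm h2 zero_le
    rcases mul_eq_zero.1 h3 with h4 | h4
    · simp at h4
    · exact h4
  have hall : ∀ᵐ b ∂C, ∀ R : ℕ, ¬ ∀ m, nb b m < R := by
    rw [ae_all_iff]
    intro R
    rw [ae_iff]
    simp only [not_not]
    exact key R
  filter_upwards [hall] with b hb R
  have := hb R
  push Not at this
  exact this

/-! ### Dust -/

/-- The infinite product of the numbers `1 - u`. -/
noncomputable def wi (e : Env) : ℝ≥0∞ := wf (fun u => ENNReal.ofReal (1 - u)) e

theorem measurable_wi : Measurable wi := measurable_wf (by fun_prop)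

theorem ae_wi (h : Hyp c κ) (hfin : ∫⁻ u, ENNReal.ofReal u ∂(nu c κ) ≠ ∞)
    (h1 : nu c κ {1} = 0) : ∀ᵐ e ∂(envLaw c κ), wi e ≠ 0 := by
  filter_upwards [ae_sum_lt h hfin, ae_size_mem h, ae_size h.prob (measurableSet_singleton 1) h1]
    with e he1 he2 he3
  refine wf_ne_zero (ne_top_of_le_ne_top he1 (ENNReal.tsum_le_tsum fun a => ?_)) fun a ha => ?_
  · by_cases hp : present e a
    · rw [Set.indicator_of_mem (show e ∈ {e : Env | present e a} from hp),
        Set.indicator_of_mem (show e ∈ {e : Env | present e a} from hp)]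
      show 1 - ENNReal.ofReal (1 - e.2.2 a) ≤ ENNReal.ofReal (e.2.2 a)
      rw [ENNReal.ofReal_sub _ (he2 a hp).1.le, ENNReal.ofReal_one, tsub_le_iff_right,
        add_comm]
      exact le_tsub_add
    · rw [Set.indicator_of_notMem (show e ∉ {e : Env | present e a} from hp)]
      exact zero_le
  · have h4 := he2 a ha
    have h5 : e.2.2 a < 1 := lt_of_le_of_ne h4.2 fun e' => he3 a ha e'
    refine ⟨?_, ?_⟩
    · rw [ENNReal.ofReal_le_one]; linarith
    · simp only [ne_eq, ENNReal.ofReal_eq_zero, not_le]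
      linarith

theorem inv_BB (h : Hyp c κ) {m : ℕ} (hm : 1 ≤ m) :
    ∫⁻ b, ((nb b m : ℕ) : ℝ≥0∞)⁻¹ ∂(BB c κ) ≤
      ∫⁻ e, min 1 (((m : ℝ≥0∞) * wi e)⁻¹) ∂(envLaw c κ) := by
  have t := tendsto_BB h (f := fun b => ((nb b m : ℕ) : ℝ≥0∞)⁻¹) m
    (fun g g' hg => by simp only [nb_congr hg]) (fun g => inv_nb_le_one g hm)
  refine le_of_tendsto t (Eventually.of_forall fun K => ?_)
  refine lintegral_mono_ae ?_
  filter_upwards [ae_size_mem h] with e he
  refine le_min ?_ ?_
  · calc ∫⁻ b, ((nb b m : ℕ) : ℝ≥0∞)⁻¹ ∂(comps (szs e K)) ≤ ∫⁻ _, 1 ∂(comps (szs e K)) :=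
        lintegral_mono fun b => inv_nb_le_one b hm
      _ = 1 := by simp
  · have h1 := comps_inv (l := szs e K) (fun u hu => by
      obtain ⟨a, ha, e3⟩ := szs_mem hu
      rw [← e3]; exact (he a ha).1.le) m
    have h2 : ∫⁻ b, ((nb b m : ℕ) : ℝ≥0∞)⁻¹ ∂(comps (szs e K)) ≤
        ((m : ℝ≥0∞) * ww (szs e K))⁻¹ := by
      rw [ENNReal.le_inv_iff_mul_le]
      refine le_trans (le_of_eq ?_) h1
      ring
    refine h2.trans ?_
    rw [ENNReal.inv_le_inv]
    gcongr
    exact iInf_le _ K

theorem surj_BB (h : Hyp c κ) (hfin : ∫⁻ u, ENNReal.ofReal u ∂(nu c κ) ≠ ∞)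
    (h1 : nu c κ {1} = 0) : ∀ᵐ b ∂(BB c κ), Surj b := by
  have := prob_envLaw (c := c) h.prob
  have := prob_BB (c := c) h.prob
  -- the integrals tend to zero
  have t : Tendsto (fun m : ℕ => ∫⁻ e, min 1 (((m : ℝ≥0∞) * wi e)⁻¹) ∂(envLaw c κ)) atTop
      (𝓝 0) := by
    have t1 := tendsto_lintegral_of_dominated_convergence (μ := envLaw c κ)
      (F := fun (m : ℕ) (e : Env) => min 1 (((m : ℝ≥0∞) * wi e)⁻¹)) (f := fun _ => 0)
      (fun _ => 1) (fun m => measurable_const.min ((measurable_wi.const_mul _).inv))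
      (fun m => ae_of_all _ fun e => min_le_left _ _) (by simp) (by
        filter_upwards [ae_wi h hfin h1] with e he
        have t2 : Tendsto (fun m : ℕ => ((m : ℝ≥0∞) * wi e)⁻¹) atTop (𝓝 0) := by
          have t3 : Tendsto (fun m : ℕ => (m : ℝ≥0∞) * wi e) atTop (𝓝 ∞) := by
            have := ENNReal.Tendsto.mul_const (b := wi e) ENNReal.tendsto_nat_nhds_top
              (Or.inl (by simp))
            rwa [ENNReal.top_mul he] at this
          have t4 := tendsto_inv_iff.2 t3
          rwa [ENNReal.inv_top] at t4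
        have t5 := (tendsto_const_nhds (x := (1 : ℝ≥0∞))).min t2
        simpa using t5)
    simpa using t1
  refine surj_of_inv (fun j => ∫⁻ e, min 1 ((((j + 1 : ℕ) : ℝ≥0∞) * wi e)⁻¹) ∂(envLaw c κ))
    (t.comp (tendsto_add_atTop_nat 1)) (fun j => j + 1) fun j => inv_BB h (by omega)

/-! ### Patterns -/

theorem poisson_pos {r : ℝ≥0} (hr : r ≠ 0) : poissonMeasure r {n | 0 < n} ≠ 0 := by
  have h1 : poissonMeasure r {1} ≤ poissonMeasure r {n | 0 < n} := by
    refine measure_mono ?_
    intro n hn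
    simp only [Set.mem_singleton_iff] at hn
    simp [hn]
  have h2 : poissonMeasure r {1} ≠ 0 := by
    rw [poissonMeasure_singleton]
    simp only [ne_eq, ENNReal.ofReal_eq_zero, not_le]
    have : (0 : ℝ) < r := by exact_mod_cast pos_iff_ne_zero.2 hr
    positivity
  intro h0
  rw [h0] at h1
  exact h2 (le_antisymm h1 zero_le)

theorem one_sub_hid (u : ℝ) (y : ℕ) :
    1 - hid y u ≤ ((y + 1 : ℕ) : ℝ≥0∞) ^ 2 * ENNReal.ofReal u ^ 2 := by
  refine le_trans ?_ (rel_le u y)
  rw [tsub_le_iff_left]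
  have hr : MeasurableSet {ξ : ℕ → ℝ | Rel (parts u ξ) y} := by
    have : Measurable fun ξ : ℕ → ℝ => Rel (parts u ξ) y := by
      refine measurable_of_setDep (y + 1) (fun J => Rel J y) ?_
        (fun x => measurableSet_lt (measurable_pi_apply x) measurable_const)
      intro J J' h
      unfold Rel
      rw [below_congr h]
    exact measurableSet_setOfPred.2 this
  have h1 : marks Set.univ ≤ marks ((fun ξ => shiftDown (parts u ξ)) ⁻¹' {b | ∀ j ≤ y, b j = j}) +
      marks {ξ | Rel (parts u ξ) y} := by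
    refine le_trans (measure_mono ?_) (measure_union_le _ _)
    intro ξ _
    by_cases hR : Rel (parts u ξ) y
    · exact Or.inr hR
    · left
      intro j hj
      exact shiftDown_of_not_rel (x := y) (by unfold Rel at hR; omega) hj
  rw [measure_univ] at h1
  unfold hid atom
  rw [Measure.map_apply (measurable_parts u) (meas_idOn y)]
  exact h1

theorem ae_hid (h : Hyp c κ) (h1 : nu c κ {1} = 0) (y : ℕ) :
    ∀ᵐ e ∂(envLaw c κ), wf (hid y) e ≠ 0 := by
  have hfin : ∫⁻ u, (1 - hid y u) ∂(nu c κ) ≠ ∞ := by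
    refine ne_top_of_le_ne_top ?_ (lintegral_mono fun u => one_sub_hid u y)
    rw [lintegral_const_mul _ (ENNReal.measurable_ofReal.pow_const 2)]
    exact ENNReal.mul_ne_top (by simp) h.fin
  have hm : Measurable fun u => 1 - hid y u := measurable_const.sub (measurable_hid y)
  filter_upwards [ae_asum_lt h.prob hm hfin, ae_size_mem h,
    ae_size h.prob (measurableSet_singleton 1) h1] with e he1 he2 he3
  refine wf_ne_zero he1 fun a ha => ⟨hid_le_one _ _, ?_⟩
  have h4 := he2 a ha
  have h5 : e.2.2 a < 1 := lt_of_le_of_ne h4.2 fun e' => he3 a ha e'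
  have h6 := atom_id h4.1.le h4.2 y
  have h7 : ENNReal.ofReal (1 - e.2.2 a) ^ (y + 1) ≠ 0 := by
    refine pow_ne_zero _ ?_
    simp only [ne_eq, ENNReal.ofReal_eq_zero, not_le]
    linarith
  intro h0
  unfold hid at h0
  rw [h0] at h6
  exact h7 (le_antisymm h6 zero_le)

theorem pat_BB (h : Hyp c κ) (h1 : nu c κ {1} = 0) (h2 : nu c κ ≠ 0) {x y : ℕ} (hx : 1 ≤ x)
    (hxy : x < y) : 0 < BB c κ {b | Pat x y b} := by
  have := prob_envLaw (c := c) h.prob
  have := prob_BB (c := c) h.prob
  have := h.prob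
  obtain ⟨k₀, hk₀⟩ : ∃ k, c k ≠ 0 := by
    by_contra hne
    push Not at hne
    apply h2
    unfold nu
    simp [hne, Measure.sum_zero]
  let a₀ : Name := (k₀, 0)
  let f : Env → ℝ≥0∞ := {e : Env | present e a₀}.indicator fun e =>
    (ENNReal.ofReal (e.2.2 a₀) * ENNReal.ofReal (1 - e.2.2 a₀)) ^ (y + 1) * wf (hid y) e
  have hfm : Measurable f := by
    refine Measurable.indicator ?_ (meas_present a₀)
    exact (((measurable_size a₀).ennreal_ofReal.mul
      ((measurable_size a₀).const_sub 1).ennreal_ofReal).pow_const _).mul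
        (measurable_wf (measurable_hid y))
  have t := tendsto_BB h (f := {b | Pat x y b}.indicator fun _ => 1) (y + 1) (by
      intro g g' hg
      have hiff : Pat x y g ↔ Pat x y g' :=
        ⟨fun h' => h'.congr fun j hj => hg j (by omega),
          fun h' => h'.congr fun j hj => (hg j (by omega)).symm⟩
      by_cases hp : Pat x y g
      · rw [Set.indicator_of_mem (show g ∈ {b | Pat x y b} from hp),
          Set.indicator_of_mem (show g' ∈ {b | Pat x y b} from hiff.1 hp)]
      · rw [Set.indicator_of_notMem (show g ∉ {b | Pat x y b} from hp),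
          Set.indicator_of_notMem (show g' ∉ {b | Pat x y b} from fun h' => hp (hiff.2 h'))])
      (fun g => Set.indicator_le_self' (by simp) g)
  have h3 : ∫⁻ e, f e ∂(envLaw c κ) ≤ BB c κ {b | Pat x y b} := by
    have h4 : ∫⁻ b, {b | Pat x y b}.indicator (fun _ => 1) b ∂(BB c κ) =
        BB c κ {b | Pat x y b} := by
      rw [lintegral_indicator_const (meas_pat x y), one_mul]
    rw [← h4]
    refine ge_of_tendsto t ?_
    filter_upwards [eventually_gt_atTop k₀] with K hK
    refine lintegral_mono_ae ?_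
    filter_upwards [ae_size_mem h] with e he
    rw [lintegral_indicator_const (meas_pat x y), one_mul]
    by_cases hp : present e a₀
    · simp only [f]
      rw [Set.indicator_of_mem (show e ∈ {e : Env | present e a₀} from hp)]
      have h5 := comps_pat (szs e K) hx hxy (u := e.2.2 a₀)
        (List.mem_map.2 ⟨a₀, mem_lst.2 ⟨hK, hp⟩, rfl⟩) (he a₀ hp).1.le (he a₀ hp).2
      refine le_trans ?_ h5
      gcongr
      exact iInf_le _ K
    · simp only [f]
      rw [Set.indicator_of_notMem (show e ∉ {e : Env | present e a₀} from hp)]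
      exact zero_le
  refine lt_of_lt_of_le ?_ h3
  rw [pos_iff_ne_zero]
  intro h0
  have h4 := (lintegral_eq_zero_iff hfm).1 h0
  have h5 : ∀ᵐ e ∂(envLaw c κ), ¬ present e a₀ := by
    filter_upwards [h4, ae_hid h h1 y, ae_size_mem h,
      ae_size h.prob (measurableSet_singleton 1) h1] with e he1 he2 he3 he4 hp
    have he1' : f e = 0 := he1
    simp only [f] at he1'
    rw [Set.indicator_of_mem (show e ∈ {e : Env | present e a₀} from hp)] at he1'
    have h6 := he3 a₀ hp
    have h7 : e.2.2 a₀ < 1 := lt_of_le_of_ne h6.2 fun e' => he4 a₀ hp e'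
    rcases mul_eq_zero.1 he1' with h8 | h8
    · have h9 := (pow_eq_zero_iff (Nat.succ_ne_zero y)).1 h8
      rcases mul_eq_zero.1 h9 with h10 | h10
      · rw [ENNReal.ofReal_eq_zero] at h10; linarith [h6.1]
      · rw [ENNReal.ofReal_eq_zero] at h10; linarith
    · exact he2 h8
  have h6 : envLaw c κ {e | present e a₀} = 0 := by
    rw [ae_iff] at h5
    simpa using h5
  have h7 : envLaw c κ {e | present e a₀} = poissonMeasure (c k₀) {n | 0 < n} := by
    have e1 : (envLaw c κ).map (fun e : Env => e.1 k₀) = poissonMeasure (c k₀) := by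
      unfold envLaw
      have e1 : (fun e : Env => e.1 k₀) = (fun x : ℕ → ℕ => x k₀) ∘ Prod.fst := rfl
      rw [e1, ← Measure.map_map (measurable_pi_apply k₀) measurable_fst, Measure.map_fst_prod,
        measure_univ, one_smul, Measure.infinitePi_map_eval]
    have hmk : Measurable fun e : Env => e.1 k₀ := (measurable_pi_apply k₀).comp measurable_fst
    rw [← e1, Measure.map_apply hmk (MeasurableSet.of_discrete)]
    rfl
  rw [h7] at h6
  exact poisson_pos hk₀ h6

theorem pc_BB (h : Hyp c κ) (h1 : nu c κ {1} = 0) (h2 : nu c κ ≠ 0) : pc (BB c κ) ≠ 0 := by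
  have h3 := pat_BB h h1 h2 (x := 2) (y := 3) (by omega) (by omega)
  have h4 : BB c κ {b | Pat 2 3 b} ≤ pc (BB c κ) := by
    unfold pc
    refine measure_mono ?_
    intro b hb
    exact hb.1.2.2.2 1 (by omega) (by omega)
  exact (lt_of_lt_of_le h3 h4).ne'

/-- The first two levels outside the block of `0` have different ancestors with a probability
which is bounded from below. -/
theorem main_pos (h : Hyp c κ) (h1 : nu c κ {1} = 0) (h2 : nu c κ ≠ 0)
    (hs : ∀ᵐ b ∂(BB c κ), Surj b)
    (hf : failMass (Measure.sum (iter (BB c κ))) (BB c κ) ≠ ∞) :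
    ∃ δ : ℝ≥0∞, 0 < δ ∧ ∀ n, δ ≤ iter (BB c κ) (1 + n) {g | HH g} := by
  have := prob_BB (c := c) h.prob
  exact positivity (nice_BB h) hs hf fun x y hx hxy => pat_BB h h1 h2 hx hxy

theorem dust_fail (h : Hyp c κ) (hfin : ∫⁻ u, ENNReal.ofReal u ∂(nu c κ) ≠ ∞)
    (h1 : nu c κ {1} = 0) (h2 : nu c κ ≠ 0) :
    failMass (Measure.sum (iter (BB c κ))) (BB c κ) ≠ ∞ := by
  have := prob_BB (c := c) h.prob
  have hn := nice_BB h
  have hnn : Nice (Measure.sum (iter (BB c κ))) := Nice.sum fun n => iter_nice hn n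
  exact fail_BB h hfin hnn (tb_sum hn) (pc_BB h h1 h2) (measure_ne_top _ _)

end Pool.Agent.Helper97.LD
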